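import Mathlib

/-!
# Skew-symmetric digraphs without regular cycles: hulls, concatenation, bottlenecks
-/

set_option autoImplicit false

namespace Pool.Agent.UPM

/-- A skew-symmetric digraph: a fixed-point-free involution `m` on the nodes, and arcs which are
closed under reversing and applying `m`. -/
structure Skew (V : Type*) where
  m : V → V
  mm : ∀ v, m (m v) = v
  mne : ∀ v, m v ≠ v
  arc : V → V → Prop
  skew : ∀ a b, arc a b → arc (m b) (m a)
  ne : ∀ a b, arc a b → b ≠ a
  ne' : ∀ a b, arc a b → b ≠ m a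

namespace Skew

variable {V : Type*} (S : Skew V)

theorem m_inj {a b : V} (h : S.m a = S.m b) : a = b := by
  rw [← S.mm a, h, S.mm b]

/-- `p 0, …, p k` is a path whose nodes lie on different edges. -/
def Path (p : ℕ → V) (k : ℕ) : Prop :=
  (∀ i, i < k → S.arc (p i) (p (i + 1))) ∧
    ∀ i j, i < j → j ≤ k → p j ≠ p i ∧ p j ≠ S.m (p i)

/-- No regular cycle. -/
def NoCyc : Prop := ¬ ∃ (p : ℕ → V) (k : ℕ), 1 ≤ k ∧ S.Path p k ∧ S.arc (p k) (p 0)

variable {S}

theorem Path.ne_of {p : ℕ → V} {k : ℕ} (h : S.Path p k) {i j : ℕ} (hij : i ≠ j) (hi : i ≤ k)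
    (hj : j ≤ k) : p j ≠ p i ∧ p j ≠ S.m (p i) := by
  rcases lt_or_gt_of_ne hij with h1 | h1
  · exact h.2 i j h1 hj
  · have := h.2 j i h1 hi
    refine ⟨fun e => this.1 e.symm, fun e => this.2 ?_⟩
    rw [e, S.mm]

theorem Path.sub {p : ℕ → V} {k : ℕ} (h : S.Path p k) (a l : ℕ) (hl : a + l ≤ k) :
    S.Path (fun i => p (a + i)) l :=
  ⟨fun i hi => h.1 (a + i) (by omega), fun i j hij hj => h.2 (a + i) (a + j) (by omega) (by omega)⟩

theorem Path.mono {p : ℕ → V} {k l : ℕ} (h : S.Path p k) (hl : l ≤ k) : S.Path p l :=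
  ⟨fun i hi => h.1 i (by omega), fun i j hij hj => h.2 i j hij (by omega)⟩

theorem Path.rev {p : ℕ → V} {k : ℕ} (h : S.Path p k) : S.Path (fun i => S.m (p (k - i))) k := by
  refine ⟨fun i hi => ?_, fun i j hij hj => ?_⟩
  · have h1 := S.skew _ _ (h.1 (k - (i + 1)) (by omega))
    have e : k - (i + 1) + 1 = k - i := by omega
    rw [e] at h1
    exact h1
  · have h1 := h.ne_of (i := k - i) (j := k - j) (by omega) (by omega) (by omega)
    refine ⟨fun e => h1.1 (S.m_inj e), fun e => h1.2 ?_⟩
    exact S.m_inj e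

/-- Gluing of two paths. -/
def glue (p q : ℕ → V) (k : ℕ) : ℕ → V := fun i => if i ≤ k then p i else q (i - k)

theorem glue_le (p q : ℕ → V) {k i : ℕ} (h : i ≤ k) : glue p q k i = p i := if_pos h

theorem glue_add (p q : ℕ → V) {k : ℕ} (h : p k = q 0) (i : ℕ) : glue p q k (k + i) = q i := by
  unfold glue
  split_ifs with h1
  · have : i = 0 := by omega
    subst this
    simpa using h
  · congr 1; omega

theorem glue_ge (p q : ℕ → V) {k : ℕ} (h : p k = q 0) {i : ℕ} (hi : k ≤ i) :
    glue p q k i = q (i - k) := by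
  obtain ⟨j, rfl⟩ := Nat.exists_eq_add_of_le hi
  rw [glue_add p q h]
  congr 1; omega

theorem Path.glue {p q : ℕ → V} {k l : ℕ} (hp : S.Path p k) (hq : S.Path q l) (h : p k = q 0)
    (hc : ∀ i j, i < k → 0 < j → j ≤ l → q j ≠ p i ∧ q j ≠ S.m (p i)) :
    S.Path (Skew.glue p q k) (k + l) := by
  refine ⟨fun i hi => ?_, fun i j hij hj => ?_⟩
  · by_cases h1 : i < k
    · rw [glue_le p q (by omega), glue_le p q (by omega)]
      exact hp.1 i h1
    · rw [glue_ge p q h (by omega), glue_ge p q h (by omega)]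
      have e : i + 1 - k = (i - k) + 1 := by omega
      rw [e]
      exact hq.1 _ (by omega)
  · by_cases h1 : j ≤ k
    · rw [glue_le p q (i := j) h1, glue_le p q (i := i) (by omega)]
      exact hp.2 i j hij h1
    · rw [glue_ge p q h (i := j) (by omega)]
      by_cases h2 : i < k
      · rw [glue_le p q (by omega)]
        exact hc i (j - k) h2 (by omega) (by omega)
      · rw [glue_ge p q h (by omega)]
        exact hq.2 _ _ (by omega) (by omega)

/-- **Concatenation lemma.** If two paths `p` (to `y`) and `q` (from `y`) clash, there is a closed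
path at some node `p i`, ending in `q j = m (p i)`, through `y`. -/
theorem clash (hU : S.NoCyc) {p q : ℕ → V} {k l : ℕ} (hp : S.Path p k) (hq : S.Path q l)
    (h : p k = q 0) (hc : ∃ i j, i < k ∧ 0 < j ∧ j ≤ l ∧ (q j = p i ∨ q j = S.m (p i))) :
    ∃ i j, i < k ∧ 0 < j ∧ j ≤ l ∧ q j = S.m (p i) ∧
      S.Path (Skew.glue (fun t => p (i + t)) q (k - i)) (k - i + (j - 1)) ∧
      S.arc (Skew.glue (fun t => p (i + t)) q (k - i) (k - i + (j - 1))) (S.m (p i)) := by
  classical
  -- minimal clash
  have hex : ∃ n : ℕ, ∃ i j, i < k ∧ 0 < j ∧ j ≤ l ∧ (q j = p i ∨ q j = S.m (p i)) ∧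
      (k - i) + j = n := by
    obtain ⟨i, j, h1, h2, h3, h4⟩ := hc
    exact ⟨_, i, j, h1, h2, h3, h4, rfl⟩
  obtain ⟨i, j, hi, hj, hjl, hij, hn⟩ := Nat.find_spec hex
  have hmin : ∀ i' j', i' < k → 0 < j' → j' ≤ l → (k - i') + j' < (k - i) + j →
      q j' ≠ p i' ∧ q j' ≠ S.m (p i') := by
    intro i' j' h1 h2 h3 h4
    have := Nat.find_min hex (m := (k - i') + j') (by omega)
    push Not at this
    constructor
    · intro e
      exact this i' j' h1 h2 h3 (Or.inl e) rfl
    · intro e
      exact this i' j' h1 h2 h3 (Or.inr e) rfl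
  have hk : (fun t => p (i + t)) (k - i) = q 0 := by
    change p (i + (k - i)) = q 0
    rw [← h]; congr 1; omega
  have hpath : S.Path (Skew.glue (fun t => p (i + t)) q (k - i)) (k - i + (j - 1)) := by
    refine (hp.sub i (k - i) (by omega)).glue (hq.mono (by omega)) hk ?_
    intro a b ha hb hb'
    exact hmin (i + a) b (by omega) hb (by omega) (by omega)
  have harc : S.arc (Skew.glue (fun t => p (i + t)) q (k - i) (k - i + (j - 1))) (q j) := by
    rw [glue_add (fun t => p (i + t)) q hk (j - 1)]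
    have := hq.1 (j - 1) (by omega)
    have e : j - 1 + 1 = j := by omega
    rwa [e] at this
  rcases hij with e | e
  · exfalso
    apply hU
    have hlen : 1 ≤ k - i + (j - 1) := by omega
    refine ⟨_, _, hlen, hpath, ?_⟩
    have e0 : Skew.glue (fun t => p (i + t)) q (k - i) 0 = q j := by
      rw [glue_le _ _ (Nat.zero_le _), e]; simp
    rw [e0]
    exact harc
  · refine ⟨i, j, hi, hj, hjl, e, hpath, ?_⟩
    rw [← e]; exact harc

/-! ### Hulls -/

variable (S)

/-- `B` is good for `x`. -/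
def Good (x : V) (B : Set V) : Prop :=
  (∀ v ∈ B, S.m v ∈ B) ∧ x ∉ B ∧
    ∀ t ∈ B, ∃ (p : ℕ → V) (k : ℕ), S.Path p k ∧ p 0 = x ∧ p k = t ∧ ∀ i, 0 < i → i ≤ k → p i ∈ B

/-- The hull of `x`. -/
def hull (x : V) : Set V := {t | ∃ B, S.Good x B ∧ t ∈ B}

variable {S}

theorem Good.sub {x : V} {B : Set V} (h : S.Good x B) : B ⊆ S.hull x := fun _ ht => ⟨B, h, ht⟩

theorem good_hull (x : V) : S.Good x (S.hull x) := by
  refine ⟨?_, ?_, ?_⟩
  · rintro v ⟨B, hB, hv⟩
    exact ⟨B, hB, hB.1 v hv⟩
  · rintro ⟨B, hB, hv⟩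
    exact hB.2.1 hv
  · rintro t ⟨B, hB, ht⟩
    obtain ⟨p, k, h1, h2, h3, h4⟩ := hB.2.2 t ht
    exact ⟨p, k, h1, h2, h3, fun i hi hk => hB.sub (h4 i hi hk)⟩

theorem m_mem_hull {x t : V} : S.m t ∈ S.hull x ↔ t ∈ S.hull x := by
  constructor
  · intro h
    have := (good_hull x).1 _ h
    rwa [S.mm] at this
  · exact (good_hull x).1 t

theorem self_notMem_hull (x : V) : x ∉ S.hull x := (good_hull x).2.1

theorem m_self_notMem_hull (x : V) : S.m x ∉ S.hull x := fun h =>
  self_notMem_hull x (m_mem_hull.1 h)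

/-- The interior of a closed path at `s` is in the hull of `s`. -/
theorem closed_sub_hull {p : ℕ → V} {n : ℕ} (hp : S.Path p n) (ha : S.arc (p n) (S.m (p 0)))
    {i : ℕ} (hi : 0 < i) (hin : i ≤ n) : p i ∈ S.hull (p 0) := by
  set B : Set V := {t | ∃ j, 0 < j ∧ j ≤ n ∧ (t = p j ∨ t = S.m (p j))} with hB
  have hg : S.Good (p 0) B := by
    refine ⟨?_, ?_, ?_⟩
    · rintro v ⟨j, hj, hj', e⟩
      refine ⟨j, hj, hj', ?_⟩
      rcases e with e | e
      · right; rw [e]
      · left; rw [e, S.mm]
    · rintro ⟨j, hj, hj', e⟩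
      have := hp.2 0 j hj hj'
      rcases e with e | e
      · exact this.1 e.symm
      · exact this.2 (by rw [e, S.mm])
    · rintro t ⟨j, hj, hj', e⟩
      rcases e with e | e
      · refine ⟨p, j, hp.mono hj', rfl, e.symm, fun i hi hij => ⟨i, hi, by omega, Or.inl rfl⟩⟩
      · -- backwards
        set q : ℕ → V := fun i => if i = 0 then p 0 else S.m (p (n + 1 - i)) with hq
        have hq' : ∀ i, 0 < i → q i = S.m (p (n + 1 - i)) := fun i hi => by
          rw [hq]; simp only; rw [if_neg (by omega)]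
        have hq0 : q 0 = p 0 := by rw [hq]; simp
        refine ⟨q, n + 1 - j, ⟨fun i hi => ?_, fun a b hab hb => ?_⟩, hq0, ?_, ?_⟩
        · by_cases h0 : i = 0
          · subst h0
            rw [hq0, hq' 1 (by omega)]
            have := S.skew _ _ ha
            rw [S.mm] at this
            simpa using this
          · rw [hq' i (by omega), hq' (i + 1) (by omega)]
            have := S.skew _ _ (hp.1 (n + 1 - (i + 1)) (by omega))
            have e2 : n + 1 - (i + 1) + 1 = n + 1 - i := by omega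
            rwa [e2] at this
        · rw [hq' b (by omega)]
          by_cases h0 : a = 0
          · subst h0
            rw [hq0]
            have := hp.2 0 (n + 1 - b) (by omega) (by omega)
            refine ⟨fun e => this.2 ?_, fun e => this.1 (S.m_inj e)⟩
            rw [← e, S.mm]
          · rw [hq' a (by omega)]
            have := hp.ne_of (i := n + 1 - a) (j := n + 1 - b) (by omega) (by omega) (by omega)
            exact ⟨fun e => this.1 (S.m_inj e), fun e => this.2 (S.m_inj e)⟩
        · rw [hq' _ (by omega), e]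
          congr 2; omega
        · intro i hi hi'
          rw [hq' i hi]
          exact ⟨n + 1 - i, by omega, by omega, Or.inr rfl⟩
  exact hg.sub ⟨i, hi, hin, Or.inl rfl⟩

/-- A closed path at `s` with `n` interior nodes, one of which is `t`. -/
def Closed (S : Skew V) (s t : V) (n : ℕ) : Prop :=
  ∃ p : ℕ → V, S.Path p n ∧ p 0 = s ∧ S.arc (p n) (S.m s) ∧ ∃ i, 0 < i ∧ i ≤ n ∧ p i = t

theorem Closed.mem_hull {s t : V} {n : ℕ} (h : S.Closed s t n) : t ∈ S.hull s := by
  obtain ⟨p, h1, h2, h3, i, h4, h5, h6⟩ := h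
  subst h2
  rw [← h6]
  exact closed_sub_hull h1 h3 h4 h5

/-- The concatenation lemma, in terms of closed paths. -/
theorem clash_closed (hU : S.NoCyc) {p q : ℕ → V} {k l : ℕ} (hp : S.Path p k) (hq : S.Path q l)
    (h : p k = q 0) (hc : ∃ i j, i < k ∧ 0 < j ∧ j ≤ l ∧ (q j = p i ∨ q j = S.m (p i))) :
    ∃ i j, i < k ∧ 0 < j ∧ j ≤ l ∧ q j = S.m (p i) ∧ S.Closed (p i) (p k) (k - i + (j - 1)) := by
  obtain ⟨i, j, h1, h2, h3, h4, h5, h6⟩ := clash hU hp hq h hc
  refine ⟨i, j, h1, h2, h3, h4, _, h5, ?_, h6, k - i, by omega, by omega, ?_⟩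
  · rw [glue_le _ _ (Nat.zero_le _)]; simp
  · rw [glue_le _ _ le_rfl]; congr 1; omega

theorem last_in (B : Set V) (q : ℕ → V) (l : ℕ) (h0 : q 0 ∈ B) :
    ∃ j, j ≤ l ∧ q j ∈ B ∧ ∀ i, j < i → i ≤ l → q i ∉ B := by
  classical
  refine ⟨Nat.findGreatest (fun i => q i ∈ B) l, Nat.findGreatest_le _, ?_, ?_⟩
  · exact Nat.findGreatest_spec (P := fun i => q i ∈ B) (Nat.zero_le l) h0
  · intro i hi hil
    exact Nat.findGreatest_is_greatest hi hil

theorem first_in (B : Set V) (q : ℕ → V) (a l : ℕ) (hal : a ≤ l) (h0 : q l ∈ B) :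
    ∃ j, a ≤ j ∧ j ≤ l ∧ q j ∈ B ∧ ∀ i, a ≤ i → i < j → q i ∉ B := by
  classical
  have hex : ∃ j, a ≤ j ∧ q j ∈ B := ⟨l, hal, h0⟩
  refine ⟨Nat.find hex, (Nat.find_spec hex).1, Nat.find_min' hex ⟨hal, h0⟩,
    (Nat.find_spec hex).2, ?_⟩
  intro i hi hij hB
  exact Nat.find_min hex hij ⟨hi, hB⟩

theorem Good.glue_out {x : V} {B : Set V} (hB : S.Good x B) {p q : ℕ → V} {k l : ℕ}
    (hp : S.Path p k) (hp0 : p 0 = x) (hpB : ∀ i, 0 < i → i ≤ k → p i ∈ B) (hq : S.Path q l)
    (hc : p k = q 0) (hout : ∀ j, 0 < j → j ≤ l → q j ∉ B ∧ q j ≠ x ∧ q j ≠ S.m x) :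
    S.Path (Skew.glue p q k) (k + l) := by
  refine hp.glue hq hc fun i j hi hj hjl => ?_
  obtain ⟨h1, h2, h3⟩ := hout j hj hjl
  by_cases h0 : i = 0
  · subst h0; rw [hp0]; exact ⟨h2, h3⟩
  · have := hpB i (by omega) (by omega)
    exact ⟨fun e => h1 (e ▸ this), fun e => h1 (e ▸ hB.1 _ this)⟩

theorem notMem_hull_of_mem (hU : S.NoCyc) {x s : V} (hs : s ∈ S.hull x) : x ∉ S.hull s := by
  intro hx
  have hB := good_hull (S := S) x
  obtain ⟨q, l, hq, hq0, hql, hqC⟩ := (good_hull (S := S) s).2.2 x hx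
  obtain ⟨j0, hj0, hj0B, hout⟩ := last_in (S.hull x) q l (by rw [hq0]; exact hs)
  have hj0l : j0 < l := by
    rcases Nat.lt_or_ge j0 l with h | h
    · exact h
    · exfalso
      have e : j0 = l := by omega
      rw [e, hql] at hj0B
      exact self_notMem_hull x hj0B
  obtain ⟨p, k, hp, hp0, hpk, hpB⟩ := hB.2.2 _ hj0B
  have hk : 1 ≤ k := by
    by_contra h
    have : k = 0 := by omega
    subst this
    rw [hp0] at hpk
    rw [← hpk] at hj0B
    exact self_notMem_hull x hj0B
  have hc : p k = (fun t => q (j0 + t)) 0 := by simpa using hpk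
  have hpath := hB.glue_out hp hp0 hpB (hq.sub j0 (l - 1 - j0) (by omega)) hc (by
    intro j hj hj'
    refine ⟨hout _ (by omega) (by omega), ?_, ?_⟩
    · rw [← hql]
      exact (hq.ne_of (i := l) (j := j0 + j) (by omega) le_rfl (by omega)).1
    · rw [← hql]
      exact (hq.ne_of (i := l) (j := j0 + j) (by omega) le_rfl (by omega)).2)
  apply hU
  refine ⟨_, _, by omega, hpath, ?_⟩
  rw [glue_add _ _ hc, glue_le _ _ (Nat.zero_le _), hp0]
  have := hq.1 (l - 1) (by omega)
  have e : l - 1 + 1 = l := by omega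
  rw [e, hql] at this
  have e2 : j0 + (l - 1 - j0) = l - 1 := by omega
  change S.arc (q (j0 + (l - 1 - j0))) x
  rw [e2]
  exact this

/-- Hulls are nested. -/
theorem hull_mono (hU : S.NoCyc) {x s : V} (hs : s ∈ S.hull x) : S.hull s ⊆ S.hull x := by
  have hB := good_hull (S := S) x
  have hC := good_hull (S := S) s
  have hx : x ∉ S.hull s := notMem_hull_of_mem hU hs
  have hx' : S.m x ∉ S.hull s := fun h => hx (m_mem_hull.1 h)
  have hg : S.Good x (S.hull x ∪ S.hull s) := by
    refine ⟨?_, ?_, ?_⟩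
    · rintro v (hv | hv)
      · exact Or.inl (hB.1 v hv)
      · exact Or.inr (hC.1 v hv)
    · rintro (h | h)
      · exact hB.2.1 h
      · exact hx h
    · intro t ht
      by_cases htB : t ∈ S.hull x
      · obtain ⟨p, k, h1, h2, h3, h4⟩ := hB.2.2 t htB
        exact ⟨p, k, h1, h2, h3, fun i hi hk => Or.inl (h4 i hi hk)⟩
      · have htC : t ∈ S.hull s := ht.resolve_left htB
        obtain ⟨q, l, hq, hq0, hql, hqC⟩ := hC.2.2 t htC
        obtain ⟨j0, hj0, hj0B, hout⟩ := last_in (S.hull x) q l (by rw [hq0]; exact hs)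
        obtain ⟨p, k, hp, hp0, hpk, hpB⟩ := hB.2.2 _ hj0B
        have hc : p k = (fun t => q (j0 + t)) 0 := by simpa using hpk
        have hj0l : j0 < l := by
          rcases Nat.lt_or_ge j0 l with h | h
          · exact h
          · exfalso
            have e : j0 = l := by omega
            rw [e, hql] at hj0B
            exact htB hj0B
        have hpath := hB.glue_out hp hp0 hpB (hq.sub j0 (l - j0) (by omega)) hc (by
          intro j hj hj'
          have hmem : q (j0 + j) ∈ S.hull s := hqC _ (by omega) (by omega)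
          refine ⟨hout _ (by omega) (by omega), ?_, ?_⟩
          · intro e; apply hx; rw [← e]; exact hmem
          · intro e; apply hx'; rw [← e]; exact hmem)
        refine ⟨_, _, hpath, ?_, ?_, ?_⟩
        · rw [glue_le _ _ (Nat.zero_le _), hp0]
        · rw [glue_add _ _ hc]
          rw [← hql]; congr 1; omega
        · intro i hi hi'
          by_cases h : i ≤ k
          · rw [glue_le _ _ h]; exact Or.inl (hpB i hi h)
          · rw [glue_ge _ _ hc (by omega)]
            exact Or.inr (hqC _ (by omega) (by omega))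
  exact fun t ht => hg.sub (Or.inr ht)

theorem hull_ssubset (hU : S.NoCyc) {x s : V} (hs : s ∈ S.hull x) : S.hull s ⊂ S.hull x :=
  ⟨hull_mono hU hs, fun h => self_notMem_hull s (h hs)⟩

/-- A path from `x` ending in the hull of `x` stays in the hull. -/
theorem stay {p : ℕ → V} {k : ℕ} (hp : S.Path p k) (hm : p k ∈ S.hull (p 0)) :
    ∀ i, 0 < i → i ≤ k → p i ∈ S.hull (p 0) := by
  classical
  intro i hi hik
  by_contra hni
  set x := p 0 with hx
  set B := S.hull x with hBdef
  have hB : S.Good x B := good_hull x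
  -- last index before `i` in `B ∪ {x}`
  obtain ⟨a, ha, haB, haout⟩ := last_in (B ∪ {x}) p i (by right; rfl)
  have hai : a < i := by
    rcases Nat.lt_or_ge a i with h | h
    · exact h
    · exfalso
      have e : a = i := by omega
      subst e
      rcases haB with h' | h'
      · exact hni h'
      · exact (hp.2 0 a hi hik).1 h'
  obtain ⟨b, hib, hbk, hbB, hbout⟩ := first_in B p i k hik hm
  have hib' : i < b := by
    rcases Nat.lt_or_ge i b with h | h
    · exact h
    · exfalso
      have e : b = i := by omega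
      subst e
      exact hni hbB
  have hout : ∀ j, a < j → j < b → p j ∉ B := by
    intro j h1 h2
    by_cases h3 : j ≤ i
    · exact fun h => haout j h1 h3 (Or.inl h)
    · exact hbout j (by omega) h2
  have houtx : ∀ j, a < j → j < b → p j ≠ x ∧ p j ≠ S.m x := fun j h1 h2 =>
    hp.2 0 j (by omega) (by omega)
  set D : Set V := {t | ∃ j, a < j ∧ j < b ∧ (t = p j ∨ t = S.m (p j))} with hD
  have hg : S.Good x (B ∪ D) := by
    refine ⟨?_, ?_, ?_⟩
    · rintro v (hv | ⟨j, h1, h2, e⟩)
      · exact Or.inl (hB.1 v hv)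
      · right
        refine ⟨j, h1, h2, ?_⟩
        rcases e with e | e
        · right; rw [e]
        · left; rw [e, S.mm]
    · rintro (h | ⟨j, h1, h2, e⟩)
      · exact hB.2.1 h
      · have := houtx j h1 h2
        rcases e with e | e
        · exact this.1 e.symm
        · exact this.2 (by rw [e, S.mm])
    · rintro t (ht | ⟨j, h1, h2, e⟩)
      · obtain ⟨p, k, h1, h2, h3, h4⟩ := hB.2.2 t ht
        exact ⟨p, k, h1, h2, h3, fun i hi hk => Or.inl (h4 i hi hk)⟩
      · rcases e with e | e
        · -- forwards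
          obtain ⟨r, n, hr, hr0, hrn, hrB⟩ : ∃ (r : ℕ → V) (n : ℕ), S.Path r n ∧ r 0 = x ∧
              r n = p a ∧ ∀ i, 0 < i → i ≤ n → r i ∈ B := by
            by_cases h0 : p a ∈ B
            · exact hB.2.2 _ h0
            · have h1 : p a = x := haB.resolve_left h0
              exact ⟨fun _ => x, 0, ⟨fun i hi => by omega, fun i j hij hj => by omega⟩, rfl,
                h1.symm, fun i hi hi' => by omega⟩
          have hc : r n = (fun t => p (a + t)) 0 := by simpa using hrn
          have hpath := hB.glue_out hr hr0 hrB (hp.sub a (j - a) (by omega)) hc (by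
            intro j' hj hj'
            exact ⟨hout _ (by omega) (by omega), houtx _ (by omega) (by omega)⟩)
          refine ⟨_, _, hpath, ?_, ?_, ?_⟩
          · rw [glue_le _ _ (Nat.zero_le _), hr0]
          · rw [glue_add _ _ hc, e]
            congr 1; omega
          · intro i' hi0 hi'
            by_cases h : i' ≤ n
            · rw [glue_le _ _ h]; exact Or.inl (hrB i' hi0 h)
            · rw [glue_ge _ _ hc (by omega)]
              exact Or.inr ⟨a + (i' - n), by omega, by omega, Or.inl rfl⟩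
        · -- backwards
          obtain ⟨r, n, hr, hr0, hrn, hrB⟩ := hB.2.2 _ (hB.1 _ hbB)
          have hrev : S.Path (fun t => S.m (p (b - t))) (b - j) := by
            have := (hp.sub j (b - j) (by omega)).rev
            refine ⟨fun i hi => ?_, fun i i' hii hi' => ?_⟩
            · have h3 := this.1 i hi
              have e1 : j + (b - j - i) = b - i := by omega
              have e2 : j + (b - j - (i + 1)) = b - (i + 1) := by omega
              simp only [e1, e2] at h3
              exact h3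
            · have h3 := this.2 i i' hii hi'
              have e1 : j + (b - j - i) = b - i := by omega
              have e2 : j + (b - j - i') = b - i' := by omega
              simp only [e1, e2] at h3
              exact h3
          have hc : r n = (fun t => S.m (p (b - t))) 0 := by simpa using hrn
          have hpath := hB.glue_out hr hr0 hrB hrev hc (by
            intro j' hj hj'
            have h3 := hout (b - j') (by omega) (by omega)
            have h4 := houtx (b - j') (by omega) (by omega)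
            refine ⟨fun h => h3 ?_, fun h => h4.2 ?_, fun h => h4.1 (S.m_inj h)⟩
            · have := hB.1 _ h
              rwa [S.mm] at this
            · rw [← h, S.mm])
          refine ⟨_, _, hpath, ?_, ?_, ?_⟩
          · rw [glue_le _ _ (Nat.zero_le _), hr0]
          · rw [glue_add _ _ hc, e]
            congr 2; omega
          · intro i' hi0 hi'
            by_cases h : i' ≤ n
            · rw [glue_le _ _ h]; exact Or.inl (hrB i' hi0 h)
            · rw [glue_ge _ _ hc (by omega)]
              exact Or.inr ⟨b - (i' - n), by omega, by omega, Or.inr rfl⟩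
  exact hni (hg.sub (Or.inr ⟨i, hai, hib', Or.inl rfl⟩))

/-- `z` is the end of a path starting at `x`. -/
def Rch (S : Skew V) (x z : V) : Prop := ∃ (p : ℕ → V) (k : ℕ), S.Path p k ∧ p 0 = x ∧ p k = z

theorem clash_back (hU : S.NoCyc) {x y : V} (hxy : y ≠ x) (h1 : S.Rch x y)
    (h2 : S.Rch x (S.m y)) : ∃ a, S.Rch x a ∧ y ∈ S.hull a ∧ (a = x ∨ (a ≠ x ∧ a ≠ S.m x)) := by
  obtain ⟨p, k, hp, hp0, hpk⟩ := h1
  obtain ⟨q, l, hq, hq0, hql⟩ := h2
  have hk : 0 < k := by
    rcases Nat.eq_zero_or_pos k with h | h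
    · subst h; exact absurd (hpk.symm.trans hp0) hxy
    · exact h
  have hl : 0 < l := by
    rcases Nat.eq_zero_or_pos l with h | h
    · subst h
      exfalso
      have e : S.m y = x := hql.symm.trans hq0
      have := (hp.2 0 k hk le_rfl).2
      rw [hp0, hpk] at this
      exact this (by rw [← e, S.mm])
    · exact h
  have hc : p k = (fun i => S.m (q (l - i))) 0 := by
    simp only [Nat.sub_zero]
    rw [hql, S.mm, hpk]
  obtain ⟨i, j, hi, hj, hjl, he, hcl⟩ := clash_closed hU hp hq.rev hc
    ⟨0, l, hk, hl, le_rfl, Or.inr (by simp [hq0, hp0])⟩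
  refine ⟨p i, ⟨p, i, hp.mono hi.le, hp0, rfl⟩, ?_, ?_⟩
  · rw [← hpk]; exact hcl.mem_hull
  · by_cases h0 : i = 0
    · left; rw [h0, hp0]
    · right
      have := hp.2 0 i (by omega) hi.le
      rw [hp0] at this
      exact this

/-- **Bottleneck lemma.** -/
theorem bottleneck [Finite V] (hU : S.NoCyc) {x m : V} (hxm : m ≠ x)
    (h1 : S.Rch x m) (h2 : S.Rch x (S.m m)) (h3 : m ∉ S.hull x) :
    ∃ b, b ≠ x ∧ b ≠ S.m x ∧ b ≠ m ∧ b ≠ S.m m ∧ ∀ (p : ℕ → V) (k : ℕ), S.Path p k → p 0 = x →
      (p k = m ∨ p k = S.m m) → ∃ i, i ≤ k ∧ p i = b := by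
  classical
  have := Fintype.ofFinite V
  set K : Set V := {a | a ≠ x ∧ a ≠ S.m x ∧ S.Rch x a ∧ m ∈ S.hull a} with hK
  have hne : K.Nonempty := by
    obtain ⟨a, ha1, ha2, ha3⟩ := clash_back hU hxm h1 h2
    rcases ha3 with rfl | ⟨h4, h5⟩
    · exact absurd ha2 h3
    · exact ⟨a, h4, h5, ha1, ha2⟩
  obtain ⟨b, hbK, hbmax⟩ := Set.exists_max_image K (fun a => (S.hull a).ncard) (Set.toFinite K) hne
  obtain ⟨hbx, hbx', hbr, hbm⟩ := hbK
  have hgb := good_hull (S := S) b
  refine ⟨b, hbx, hbx', ?_, ?_, ?_⟩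
  · rintro rfl; exact self_notMem_hull _ hbm
  · rintro rfl; exact self_notMem_hull _ (m_mem_hull.2 hbm)
  intro p k hp hp0 hpk
  by_contra hno
  push Not at hno
  -- `x` is not in the hull of `b`
  have hxb : x ∉ S.hull b := by
    intro hx
    obtain ⟨q, l, hq, hq0, hql⟩ := hbr
    obtain ⟨j0, hj0, hj0B, hout⟩ := last_in (S.hull b) q l (by rw [hq0]; exact hx)
    have hj0l : j0 < l := by
      rcases Nat.lt_or_ge j0 l with h | h
      · exact h
      · exfalso
        have e : j0 = l := by omega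
        rw [e, hql] at hj0B
        exact self_notMem_hull b hj0B
    obtain ⟨r, n, hr, hr0, hrn, hrB⟩ := hgb.2.2 _ hj0B
    have hn : 1 ≤ n := by
      by_contra h
      have : n = 0 := by omega
      subst this
      rw [hr0] at hrn
      rw [← hrn] at hj0B
      exact self_notMem_hull b hj0B
    have hc : r n = (fun t => q (j0 + t)) 0 := by simpa using hrn
    have hpath := hgb.glue_out hr hr0 hrB (hq.sub j0 (l - 1 - j0) (by omega)) hc (by
      intro j hj hj'
      refine ⟨hout _ (by omega) (by omega), ?_, ?_⟩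
      · rw [← hql]
        exact (hq.ne_of (i := l) (j := j0 + j) (by omega) le_rfl (by omega)).1
      · rw [← hql]
        exact (hq.ne_of (i := l) (j := j0 + j) (by omega) le_rfl (by omega)).2)
    apply hU
    refine ⟨_, _, by omega, hpath, ?_⟩
    rw [glue_add _ _ hc, glue_le _ _ (Nat.zero_le _), hr0]
    have := hq.1 (l - 1) (by omega)
    have e : l - 1 + 1 = l := by omega
    rw [e, hql] at this
    have e2 : j0 + (l - 1 - j0) = l - 1 := by omega
    change S.arc (q (j0 + (l - 1 - j0))) b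
    rw [e2]
    exact this
  -- the path reaches `m b`
  have hback : S.Rch x (S.m b) := by
    have hend : p k ∈ S.hull b ∪ {b, S.m b} := by
      left
      rcases hpk with e | e
      · rw [e]; exact hbm
      · rw [e]; exact m_mem_hull.2 hbm
    obtain ⟨j, _, hjk, hjB, hjout⟩ := first_in (S.hull b ∪ {b, S.m b}) p 0 k (Nat.zero_le _) hend
    rcases hjB with hjB | hjB | hjB
    · -- through the hull
      obtain ⟨r, n, hr, hr0, hrn, hrB⟩ := hgb.2.2 _ (m_mem_hull.2 hjB)
      have hc : p j = (fun i => S.m (r (n - i))) 0 := by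
        simp only [Nat.sub_zero]
        rw [hrn, S.mm]
      have hpath := (hp.mono hjk).glue hr.rev hc (by
        intro i i' hi hi0 hin
        have hio := hjout i (Nat.zero_le _) hi
        have hio1 : p i ∉ S.hull b := fun h => hio (Or.inl h)
        have hio2 : p i ≠ b := fun h => hio (Or.inr (Or.inl h))
        have hio3 : p i ≠ S.m b := fun h => hio (Or.inr (Or.inr h))
        by_cases h0 : n - i' = 0
        · rw [h0, hr0]
          exact ⟨fun e => hio3 e.symm, fun e => hio2 (S.m_inj e).symm⟩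
        · have hmem := hrB (n - i') (by omega) (by omega)
          refine ⟨fun e => hio1 ?_, fun e => hio1 ?_⟩
          · rw [← e]; exact m_mem_hull.2 hmem
          · rw [← S.m_inj e]; exact hmem)
      refine ⟨_, _, hpath, ?_, ?_⟩
      · rw [glue_le _ _ (Nat.zero_le _), hp0]
      · rw [glue_add _ _ hc]
        simp [hr0]
    · exact absurd hjB (hno j hjk)
    · exact ⟨p, j, hp.mono hjk, hp0, hjB⟩
  obtain ⟨a, ha1, ha2, ha3⟩ := clash_back hU hbx hbr hback
  rcases ha3 with rfl | ⟨h4, h5⟩
  · exact h3 (hull_mono hU ha2 hbm)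
  · have haK : a ∈ K := ⟨h4, h5, ha1, hull_mono hU ha2 hbm⟩
    have h6 := hbmax a haK
    have h7 := Set.ncard_lt_ncard (hull_ssubset hU ha2) (Set.toFinite _)
    omega

end Skew

end Pool.Agent.UPM
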