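import Mathlib

/-!
# Recursions for determinants modulo 2 (definitions)
-/

set_option autoImplicit false

namespace Pool.Agent.UPM

open Finset

/-- Entry `(x, y)` of the `k`-th power of the leading `i × i` block of `a`. -/
def powc (a : ℕ → ℕ → ZMod 2) (i : ℕ) : ℕ → ℕ → ℕ → ZMod 2
  | 0, x, y => if x = y then 1 else 0
  | 1, x, y => a x y
  | k + 2, x, y => ∑ w ∈ range i, powc a i ((k + 2) / 2) x w * powc a i (k + 2 - (k + 2) / 2) w y
  termination_by k => k
  decreasing_by all_goals omega

/-- Coefficient of `z^k` in the product of the power series `f lo, …, f (lo + len - 1)`. -/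
def prodc (f : ℕ → ℕ → ZMod 2) : ℕ → ℕ → ℕ → ZMod 2
  | 0, _, k => if k = 0 then 1 else 0
  | 1, lo, k => f lo k
  | len + 2, lo, k => ∑ k₁ ∈ range (k + 1), prodc f ((len + 2) / 2) lo k₁ *
      prodc f (len + 2 - (len + 2) / 2) (lo + (len + 2) / 2) (k - k₁)
  termination_by len => len
  decreasing_by all_goals omega

/-- Coefficient of `z^k` in the product of the power series `g (z^q), g (z^(2q)), …`. -/
def invc (g : ℕ → ZMod 2) (q k : ℕ) : ZMod 2 :=
  if _h : q = 0 ∨ k < q then (if k = 0 then 1 else 0)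
  else ∑ k₁ ∈ (range (k + 1)).attach, if q ∣ k₁.1 then g (k₁.1 / q) * invc g (2 * q) (k - k₁.1) else 0
  termination_by k + 1 - q
  decreasing_by
    have := mem_range.1 k₁.2
    push Not at _h
    omega

/-- The determinant modulo 2. -/
def detc (n : ℕ) (a : ℕ → ℕ → ZMod 2) : ZMod 2 :=
  invc (fun k => prodc (fun i k => powc a (i + 1) k i i) n 0 k) 1 n

/-- The matrix `a` with the rows and columns `u`, `v` replaced by those of the identity. -/
def del (a : ℕ → ℕ → ZMod 2) (u v : ℕ) : ℕ → ℕ → ZMod 2 := fun x y =>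
  if x = u ∨ x = v ∨ y = u ∨ y = v then (if x = y then 1 else 0) else a x y

/-- Perfect matchings as involutions. -/
def IsPM {V : Type*} (adj : V → V → Prop) (f : V → V) : Prop :=
  (∀ v, f (f v) = v) ∧ ∀ v, adj v (f v)

end Pool.Agent.UPM
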