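import Mathlib
import Pool.Agent.UPM.Skew
import Pool.Agent.UPM.Det

set_option autoImplicit false

namespace Pool.Agent.UPM

/-- The skew-symmetric digraph of a graph with a perfect matching. -/
def skewOf {V : Type*} (adj : V → V → Prop) (hs : ∀ a b, adj a b → adj b a) (hi : ∀ a, ¬ adj a a)
    (f : V → V) (hf : IsPM adj f) : Skew V where
  m := f
  mm := hf.1
  mne := fun v h => hi v (by have := hf.2 v; rwa [h] at this)
  arc := fun a b => adj a (f b) ∧ b ≠ a
  skew := fun a b h => ⟨by rw [hf.1]; exact hs _ _ h.1, fun e => h.2 (by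
    rw [← hf.1 a, e, hf.1])⟩
  ne := fun _ _ h => h.2
  ne' := fun a b h e => hi a (by have := h.1; rwa [e, hf.1] at this)

end Pool.Agent.UPM
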