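import Mathlib
import Pool.Agent.UPM.Defs

/-!
# Uniqueness of a perfect matching and regular cycles
-/

set_option autoImplicit false

namespace Pool.Agent.UPM

private theorem pm_exists_cycle {V : Type*} [Finite V] (adj : V → V → Prop)
    (hs : ∀ a b, adj a b → adj b a) (hi : ∀ a, ¬ adj a a) (f : V → V) (hf : IsPM adj f)
    (g : V → V) (hg : IsPM adj g) (hne : g ≠ f) : ¬ (skewOf adj hs hi f hf).NoCyc := by
  classical
  obtain ⟨a, ha⟩ := Function.ne_iff.1 hne
  have hfne : ∀ v, f v ≠ v := fun v h => hi v (by have := hf.2 v; rwa [h] at this)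
  have hgne : ∀ v, g v ≠ v := fun v h => hi v (by have := hg.2 v; rwa [h] at this)
  let F : Equiv.Perm V := ⟨f, f, hf.1, hf.1⟩
  let G : Equiv.Perm V := ⟨g, g, hg.1, hg.1⟩
  have hFF : F * F = 1 := Equiv.ext fun v => hf.1 v
  have hGG : G * G = 1 := Equiv.ext fun v => hg.1 v
  let h : Equiv.Perm V := F * G
  have hhv : ∀ v, h v = f (g v) := fun v => rfl
  have hinv : h⁻¹ = G * F := by
    rw [inv_eq_iff_mul_eq_one]
    calc F * G * (G * F) = F * (G * G) * F := by group
      _ = 1 := by rw [hGG, mul_one, hFF]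
  have hsc : SemiconjBy F h h⁻¹ := by
    change F * h = h⁻¹ * F
    rw [hinv]
    change F * (F * G) = G * F * F
    rw [← mul_assoc, hFF, one_mul, mul_assoc, hFF, mul_one]
  have hscn : ∀ n : ℕ, F * h ^ n = (h ^ n)⁻¹ * F := by
    intro n
    have := hsc.pow_right n
    rw [inv_pow] at this
    exact this
  -- no collision
  have hno : ∀ n : ℕ, (h ^ n) a ≠ f a := by
    intro n hn
    rcases Nat.even_or_odd' n with ⟨m, rfl | rfl⟩
    · apply hfne ((h ^ m) a)
      have h1 : F ((h ^ m) a) = (h ^ m)⁻¹ (F a) := by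
        have := congrArg (fun e : Equiv.Perm V => e a) (hscn m)
        simpa using this
      have h2 : F a = (h ^ m) ((h ^ m) a) := by
        change f a = _
        rw [← hn, two_mul, pow_add]; rfl
      have h3 : F ((h ^ m) a) = (h ^ m) a := by rw [h1, h2]; simp
      exact h3
    · apply hgne ((h ^ m) a)
      have h1 : F ((h ^ m) a) = (h ^ m)⁻¹ (F a) := by
        have := congrArg (fun e : Equiv.Perm V => e a) (hscn m)
        simpa using this
      have h2 : F a = (h ^ m) (h ((h ^ m) a)) := by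
        change f a = _
        have e : 2 * m + 1 = m + (1 + m) := by omega
        rw [← hn, e, pow_add, pow_add, pow_one]; rfl
      have h3 : F ((h ^ m) a) = h ((h ^ m) a) := by rw [h1, h2]; simp
      have h4 : F ((h ^ m) a) = F (G ((h ^ m) a)) := h3
      exact (F.injective h4).symm
  have hno2 : ∀ i j : ℕ, (h ^ j) a ≠ f ((h ^ i) a) := by
    intro i j hij
    apply hno (i + j)
    have h1 : F ((h ^ i) a) = (h ^ i)⁻¹ (F a) := by
      have := congrArg (fun e : Equiv.Perm V => e a) (hscn i)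
      simpa using this
    have h2 : (h ^ j) a = (h ^ i)⁻¹ (F a) := by rw [← h1]; exact hij
    rw [pow_add, Equiv.Perm.mul_apply, h2]
    simp
    rfl
  -- period
  have hfin : ∃ n > 0, h ^ n = 1 := by
    have := isOfFinOrder_of_finite h
    rw [isOfFinOrder_iff_pow_eq_one] at this
    exact this
  obtain ⟨n0, hn0, hn1⟩ := hfin
  have hper : Function.IsPeriodicPt h n0 a := by
    rw [Function.IsPeriodicPt, Function.IsFixedPt, ← Equiv.Perm.coe_pow, hn1]; rfl
  have hpos := hper.minimalPeriod_pos hn0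
  set n := Function.minimalPeriod h a with hn
  have hna : (h ^ n) a = a := by
    have := Function.isPeriodicPt_minimalPeriod h a
    rw [Function.IsPeriodicPt, Function.IsFixedPt, ← Equiv.Perm.coe_pow] at this
    exact this
  have hn2 : n ≠ 1 := by
    intro h1
    rw [h1, pow_one, hhv] at hna
    apply ha
    rw [← hf.1 (g a), hna]
  have hmove : ∀ i : ℕ, h ((h ^ i) a) ≠ (h ^ i) a := by
    intro i hi'
    apply ha
    have : h a = a := by
      apply (h ^ i).injective
      rw [← Equiv.Perm.mul_apply, ← pow_succ, pow_succ']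
      exact hi'
    rw [hhv] at this
    rw [← hf.1 (g a), this]
  intro hN
  apply hN
  refine ⟨fun i => (h ^ i) a, n - 1, by omega, ⟨?_, ?_⟩, ?_⟩
  · intro i _
    change adj ((h ^ i) a) (f ((h ^ (i + 1)) a)) ∧ (h ^ (i + 1)) a ≠ (h ^ i) a
    rw [pow_succ', Equiv.Perm.mul_apply]
    refine ⟨?_, hmove i⟩
    rw [hhv, hf.1]
    exact hg.2 _
  · intro i j hij hj
    refine ⟨?_, fun e => hno2 i j e⟩
    intro e
    have e' : h^[j] a = h^[i] a := by
      rw [← Equiv.Perm.coe_pow, ← Equiv.Perm.coe_pow]; exact e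
    have := Function.iterate_injOn_Iio_minimalPeriod (f := h) (x := a)
      (show j < Function.minimalPeriod h a by omega)
      (show i < Function.minimalPeriod h a by omega) e'
    omega
  · change adj ((h ^ (n - 1)) a) (f ((h ^ 0) a)) ∧ (h ^ 0) a ≠ (h ^ (n - 1)) a
    have e : (h ^ 0) a = h ((h ^ (n - 1)) a) := by
      rw [← Equiv.Perm.mul_apply, ← pow_succ', Nat.sub_add_cancel hpos, hna]; rfl
    rw [e]
    refine ⟨?_, hmove _⟩
    rw [hhv, hf.1]
    exact hg.2 _

private theorem cycle_exists_pm {V : Type*} (adj : V → V → Prop)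
    (hs : ∀ a b, adj a b → adj b a) (hi : ∀ a, ¬ adj a a) (f : V → V) (hf : IsPM adj f)
    (hC : ¬ (skewOf adj hs hi f hf).NoCyc) : ∃ g, IsPM adj g ∧ g ≠ f := by
  classical
  rw [Skew.NoCyc, not_not] at hC
  obtain ⟨p, k, hk, hp, hkp⟩ := hC
  have hfne : ∀ v, f v ≠ v := fun v h => hi v (by have := hf.2 v; rwa [h] at this)
  have hp2 : ∀ i j, i ≤ k → j ≤ k → i ≠ j → p j ≠ p i := by
    intro i j h1 h2 h3
    rcases lt_or_gt_of_ne h3 with h | h
    · exact (hp.2 i j h h2).1
    · exact (hp.2 j i h h1).1.symm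
  have hp3 : ∀ i j, i ≤ k → j ≤ k → p j ≠ f (p i) := by
    intro i j h1 h2
    rcases lt_trichotomy i j with h | h | h
    · exact (hp.2 i j h h2).2
    · subst h; exact (hfne _).symm
    · intro e
      apply (hp.2 j i h h1).2
      change p i = f (p j)
      rw [e, hf.1]
  let ι : Fin (k + 1) ↪ V := ⟨fun i => p i, by
    intro i j hij
    by_contra hne
    exact hp2 j i (by omega) (by omega) (fun e => hne (Fin.ext e.symm)) hij⟩
  have hι : ∀ i : Fin (k + 1), ι i = p i := fun i => rfl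
  have harc : ∀ i : Fin (k + 1), adj (ι i) (f (ι (i + 1))) ∧ ι (i + 1) ≠ ι i := by
    intro i
    rw [hι, hι, Fin.val_add_one]
    split_ifs with hlast
    · rw [hlast]
      exact hkp
    · have : (i : ℕ) < k := by
        rcases Nat.lt_or_ge i k with h | h
        · exact h
        · exact absurd (Fin.ext (by simp; omega)) hlast
      exact hp.1 i this
  let σ : Equiv.Perm V := (finRotate (k + 1)).viaEmbedding ι
  have hσ1 : ∀ i : Fin (k + 1), σ (ι i) = ι (i + 1) := by
    intro i
    change (finRotate (k + 1)).viaEmbedding ι (ι i) = _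
    rw [Equiv.Perm.viaEmbedding_apply, finRotate_apply]
  have hσ2 : ∀ v, v ∉ Set.range ι → σ v = v := fun v hv =>
    Equiv.Perm.viaEmbedding_apply_of_notMem _ _ _ hv
  let F : Equiv.Perm V := ⟨f, f, hf.1, hf.1⟩
  let g : Equiv.Perm V := F * σ * F * (F * σ)⁻¹
  have hgv : ∀ v, g v = f (σ (f (σ⁻¹ (f v)))) := fun v => rfl
  have hnr : ∀ i : Fin (k + 1), f (ι i) ∉ Set.range ι := by
    rintro i ⟨j, hj⟩
    exact hp3 i j (by omega) (by omega) hj
  have hcase : ∀ v, (∃ i : Fin (k + 1), f v = ι (i + 1) ∧ g v = ι i) ∨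
      (∃ i : Fin (k + 1), v = ι i ∧ g v = f (ι (i + 1))) ∨ g v = f v := by
    intro v
    by_cases h1 : f v ∈ Set.range ι
    · left
      obtain ⟨j, hj⟩ := h1
      refine ⟨j - 1, by rw [sub_add_cancel]; exact hj.symm, ?_⟩
      have e1 : σ⁻¹ (f v) = ι (j - 1) := by
        rw [Equiv.Perm.inv_eq_iff_eq, hσ1, sub_add_cancel]; exact hj.symm
      rw [hgv, e1, hσ2 _ (hnr _), hf.1]
    · right
      have e1 : σ⁻¹ (f v) = f v := by
        rw [Equiv.Perm.inv_eq_iff_eq, hσ2 _ h1]
      by_cases h2 : v ∈ Set.range ι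
      · left
        obtain ⟨i, rfl⟩ := h2
        exact ⟨i, rfl, by rw [hgv, e1, hf.1, hσ1]⟩
      · right
        rw [hgv, e1, hf.1, hσ2 v h2]
  refine ⟨g, ⟨?_, ?_⟩, ?_⟩
  · intro v
    have hFF : F * F = 1 := Equiv.ext fun v => hf.1 v
    have : g * g = 1 := by
      calc g * g = F * σ * (F * F) * (F * σ)⁻¹ := by
            change F * σ * F * (F * σ)⁻¹ * (F * σ * F * (F * σ)⁻¹) = _
            group
        _ = 1 := by rw [hFF]; group
    exact congrArg (fun e : Equiv.Perm V => e v) this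
  · intro v
    rcases hcase v with ⟨i, h1, h2⟩ | ⟨i, h1, h2⟩ | h
    · rw [h2]
      have := (harc i).1
      rw [← h1, hf.1] at this
      exact hs _ _ this
    · rw [h2, h1]
      exact (harc i).1
    · rw [h]
      exact hf.2 v
  · intro e
    have h0 := congrFun e (ι 0)
    rcases hcase (ι 0) with ⟨i, h1, -⟩ | ⟨i, h1, h2⟩ | h
    · exact hnr 0 ⟨i + 1, h1.symm⟩
    · rw [h2] at h0
      have hi0 := ι.injective h1
      subst hi0
      apply (harc 0).2
      rw [← hf.1 (ι (0 + 1)), h0, hf.1]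
    · have h2 : g (ι 0) = f (σ (ι 0)) := by
        rw [hgv]
        have e1 : σ⁻¹ (f (ι 0)) = f (ι 0) := by
          rw [Equiv.Perm.inv_eq_iff_eq, hσ2 _ (hnr 0)]
        rw [e1, hf.1]
      rw [h2, hσ1] at h0
      apply (harc 0).2
      rw [← hf.1 (ι (0 + 1)), h0, hf.1]

/-- A perfect matching is unique iff there is no regular cycle. -/
theorem unique_iff_noCyc {V : Type*} [Finite V] (adj : V → V → Prop) (hs : ∀ a b, adj a b → adj b a)
    (hi : ∀ a, ¬ adj a a) (f : V → V) (hf : IsPM adj f) :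
    (∀ g, IsPM adj g → g = f) ↔ (skewOf adj hs hi f hf).NoCyc := by
  constructor
  · intro h
    by_contra hC
    obtain ⟨g, hg, hne⟩ := cycle_exists_pm adj hs hi f hf hC
    exact hne (h g hg)
  · intro hN g hg
    by_contra hne
    exact pm_exists_cycle adj hs hi f hf g hg hne hN

private theorem toSub {V : Type*} (G : SimpleGraph V) (f : V → V) (hf : IsPM G.Adj f) :
    ∃ M : G.Subgraph, M.IsPerfectMatching ∧ ∀ a b, M.Adj a b ↔ f a = b := by
  refine ⟨⟨Set.univ, fun a b => f a = b, fun {a b} h => h ▸ hf.2 a, fun {a b} _ => trivial,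
    ⟨fun a b h => ?_⟩⟩, ⟨?_, ?_⟩, fun a b => Iff.rfl⟩
  · change f b = a
    rw [← (show f a = b from h), hf.1]
  · intro v _
    exact ⟨f v, rfl, fun w hw => (show f v = w from hw).symm⟩
  · intro v
    exact trivial

private theorem ofSub {V : Type*} (G : SimpleGraph V) (M : G.Subgraph)
    (hM : M.IsPerfectMatching) : ∃ f : V → V, IsPM G.Adj f ∧ ∀ a b, M.Adj a b ↔ f a = b := by
  classical
  have h1 : ∀ v, ∃! w, M.Adj v w := fun v => hM.1 (hM.2 v)
  choose f hf hfu using h1
  have h2 : ∀ a b, M.Adj a b ↔ f a = b := fun a b =>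
    ⟨fun h => (hfu a b h).symm, fun h => h ▸ hf a⟩
  refine ⟨f, ⟨fun v => ?_, fun v => M.adj_sub (hf v)⟩, h2⟩
  exact (h2 _ _).1 (hf v).symm

/-- Perfect matchings as subgraphs and as involutions. -/
theorem existsUnique_iff {V : Type*} (G : SimpleGraph V) :
    (∃! M : G.Subgraph, M.IsPerfectMatching) ↔ ∃! f : V → V, IsPM G.Adj f := by
  constructor
  · rintro ⟨M, hM, hu⟩
    obtain ⟨f, hf, hfM⟩ := ofSub G M hM
    refine ⟨f, hf, fun g hg => ?_⟩
    obtain ⟨M', hM', hgM⟩ := toSub G g hg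
    have e := hu M' hM'
    subst e
    funext a
    exact (hgM a (f a)).1 ((hfM a (f a)).2 rfl)
  · rintro ⟨f, hf, hu⟩
    obtain ⟨M, hM, hfM⟩ := toSub G f hf
    refine ⟨M, hM, fun M' hM' => ?_⟩
    obtain ⟨g, hg, hgM⟩ := ofSub G M' hM'
    have e := hu g hg
    subst e
    apply SimpleGraph.Subgraph.ext
    · rw [SimpleGraph.Subgraph.isSpanning_iff.1 hM'.2, SimpleGraph.Subgraph.isSpanning_iff.1 hM.2]
    · funext a b
      exact propext ((hgM a b).trans (hfM a b).symm)

end Pool.Agent.UPM
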