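import Mathlib

/-!
# Closure under binary rules in polylogarithmically many rounds
-/

set_option autoImplicit false

namespace Pool.Agent.UPM

variable {I : Type*}

/-- Derivations with `n` leaves. -/
inductive Der (ax : I → Prop) (rule : I → I → I → Prop) : I → ℕ → Prop
  | ax {a : I} (h : ax a) : Der ax rule a 1
  | rule {a b c : I} {m n : ℕ} (h : rule a b c) (hb : Der ax rule b m) (hc : Der ax rule c n) :
      Der ax rule a (m + n)

/-- Rounds of the closure: `(peb t).1` are the items realised, `(peb t).2 a b` means that `a` can be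
realised from `b`. -/
def peb (ax : I → Prop) (rule : I → I → I → Prop) : ℕ → (I → Prop) × (I → I → Prop)
  | 0 => (fun _ => False, fun _ _ => False)
  | t + 1 =>
    (fun a => (peb ax rule t).1 a ∨ ax a ∨
        (∃ b c, rule a b c ∧ (peb ax rule t).1 b ∧ (peb ax rule t).1 c) ∨
        ∃ b, (peb ax rule t).2 a b ∧ (peb ax rule t).1 b,
      fun a b => (peb ax rule t).2 a b ∨
        (∃ c, (rule a b c ∨ rule a c b) ∧ (peb ax rule t).1 c) ∨
        ∃ d, (peb ax rule t).2 a d ∧ (peb ax rule t).2 d b)

variable {ax : I → Prop} {rule : I → I → I → Prop}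

theorem peb_sound {RS : I → Prop} (hax : ∀ a, ax a → RS a)
    (hrule : ∀ a b c, rule a b c → RS b → RS c → RS a) (t : ℕ) :
    (∀ a, (peb ax rule t).1 a → RS a) ∧ (∀ a b, (peb ax rule t).2 a b → RS b → RS a) := by
  induction t with
  | zero => exact ⟨fun a h => h.elim, fun a b h => h.elim⟩
  | succ t ih =>
    obtain ⟨ih1, ih2⟩ := ih
    refine ⟨?_, ?_⟩
    · rintro a (h | h | ⟨b, c, h, hb, hc⟩ | ⟨b, h, hb⟩)
      · exact ih1 a h
      · exact hax a h
      · exact hrule a b c h (ih1 b hb) (ih1 c hc)
      · exact ih2 a b h (ih1 b hb)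
    · rintro a b (h | ⟨c, h | h, hc⟩ | ⟨d, h1, h2⟩) hb
      · exact ih2 a b h hb
      · exact hrule a b c h hb (ih1 c hc)
      · exact hrule a c b h (ih1 c hc) hb
      · exact ih2 a d h1 (ih2 d b h2 hb)

theorem peb_mono1 {t t' : ℕ} (h : t ≤ t') {a : I} (ha : (peb ax rule t).1 a) :
    (peb ax rule t').1 a := by
  induction h with
  | refl => exact ha
  | step _ ih => exact Or.inl ih

theorem peb_mono2 {t t' : ℕ} (h : t ≤ t') {a b : I} (ha : (peb ax rule t).2 a b) :
    (peb ax rule t').2 a b := by
  induction h with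
  | refl => exact ha
  | step _ ih => exact Or.inl ih

theorem Der.pos {a : I} {n : ℕ} (h : Der ax rule a n) : 1 ≤ n := by
  induction h with
  | ax _ => exact le_rfl
  | rule _ _ _ ih1 ih2 => omega

/-- The heavy path of a derivation. -/
theorem Der.heavy (N : ℕ) {a : I} {n : ℕ} (h : Der ax rule a n) : n ≤ 2 * N → N < n → 1 ≤ N →
    ∃ (f : ℕ → I) (len : ℕ), len < n ∧ f 0 = a ∧
      (∀ i, i < len → ∃ c n', (rule (f i) (f (i + 1)) c ∨ rule (f i) c (f (i + 1))) ∧ n' ≤ N ∧
        Der ax rule c n') ∧
      ∃ b c m' n', rule (f len) b c ∧ m' ≤ N ∧ n' ≤ N ∧ Der ax rule b m' ∧ Der ax rule c n' := by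
  induction h with
  | ax _ => intro _ h2 h3; omega
  | @rule a b c m n h hb hc ih1 ih2 =>
    intro h1 h2 h3
    have hm := hb.pos
    have hn := hc.pos
    by_cases hb' : N < m
    · obtain ⟨f, len, g1, g2, g3, g4⟩ := ih1 (by omega) hb' h3
      refine ⟨fun i => Nat.casesOn i a f, len + 1, by omega, rfl, ?_, g4⟩
      intro i hi
      cases i with
      | zero => exact ⟨c, n, Or.inl (by simpa [g2] using h), by omega, hc⟩
      | succ i => exact g3 i (by omega)
    · by_cases hc' : N < n
      · obtain ⟨f, len, g1, g2, g3, g4⟩ := ih2 (by omega) hc' h3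
        refine ⟨fun i => Nat.casesOn i a f, len + 1, by omega, rfl, ?_, g4⟩
        intro i hi
        cases i with
        | zero => exact ⟨b, m, Or.inr (by simpa [g2] using h), by omega, hb⟩
        | succ i => exact g3 i (by omega)
      · exact ⟨fun _ => a, 0, by omega, rfl, fun i hi => by omega,
          b, c, m, n, h, by omega, by omega, hb, hc⟩

theorem peb_chain {t : ℕ} {f : ℕ → I} {len : ℕ}
    (h : ∀ i, i < len → (peb ax rule t).2 (f i) (f (i + 1))) :
    ∀ j i i', i < i' → i' ≤ len → i' - i ≤ 2 ^ j → (peb ax rule (t + j)).2 (f i) (f i') := by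
  intro j
  induction j with
  | zero =>
    intro i i' h1 h2 h3
    have : i' = i + 1 := by simp at h3; omega
    subst this
    exact h i (by omega)
  | succ j ih =>
    intro i i' h1 h2 h3
    by_cases h4 : i' - i ≤ 2 ^ j
    · exact peb_mono2 (by omega) (ih i i' h1 h2 h4)
    · have h5 : 0 < 2 ^ j := by positivity
      rw [pow_succ] at h3
      right; right
      exact ⟨f (i + 2 ^ j), ih i (i + 2 ^ j) (by omega) (by omega) (by omega),
        ih (i + 2 ^ j) i' (by omega) h2 (by omega)⟩

/-- **Everything with a small derivation is realised early.** -/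
theorem peb_complete (K : ℕ) : ∀ k, k ≤ K → ∀ (a : I) (n : ℕ), Der ax rule a n → n ≤ 2 ^ k →
    (peb ax rule (1 + k * (K + 3))).1 a := by
  intro k
  induction k with
  | zero =>
    intro _ a n h hn
    cases h with
    | ax h =>
      have h1 : (peb ax rule 1).1 a := Or.inr (Or.inl h)
      exact peb_mono1 (by omega) h1
    | rule h hb hc =>
      have := hb.pos
      have := hc.pos
      simp at hn
      omega
  | succ k ih =>
    intro hk a n h hn
    have ih' := ih (by omega)
    by_cases h1 : n ≤ 2 ^ k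
    · refine peb_mono1 ?_ (ih' a n h h1)
      have : (k + 1) * (K + 3) = k * (K + 3) + (K + 3) := by ring
      omega
    · have hp : 1 ≤ 2 ^ k := Nat.one_le_two_pow
      have hn' : n ≤ 2 * 2 ^ k := by rw [pow_succ] at hn; omega
      obtain ⟨f, len, g1, g2, g3, b, c, m', n', g4, g5, g6, g7, g8⟩ :=
        h.heavy (2 ^ k) hn' (by omega) hp
      set t := 1 + k * (K + 3) with ht
      have hstep : ∀ i, i < len → (peb ax rule (t + 1)).2 (f i) (f (i + 1)) := by
        intro i hi
        obtain ⟨c', n'', h2, h3, h4⟩ := g3 i hi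
        exact Or.inr (Or.inl ⟨c', h2, ih' c' n'' h4 h3⟩)
      have hend : (peb ax rule (t + 1)).1 (f len) :=
        Or.inr (Or.inr (Or.inl ⟨b, c, g4, ih' b m' g7 g5, ih' c n' g8 g6⟩))
      have hK : len ≤ 2 ^ (k + 1) := by omega
      have hT : 1 + (k + 1) * (K + 3) = t + (K + 3) := by rw [ht]; ring
      rw [hT]
      by_cases h0 : len = 0
      · subst h0
        rw [g2] at hend
        exact peb_mono1 (by omega) hend
      · have h2 := peb_chain hstep (k + 1) 0 len (by omega) le_rfl (by omega)
        rw [g2] at h2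
        have h3 : (peb ax rule (t + 1 + (k + 1) + 1)).1 a :=
          Or.inr (Or.inr (Or.inr ⟨f len, h2, peb_mono1 (by omega) hend⟩))
        exact peb_mono1 (by omega) h3

end Pool.Agent.UPM
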