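import Mathlib
import Pool.Agent.UPM.Skew
import Pool.Agent.UPM.Pebble

/-!
# The doubling step
-/

set_option autoImplicit false

namespace Pool.Agent.UPM

/-- Items: `x`, `z` end points, `k` bound for the length, `c` bound for the interior nodes, `t` an
optional interior node to be visited. -/
structure Item (V : Type*) where
  x : V
  z : V
  k : ℕ
  c : V
  t : Option V

namespace Skew

variable {V : Type*} (S : Skew V)

/-- `v` is not on the edge of `s`. -/
def Avoid (s : Option V) (v : V) : Prop := ∀ u, s = some u → v ≠ u ∧ v ≠ S.m u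

/-- Items which are true. `le` is a relation comparing nodes. -/
def Real (le : V → V → Prop) (s : Option V) (a : Item V) : Prop :=
  ∃ (p : ℕ → V) (n : ℕ), 1 ≤ n ∧ n ≤ a.k ∧ S.Path p n ∧ p 0 = a.x ∧ p n = a.z ∧
    (∀ i, 0 < i → i < n → le a.c (p i)) ∧ (∀ i, i ≤ n → S.Avoid s (p i)) ∧
    ∀ t, a.t = some t → ∃ i, 0 < i ∧ i < n ∧ p i = t

/-- Axioms. -/
def axI (s : Option V) (a : Item V) : Prop :=
  S.arc a.x a.z ∧ 1 ≤ a.k ∧ S.Avoid s a.x ∧ S.Avoid s a.z ∧ a.t = none

/-- Rules. -/
def ruleI (le : V → V → Prop) (a b c : Item V) : Prop :=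
  a.z ≠ a.x ∧ a.z ≠ S.m a.x ∧ b.x = a.x ∧ c.z = a.z ∧ b.z = c.x ∧ b.c = c.x ∧ c.c = c.x ∧
    1 ≤ b.k ∧ 1 ≤ c.k ∧ b.k + c.k = a.k ∧ le a.c c.x ∧
    ((a.t = none ∧ b.t = none ∧ c.t = none) ∨
      ∃ t, a.t = some t ∧ ((t = c.x ∧ b.t = none ∧ c.t = none) ∨ (b.t = some t ∧ c.t = none) ∨
        (b.t = none ∧ c.t = some t)))

/-- `h` increases strictly along closed paths of length at most `ℓ`. -/
def Valid (lt : V → V → Prop) (ℓ : ℕ) : Prop := ∀ s t n, S.Closed s t n → n + 1 ≤ ℓ → lt s t

variable {S}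

/-- Comparison of nodes by means of a function into a linear order. -/
def hleOf {α : Type*} [LinearOrder α] (h : V → α) : V → V → Prop := fun c y => h c ≤ h y

theorem rule_sound {α : Type*} [LinearOrder α] (h : V → α) (hU : S.NoCyc) (hm : ∀ v, h (S.m v) = h v)
    {ℓ : ℕ} (hv : S.Valid (fun s t => h s < h t) ℓ) (s : Option V) {a b c : Item V}
    (hr : S.ruleI (hleOf h) a b c) (hk : a.k ≤ ℓ) (hb : S.Real (hleOf h) s b)
    (hc : S.Real (hleOf h) s c) : S.Real (hleOf h) s a := by
  obtain ⟨r1, r2, r3, r4, r5, r6, r7, r8, r9, r10, r11, r12⟩ := hr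
  obtain ⟨p, n, p1, p2, p3, p4, p5, p6, p7, p8⟩ := hb
  obtain ⟨q, l, q1, q2, q3, q4, q5, q6, q7, q8⟩ := hc
  have hpq : p n = q 0 := by rw [p5, q4, r5]
  have hnc : ∀ i j, i < n → 0 < j → j ≤ l → q j ≠ p i ∧ q j ≠ S.m (p i) := by
    by_contra hcon
    push Not at hcon
    obtain ⟨i, j, h1, h2, h3, h4⟩ := hcon
    obtain ⟨i, j, g1, g2, g3, g4, g5⟩ := clash_closed hU p3 q3 hpq ⟨i, j, h1, h2, h3, by
      by_cases e : q j = p i
      · exact Or.inl e
      · exact Or.inr (h4 e)⟩
    have hlt : h (p i) < h (p n) := hv _ _ _ g5 (by omega)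
    have hpn : h (p n) = h c.x := by rw [p5, r5]
    by_cases hi : i = 0
    · -- the conflict is at the first node
      by_cases hj : j = l
      · subst hi; subst hj
        rw [p4, q5, r4, r3] at g4
        exact r2 g4
      · have h5 := q6 j g2 (by omega)
        rw [r7] at h5
        have h6 : h (q j) = h (p i) := by rw [g4, hm]
        change h c.x ≤ h (q j) at h5
        rw [h6, ← hpn] at h5
        exact absurd hlt (not_lt.2 h5)
    · have h5 := p6 i (by omega) g1
      rw [r6] at h5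
      change h c.x ≤ h (p i) at h5
      rw [← hpn] at h5
      exact absurd hlt (not_lt.2 h5)
  have hpath := p3.glue q3 hpq hnc
  refine ⟨_, n + l, by omega, by omega, hpath, ?_, ?_, ?_, ?_, ?_⟩
  · rw [glue_le _ _ (Nat.zero_le _), p4, r3]
  · rw [glue_add _ _ hpq, q5, r4]
  · intro i hi hi'
    change h a.c ≤ _
    have r11' : h a.c ≤ h c.x := r11
    by_cases h1 : i ≤ n
    · rw [glue_le _ _ h1]
      by_cases h2 : i = n
      · subst h2; rw [p5, r5]; exact r11'
      · have := p6 i hi (by omega)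
        rw [r6] at this
        exact r11'.trans this
    · rw [glue_ge _ _ hpq (by omega)]
      have := q6 (i - n) (by omega) (by omega)
      rw [r7] at this
      exact r11'.trans this
  · intro i hi
    by_cases h1 : i ≤ n
    · rw [glue_le _ _ h1]; exact p7 i h1
    · rw [glue_ge _ _ hpq (by omega)]; exact q7 _ (by omega)
  · intro t ht
    rcases r12 with ⟨h1, _⟩ | ⟨t', h1, h2⟩
    · rw [h1] at ht; exact absurd ht (by simp)
    · rw [ht] at h1
      obtain rfl : t = t' := by simpa using h1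
      rcases h2 with ⟨h2, _⟩ | ⟨h2, _⟩ | ⟨_, h2⟩
      · exact ⟨n, by omega, by omega, by rw [glue_le _ _ le_rfl, p5, r5, h2]⟩
      · obtain ⟨i, h3, h4, h5⟩ := p8 t h2
        exact ⟨i, h3, by omega, by rw [glue_le _ _ h4.le, h5]⟩
      · obtain ⟨i, h3, h4, h5⟩ := q8 t h2
        exact ⟨n + i, by omega, by omega, by rw [glue_add _ _ hpq, h5]⟩

theorem real_der {α : Type*} [LinearOrder α] (h : V → α) (s : Option V) : ∀ (n : ℕ) (a : Item V)
    (p : ℕ → V), 1 ≤ n → n ≤ a.k → S.Path p n → p 0 = a.x → p n = a.z →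
    (∀ i, 0 < i → i < n → hleOf h a.c (p i)) → (∀ i, i ≤ n → S.Avoid s (p i)) →
    (∀ t, a.t = some t → ∃ i, 0 < i ∧ i < n ∧ p i = t) →
    Der (S.axI s) (S.ruleI (hleOf h)) a n := by
  intro n
  induction n using Nat.strong_induction_on with
  | _ n ih =>
    intro a p h1 h2 h3 h4 h5 h6 h7 h8
    by_cases hn : n = 1
    · subst hn
      refine Der.ax ⟨?_, h2, ?_, ?_, ?_⟩
      · rw [← h4, ← h5]; exact h3.1 0 (by omega)
      · rw [← h4]; exact h7 0 (by omega)
      · rw [← h5]; exact h7 1 le_rfl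
      · cases ht : a.t with
        | none => rfl
        | some t =>
          obtain ⟨i, g1, g2, _⟩ := h8 t ht
          omega
    · -- a minimal interior node
      obtain ⟨i₀, hi₀, hmin⟩ := Finset.exists_min_image (Finset.Ioo 0 n) (fun i => h (p i))
        ⟨1, by simp; omega⟩
      rw [Finset.mem_Ioo] at hi₀
      have hmin' : ∀ i, 0 < i → i < n → h (p i₀) ≤ h (p i) := fun i g1 g2 =>
        hmin i (Finset.mem_Ioo.2 ⟨g1, g2⟩)
      -- the marks
      obtain ⟨t1, t2, ht1, ht2, ht⟩ : ∃ t1 t2 : Option V,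
          (∀ t, t1 = some t → ∃ i, 0 < i ∧ i < i₀ ∧ p i = t) ∧
          (∀ t, t2 = some t → ∃ i, 0 < i ∧ i < n - i₀ ∧ p (i₀ + i) = t) ∧
          ((a.t = none ∧ t1 = none ∧ t2 = none) ∨
            ∃ t, a.t = some t ∧ ((t = p i₀ ∧ t1 = none ∧ t2 = none) ∨
              (t1 = some t ∧ t2 = none) ∨ (t1 = none ∧ t2 = some t))) := by
        cases ht : a.t with
        | none =>
          exact ⟨none, none, by simp, by simp, Or.inl ⟨rfl, rfl, rfl⟩⟩
        | some t =>
          obtain ⟨i, g1, g2, g3⟩ := h8 t ht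
          rcases lt_trichotomy i i₀ with hlt | heq | hgt
          · refine ⟨some t, none, ?_, by simp, Or.inr ⟨t, rfl, Or.inr (Or.inl ⟨rfl, rfl⟩)⟩⟩
            intro t' e
            obtain rfl : t = t' := by simpa using e
            exact ⟨i, g1, hlt, g3⟩
          · refine ⟨none, none, by simp, by simp, Or.inr ⟨t, rfl, Or.inl ⟨?_, rfl, rfl⟩⟩⟩
            rw [← g3, heq]
          · refine ⟨none, some t, by simp, ?_, Or.inr ⟨t, rfl, Or.inr (Or.inr ⟨rfl, rfl⟩)⟩⟩
            intro t' e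
            obtain rfl : t = t' := by simpa using e
            refine ⟨i - i₀, by omega, by omega, ?_⟩
            rw [← g3]; congr 1; omega
      have hb := ih i₀ (by omega) ⟨a.x, p i₀, i₀, p i₀, t1⟩ p (by omega) le_rfl
        (h3.mono (by omega)) h4 rfl (fun i g1 g2 => hmin' i g1 (by omega))
        (fun i g1 => h7 i (by omega)) ht1
      have hc := ih (n - i₀) (by omega) ⟨p i₀, a.z, a.k - i₀, p i₀, t2⟩ (fun i => p (i₀ + i))
        (by omega) (by change n - i₀ ≤ a.k - i₀; omega) (h3.sub i₀ (n - i₀) (by omega)) rfl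
        (by rw [← h5]; congr 1; omega)
        (fun i g1 g2 => hmin' (i₀ + i) (by omega) (by omega))
        (fun i g1 => h7 (i₀ + i) (by omega)) ht2
      have hx := h3.2 0 n (by omega) le_rfl
      rw [h4, h5] at hx
      have hr : S.ruleI (hleOf h) a ⟨a.x, p i₀, i₀, p i₀, t1⟩ ⟨p i₀, a.z, a.k - i₀, p i₀, t2⟩ :=
        ⟨hx.1, hx.2, rfl, rfl, rfl, rfl, rfl, by change 1 ≤ i₀; omega,
          by change 1 ≤ a.k - i₀; omega, by change i₀ + (a.k - i₀) = a.k; omega,
          h6 i₀ hi₀.1 hi₀.2, ht⟩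
      have := Der.rule hr hb hc
      have e : i₀ + (n - i₀) = n := by omega
      rwa [e] at this

/-- The closure. -/
def RR (S : Skew V) (le : V → V → Prop) (s : Option V) (T : ℕ) (a : Item V) : Prop :=
  (peb (S.axI s) (S.ruleI le) T).1 a

theorem RR_sound {α : Type*} [LinearOrder α] (h : V → α) (hU : S.NoCyc)
    (hm : ∀ v, h (S.m v) = h v) {ℓ : ℕ} (hv : S.Valid (fun s t => h s < h t) ℓ) (s : Option V)
    (T : ℕ) (a : Item V) (hk : a.k ≤ ℓ) (ha : S.RR (hleOf h) s T a) : S.Real (hleOf h) s a := by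
  refine (peb_sound (RS := fun a => a.k ≤ ℓ → S.Real (hleOf h) s a) ?_ ?_ T).1 a ha hk
  · rintro a ⟨h1, h2, h3, h4, h5⟩ _
    refine ⟨fun i => if i = 0 then a.x else a.z, 1, le_rfl, h2, ⟨?_, ?_⟩, by simp, by simp, ?_, ?_,
      ?_⟩
    · intro i hi
      have : i = 0 := by omega
      subst this
      simpa using h1
    · intro i j hij hj
      have e1 : i = 0 := by omega
      have e2 : j = 1 := by omega
      subst e1; subst e2
      simpa using ⟨S.ne _ _ h1, S.ne' _ _ h1⟩
    · intro i hi hi'; omega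
    · intro i hi
      rcases Nat.eq_zero_or_pos i with e | e
      · subst e; simpa using h3
      · have : i = 1 := by omega
        subst this; simpa using h4
    · intro t ht; rw [h5] at ht; exact absurd ht (by simp)
  · intro a b c hr hb hc hk
    have h1 := hr.2.2.2.2.2.2.2
    exact rule_sound h hU hm hv s hr hk (hb (by omega)) (hc (by omega))

theorem RR_complete {α : Type*} [LinearOrder α] (h : V → α) (s : Option V) {K T : ℕ}
    (hT : 1 + K * (K + 3) ≤ T) (a : Item V) (hk : a.k ≤ 2 ^ K) (ha : S.Real (hleOf h) s a) :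
    S.RR (hleOf h) s T a := by
  obtain ⟨p, n, p1, p2, p3, p4, p5, p6, p7, p8⟩ := ha
  have h1 := real_der h s n a p p1 p2 p3 p4 p5 p6 p7 p8
  exact peb_mono1 hT (peb_complete K K le_rfl a n h1 (by omega))

/-! ### The derived relations -/

section derived

variable (S) (R : Option V → Item V → Prop) (ℓ : ℕ)

/-- Reachability. -/
def rch (s : Option V) (x z : V) : Prop := ∃ c, R s ⟨x, z, ℓ, c, none⟩

/-- Reachability through `t`. -/
def thr (x t z : V) : Prop := ∃ c, R none ⟨x, z, ℓ, c, some t⟩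

/-- The bottleneck test. -/
def qq (x m : V) : Prop :=
  m ≠ x ∧ m ≠ S.m x ∧ rch R ℓ none x m ∧ rch R ℓ none x (S.m m) ∧
    ∀ s, s ≠ x → s ≠ S.m x → s ≠ m → s ≠ S.m m →
      rch R ℓ (some s) x m ∨ rch R ℓ (some s) x (S.m m)

/-- `t` is detected to be in the hull of `x`. -/
def ee (x t : V) : Prop := ∃ m, S.qq R ℓ x m ∧ (t = m ∨ thr R ℓ x t m ∨ thr R ℓ x (S.m t) m)

/-- The relation on edges. -/
def eE (x t : V) : Prop := S.ee R ℓ x t ∨ S.ee R ℓ (S.m x) t

end derived

/-- Rounds of transitive closure. -/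
def tcl (E : V → V → Prop) : ℕ → V → V → Prop
  | 0, x, y => E x y
  | i + 1, x, y => tcl E i x y ∨ ∃ z, tcl E i x z ∧ tcl E i z y

/-- Comparison of nodes by their sets of predecessors, in the colexicographic order. -/
def hlt [LinearOrder V] (D : V → V → Prop) (y c : V) : Prop :=
  ∃ a, D a c ∧ ¬ D a y ∧ ∀ b, D b y → ¬ D b c → b < a

/-- Comparison of nodes. -/
def hle [LinearOrder V] (D : V → V → Prop) (c y : V) : Prop := ¬ hlt D y c

theorem qq_mate {R : Option V → Item V → Prop} {ℓ : ℕ} {x m : V} (h : S.qq R ℓ x m) :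
    S.qq R ℓ x (S.m m) := by
  obtain ⟨h1, h2, h3, h4, h5⟩ := h
  refine ⟨fun e => h2 ?_, fun e => h1 (S.m_inj e), h4, by rwa [S.mm], ?_⟩
  · rw [← e, S.mm]
  · intro s g1 g2 g3 g4
    rw [S.mm] at g4 ⊢
    exact (h5 s g1 g2 g4 g3).symm

theorem ee_mate {R : Option V → Item V → Prop} {ℓ : ℕ} {x t : V} (h : S.ee R ℓ x t) :
    S.ee R ℓ x (S.m t) := by
  obtain ⟨m, h1, h2⟩ := h
  rcases h2 with rfl | h2 | h2
  · exact ⟨S.m t, qq_mate h1, Or.inl rfl⟩
  · exact ⟨m, h1, Or.inr (Or.inr (by rwa [S.mm]))⟩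
  · exact ⟨m, h1, Or.inr (Or.inl h2)⟩

theorem Real.rch {le : V → V → Prop} {s : Option V} {a : Item V} (h : S.Real le s a) :
    S.Rch a.x a.z := by
  obtain ⟨p, n, _, _, h3, h4, h5, _⟩ := h
  exact ⟨p, n, h3, h4, h5⟩

/-- **Soundness of the bottleneck test.** -/
theorem qq_sound [Finite V] (hU : S.NoCyc) {le : V → V → Prop} {R : Option V → Item V → Prop}
    {ℓ : ℕ} (hR : ∀ s a, a.k ≤ ℓ → R s a → S.Real le s a) {x m : V} (h : S.qq R ℓ x m) :
    m ∈ S.hull x := by
  obtain ⟨h1, h2, ⟨c3, h3⟩, ⟨c4, h4⟩, h5⟩ := h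
  by_contra hm
  obtain ⟨b, g1, g2, g3, g4, g5⟩ := bottleneck hU h1 (hR _ _ le_rfl h3).rch (hR _ _ le_rfl h4).rch hm
  rcases h5 b g1 g2 g3 g4 with ⟨c, h6⟩ | ⟨c, h6⟩
  · obtain ⟨p, n, _, _, p3, p4, p5, _, p7, _⟩ := hR _ _ le_rfl h6
    obtain ⟨i, hi, hi'⟩ := g5 p n p3 p4 (Or.inl p5)
    exact (p7 i hi b rfl).1 hi'
  · obtain ⟨p, n, _, _, p3, p4, p5, _, p7, _⟩ := hR _ _ le_rfl h6
    obtain ⟨i, hi, hi'⟩ := g5 p n p3 p4 (Or.inr p5)
    exact (p7 i hi b rfl).1 hi'

theorem ee_sound [Finite V] (hU : S.NoCyc) {le : V → V → Prop} {R : Option V → Item V → Prop}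
    {ℓ : ℕ} (hR : ∀ s a, a.k ≤ ℓ → R s a → S.Real le s a) {x t : V} (h : S.ee R ℓ x t) :
    t ∈ S.hull x := by
  obtain ⟨m, h1, h2⟩ := h
  have hm := qq_sound hU hR h1
  have key : ∀ t', thr R ℓ x t' m → t' ∈ S.hull x := by
    rintro t' ⟨c, h3⟩
    obtain ⟨p, n, _, _, p3, p4, p5, _, _, p8⟩ := hR _ _ le_rfl h3
    obtain ⟨i, g1, g2, g3⟩ := p8 t' rfl
    have hx : p 0 = x := p4
    have hmem : p n ∈ S.hull (p 0) := by rw [hx]; rw [show p n = m from p5]; exact hm
    have := stay p3 hmem i g1 g2.le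
    rwa [g3, hx] at this
  rcases h2 with rfl | h2 | h2
  · exact hm
  · exact key t h2
  · exact m_mem_hull.1 (key _ h2)

/-- **Completeness of the detection.** -/
theorem ee_complete {α : Type*} [LinearOrder α] (h : V → α) {R : Option V → Item V → Prop} {ℓ : ℕ}
    (hR : ∀ s a, a.k ≤ ℓ → S.Real (hleOf h) s a → R s a) {x t : V} {n : ℕ}
    (hc : S.Closed x t n) (hn : n + 1 ≤ 2 * ℓ) : S.ee R ℓ x t := by
  obtain ⟨p, hp, hp0, harc, j, hj, hjn, hpj⟩ := hc
  -- the two halves
  obtain ⟨i, hi, hin, hiℓ, hiℓ'⟩ : ∃ i, 0 < i ∧ i ≤ n ∧ i ≤ ℓ ∧ n + 1 - i ≤ ℓ :=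
    ⟨(n + 1) / 2, by omega, by omega, by omega, by omega⟩
  set q : ℕ → V := fun a => if a = 0 then x else S.m (p (n + 1 - a)) with hq
  have hq0 : q 0 = x := by rw [hq]; simp
  have hq' : ∀ a, 0 < a → q a = S.m (p (n + 1 - a)) := fun a ha => by
    rw [hq]; simp only; rw [if_neg (by omega)]
  have hqp : S.Path q n := by
    refine ⟨fun a ha => ?_, fun a b hab hb => ?_⟩
    · by_cases h0 : a = 0
      · subst h0
        rw [hq0, hq' 1 (by omega)]
        have := S.skew _ _ harc
        rw [S.mm] at this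
        simpa using this
      · rw [hq' a (by omega), hq' (a + 1) (by omega)]
        have := S.skew _ _ (hp.1 (n + 1 - (a + 1)) (by omega))
        have e2 : n + 1 - (a + 1) + 1 = n + 1 - a := by omega
        rwa [e2] at this
    · rw [hq' b (by omega)]
      by_cases h0 : a = 0
      · subst h0
        rw [hq0]
        have := hp.2 0 (n + 1 - b) (by omega) (by omega)
        rw [hp0] at this
        refine ⟨fun e => this.2 ?_, fun e => this.1 (S.m_inj e)⟩
        rw [← e, S.mm]
      · rw [hq' a (by omega)]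
        have := hp.ne_of (i := n + 1 - a) (j := n + 1 - b) (by omega) (by omega) (by omega)
        exact ⟨fun e => this.1 (S.m_inj e), fun e => this.2 (S.m_inj e)⟩
  -- reachability along a path
  have reach : ∀ (s : Option V) (r : ℕ → V) (l : ℕ), 1 ≤ l → l ≤ ℓ → S.Path r l → r 0 = x →
      (∀ a, a ≤ l → S.Avoid s (r a)) → rch R ℓ s x (r l) := by
    intro s r l hl hl' hr hr0 hs
    obtain ⟨c, hcmin⟩ : ∃ c, ∀ a, 0 < a → a < l → h c ≤ h (r a) := by
      by_cases h1 : l = 1
      · exact ⟨x, fun a _ _ => by omega⟩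
      · obtain ⟨a₀, _, hmin⟩ := Finset.exists_min_image (Finset.Ioo 0 l) (fun a => h (r a))
          ⟨1, by simp; omega⟩
        exact ⟨r a₀, fun a g1 g2 => hmin a (Finset.mem_Ioo.2 ⟨g1, g2⟩)⟩
    exact ⟨c, hR _ _ le_rfl ⟨r, l, hl, hl', hr, hr0, rfl, hcmin, hs, by simp⟩⟩
  have through : ∀ (r : ℕ → V) (l b : ℕ), l ≤ ℓ → S.Path r l → r 0 = x → 0 < b → b < l →
      thr R ℓ x (r b) (r l) := by
    intro r l b hl' hr hr0 hb hb'
    obtain ⟨a₀, _, hmin⟩ := Finset.exists_min_image (Finset.Ioo 0 l) (fun a => h (r a))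
          ⟨1, by simp; omega⟩
    refine ⟨r a₀, hR _ _ le_rfl ⟨r, l, by omega, hl', hr, hr0, rfl,
      fun a g1 g2 => hmin a (Finset.mem_Ioo.2 ⟨g1, g2⟩), by simp [Avoid], ?_⟩⟩
    intro t e
    obtain rfl : r b = t := by simpa using e
    exact ⟨b, hb, hb', rfl⟩
  have hav : ∀ v, S.Avoid none v := fun v u e => by simp at e
  have hqi : q (n + 1 - i) = S.m (p i) := by
    rw [hq' _ (by omega)]; congr 2; omega
  have hpi := hp.2 0 i hi hin
  rw [hp0] at hpi
  have hQ : S.qq R ℓ x (p i) := by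
    refine ⟨hpi.1, hpi.2, ?_, ?_, ?_⟩
    · exact reach none p i hi hiℓ (hp.mono hin) hp0 (fun a _ => hav _)
    · rw [← hqi]
      exact reach none q (n + 1 - i) (by omega) hiℓ' (hqp.mono (by omega)) hq0 (fun a _ => hav _)
    · intro s g1 g2 g3 g4
      by_cases hs : ∃ a, 0 < a ∧ a < i ∧ (p a = s ∨ p a = S.m s)
      · right
        obtain ⟨a, ha, hai, has⟩ := hs
        rw [← hqi]
        refine reach (some s) q (n + 1 - i) (by omega) hiℓ' (hqp.mono (by omega)) hq0 ?_
        intro b hb u hu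
        obtain rfl : s = u := by simpa using hu
        by_cases h0 : b = 0
        · subst h0
          rw [hq0]
          exact ⟨fun e => g1 e.symm, fun e => g2 (by rw [e, S.mm])⟩
        · rw [hq' b (by omega)]
          have := hp.2 a (n + 1 - b) (by omega) (by omega)
          rcases has with e | e
          · rw [e] at this
            exact ⟨fun e' => this.2 (by rw [← e', S.mm]), fun e' => this.1 (S.m_inj e')⟩
          · rw [e, S.mm] at this
            refine ⟨fun e' => this.1 ?_, fun e' => this.2 (S.m_inj e')⟩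
            rw [← e', S.mm]
      · left
        push Not at hs
        refine reach (some s) p i hi hiℓ (hp.mono hin) hp0 ?_
        intro b hb u hu
        obtain rfl : s = u := by simpa using hu
        by_cases h0 : b = 0
        · subst h0
          rw [hp0]
          exact ⟨fun e => g1 e.symm, fun e => g2 (by rw [e, S.mm])⟩
        · by_cases h1 : b = i
          · subst h1
            exact ⟨fun e => g3 e.symm, fun e => g4 (by rw [e, S.mm])⟩
          · exact hs b (by omega) (by omega)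
  rcases lt_trichotomy j i with hlt | heq | hgt
  · refine ⟨p i, hQ, Or.inr (Or.inl ?_)⟩
    rw [← hpj]
    exact through p i j hiℓ (hp.mono hin) hp0 hj hlt
  · exact ⟨p i, hQ, Or.inl (by rw [← hpj, heq])⟩
  · refine ⟨S.m (p i), qq_mate hQ, Or.inr (Or.inr ?_)⟩
    have hqj : q (n + 1 - j) = S.m t := by
      rw [hq' _ (by omega), ← hpj]; congr 2; omega
    rw [← hqj, ← hqi]
    exact through q (n + 1 - i) (n + 1 - j) hiℓ' (hqp.mono (by omega)) hq0 (by omega) (by omega)

/-! ### Transitive closure -/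

theorem tcl_mono {E : V → V → Prop} {i j : ℕ} (h : i ≤ j) {x y : V} (hx : tcl E i x y) :
    tcl E j x y := by
  induction h with
  | refl => exact hx
  | step _ ih => exact Or.inl ih

theorem tcl_sub {E P : V → V → Prop} (hE : ∀ x y, E x y → P x y)
    (hP : ∀ x y z, P x y → P y z → P x z) (i : ℕ) : ∀ x y, tcl E i x y → P x y := by
  induction i with
  | zero => exact hE
  | succ i ih =>
    rintro x y (h | ⟨z, h1, h2⟩)
    · exact ih x y h
    · exact hP x z y (ih x z h1) (ih z y h2)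

/-- Chains of a given length. -/
inductive Chn (E : V → V → Prop) : ℕ → V → V → Prop
  | one {x y : V} (h : E x y) : Chn E 1 x y
  | cons {n : ℕ} {x y z : V} (h : E x y) (h' : Chn E n y z) : Chn E (n + 1) x z

theorem Chn.pos {E : V → V → Prop} {n : ℕ} {x y : V} (h : Chn E n x y) : 1 ≤ n := by
  cases h <;> omega

theorem Chn.split {E : V → V → Prop} {n : ℕ} {x y : V} (h : Chn E n x y) : ∀ a, 0 < a → a < n →
    ∃ z, Chn E a x z ∧ Chn E (n - a) z y := by
  induction h with
  | one h => intro a h1 h2; omega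
  | @cons n x y z h h' ih =>
    intro a h1 h2
    by_cases ha : a = 1
    · subst ha
      exact ⟨y, Chn.one h, by simpa using h'⟩
    · obtain ⟨w, g1, g2⟩ := ih (a - 1) (by omega) (by omega)
      refine ⟨w, ?_, ?_⟩
      · have := Chn.cons h g1
        have e : a - 1 + 1 = a := by omega
        rwa [e] at this
      · have e : n - (a - 1) = n + 1 - a := by omega
        rwa [e] at g2

theorem Chn.append {E : V → V → Prop} {m n : ℕ} {x y z : V} (h : Chn E m x y)
    (h' : Chn E n y z) : Chn E (m + n) x z := by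
  induction h with
  | one h => rw [Nat.add_comm]; exact Chn.cons h h'
  | @cons m x y w h _ ih =>
    have := Chn.cons h (ih h')
    have e : m + n + 1 = m + 1 + n := by omega
    rwa [e] at this

theorem tcl_chn {E : V → V → Prop} (i : ℕ) : ∀ x y, tcl E i x y → ∃ n, Chn E n x y := by
  induction i with
  | zero => exact fun x y h => ⟨1, Chn.one h⟩
  | succ i ih =>
    rintro x y (h | ⟨z, h1, h2⟩)
    · exact ih x y h
    · obtain ⟨m, hm⟩ := ih x z h1
      obtain ⟨n, hn⟩ := ih z y h2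
      exact ⟨m + n, hm.append hn⟩

theorem chn_tcl {E : V → V → Prop} (i : ℕ) : ∀ n x y, Chn E n x y → n ≤ 2 ^ i → tcl E i x y := by
  induction i with
  | zero =>
    intro n x y h hn
    have := h.pos
    have hn1 : n = 1 := by simp at hn; omega
    subst hn1
    cases h with
    | one h => exact h
    | cons h h' => exact absurd h'.pos (by omega)
  | succ i ih =>
    intro n x y h hn
    by_cases h1 : n ≤ 2 ^ i
    · exact Or.inl (ih n x y h h1)
    · have hp : 0 < 2 ^ i := by positivity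
      obtain ⟨z, g1, g2⟩ := h.split (2 ^ i) hp (by omega)
      rw [pow_succ] at hn
      exact Or.inr ⟨z, ih _ _ _ g1 le_rfl, ih _ _ _ g2 (by omega)⟩

/-- Under a decreasing measure bounded by `N`, chains are short. -/
theorem Chn.short {E : V → V → Prop} (μ : V → ℕ) (hμ : ∀ x y, E x y → μ y < μ x) {n : ℕ} {x y : V}
    (h : Chn E n x y) : n + μ y ≤ μ x := by
  induction h with
  | one h => have := hμ _ _ h; omega
  | cons h _ ih => have := hμ _ _ h; omega

/-- The set of predecessors. -/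
noncomputable def pre [Fintype V] (D : V → V → Prop) (y : V) : Finset V := by
  classical exact Finset.univ.filter fun a => D a y

theorem mem_pre [Fintype V] {D : V → V → Prop} {a y : V} : a ∈ pre D y ↔ D a y := by
  classical
  unfold pre
  simp

theorem hle_eq [Fintype V] [LinearOrder V] (D : V → V → Prop) :
    hle D = hleOf fun y => toColex (pre D y) := by
  funext c y
  refine propext ?_
  change ¬ hlt D y c ↔ toColex (pre D c) ≤ toColex (pre D y)
  rw [← not_lt, Finset.Colex.toColex_lt_toColex_iff_exists_forall_lt]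
  simp only [mem_pre]
  rfl

/-- **The doubling theorem.** If `R` is correct for items of length at most `ℓ`, the relation
computed from it is valid for closed paths of length at most `2ℓ`. -/
theorem doubling [Fintype V] [LinearOrder V] {α : Type*} [LinearOrder α] (h : V → α)
    (hU : S.NoCyc) {R : Option V → Item V → Prop} {ℓ : ℕ}
    (hR : ∀ s a, a.k ≤ ℓ → (R s a ↔ S.Real (hleOf h) s a)) (K : ℕ) (hK : Fintype.card V ≤ 2 ^ K) :
    S.Valid (fun s t => toColex (pre (tcl (S.eE R ℓ) K) s) < toColex (pre (tcl (S.eE R ℓ) K) t))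
      (2 * ℓ) := by
  classical
  set E := S.eE R ℓ with hE
  -- the measure
  set H : V → Set V := fun x => S.hull x ∪ S.hull (S.m x) with hH
  have hEH : ∀ x y, E x y → y ∈ H x := by
    rintro x y (h1 | h1)
    · exact Or.inl (ee_sound hU (fun s a hk => (hR s a hk).1) h1)
    · exact Or.inr (ee_sound hU (fun s a hk => (hR s a hk).1) h1)
  have hHm : ∀ x y, y ∈ H x → S.m y ∈ H x := by
    rintro x y (h1 | h1)
    · exact Or.inl (m_mem_hull.2 h1)
    · exact Or.inr (m_mem_hull.2 h1)
  have hHsub : ∀ x y, y ∈ H x → H y ⊆ H x := by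
    rintro x y hy z hz
    have hy' := hHm x y hy
    rcases hz with hz | hz
    · rcases hy with hy | hy
      · exact Or.inl (hull_mono hU hy hz)
      · exact Or.inr (hull_mono hU hy hz)
    · rcases hy' with hy | hy
      · exact Or.inl (hull_mono hU hy hz)
      · exact Or.inr (hull_mono hU hy hz)
  have hself : ∀ x, x ∉ H x := by
    rintro x (h1 | h1)
    · exact self_notMem_hull x h1
    · apply self_notMem_hull (S := S) (S.m x)
      exact m_mem_hull.2 h1
  have hμ : ∀ x y, E x y → (H y).ncard < (H x).ncard := by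
    intro x y hxy
    have hy := hEH x y hxy
    refine Set.ncard_lt_ncard ⟨hHsub x y hy, fun hcon => hself y (hcon hy)⟩ (Set.toFinite _)
  have hcard : ∀ x, (H x).ncard ≤ Fintype.card V := by
    intro x
    have := Set.ncard_le_ncard (Set.subset_univ (H x)) (Set.toFinite _)
    rwa [Set.ncard_univ, Nat.card_eq_fintype_card] at this
  have htrans : ∀ x y z, tcl E K x y → tcl E K y z → tcl E K x z := by
    intro x y z h1 h2
    obtain ⟨m, hm⟩ := tcl_chn K x y h1
    obtain ⟨n, hn⟩ := tcl_chn K y z h2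
    have hc := hm.append hn
    refine chn_tcl K _ _ _ hc ?_
    have := hc.short (fun x => (H x).ncard) hμ
    have := hcard x
    omega
  have hirr : ∀ x, ¬ tcl E K x x := by
    intro x h1
    obtain ⟨n, hn⟩ := tcl_chn K x x h1
    have := hn.short (fun x => (H x).ncard) hμ
    have := hn.pos
    omega
  intro s t n hcl hn
  have hst : tcl E K s t := tcl_mono (Nat.zero_le K)
    (Or.inl (ee_complete h (fun s a hk => (hR s a hk).2) hcl hn) : E s t)
  refine Finset.Colex.toColex_lt_toColex_of_ssubset ?_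
  rw [Finset.ssubset_iff_of_subset]
  · exact ⟨s, mem_pre.2 hst, fun hs => hirr s (mem_pre.1 hs)⟩
  · intro a ha
    exact mem_pre.2 (htrans a s t (mem_pre.1 ha) hst)

theorem pre_mate [Fintype V] {R : Option V → Item V → Prop} {ℓ : ℕ} (K : ℕ) (y : V) :
    pre (tcl (S.eE R ℓ) K) (S.m y) = pre (tcl (S.eE R ℓ) K) y := by
  have key : ∀ i x y, tcl (S.eE R ℓ) i x y → tcl (S.eE R ℓ) i x (S.m y) := by
    intro i
    induction i with
    | zero =>
      rintro x y (h1 | h1)
      · exact Or.inl (ee_mate h1)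
      · exact Or.inr (ee_mate h1)
    | succ i ih =>
      rintro x y (h1 | ⟨z, h1, h2⟩)
      · exact Or.inl (ih x y h1)
      · exact Or.inr ⟨z, h1, ih z y h2⟩
  ext a
  rw [mem_pre, mem_pre]
  constructor
  · intro h1
    have := key K a _ h1
    rwa [S.mm] at this
  · exact key K a y

end Skew

end Pool.Agent.UPM
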