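import Mathlib
import Pool.Agent.UPM.Double

/-!
# The algorithm and its correctness
-/

set_option autoImplicit false

namespace Pool.Agent.UPM

namespace Skew

variable {V : Type*} [LinearOrder V] (S : Skew V)

/-- The relation computed for the length `L`. -/
def algD (K T : ℕ) (L : ℕ) : V → V → Prop :=
  if _h : L ≤ 1 then fun _ _ => False
  else tcl (S.eE (fun s a => S.RR (hle (algD K T ((L + 1) / 2))) s T a) ((L + 1) / 2)) K
  termination_by L
  decreasing_by omega

/-- The closure at stage `L`. -/
def algR (K T L : ℕ) (s : Option V) (a : Item V) : Prop := S.RR (hle (S.algD K T L)) s T a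

theorem algD_le (K T : ℕ) {L : ℕ} (h : L ≤ 1) : S.algD K T L = fun _ _ => False := by
  rw [algD, dif_pos h]

theorem algD_gt (K T : ℕ) {L : ℕ} (h : 1 < L) :
    S.algD K T L = tcl (S.eE (S.algR K T ((L + 1) / 2)) ((L + 1) / 2)) K := by
  rw [algD, dif_neg (by omega)]
  rfl

/-- The final test. -/
def Accept (K T n : ℕ) : Prop :=
  ∀ y a b, S.arc y a → S.arc b y → a ≠ b ∧ ¬ rch (S.algR K T n) n (some y) a b

variable {S}

theorem algD_mate [Fintype V] (K T L : ℕ) (y : V) :
    pre (S.algD K T L) (S.m y) = pre (S.algD K T L) y := by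
  by_cases h : L ≤ 1
  · rw [algD_le _ _ _ h]
    ext a
    rw [mem_pre, mem_pre]
  · rw [algD_gt _ _ _ (by omega)]
    exact pre_mate K y

theorem algR_sound [Fintype V] (hU : S.NoCyc) {K T L : ℕ}
    (hv : S.Valid (fun s t => toColex (pre (S.algD K T L) s) < toColex (pre (S.algD K T L) t)) L)
    (s : Option V) (a : Item V) (hk : a.k ≤ L) (ha : S.algR K T L s a) :
    S.Real (hleOf fun y => toColex (pre (S.algD K T L) y)) s a := by
  unfold algR at ha
  rw [hle_eq] at ha
  refine RR_sound _ hU ?_ hv s T a hk ha
  intro v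

  rw [algD_mate]

theorem algR_complete [Fintype V] {K T L : ℕ} (hT : 1 + K * (K + 3) ≤ T)
    (s : Option V) (a : Item V) (hk : a.k ≤ 2 ^ K)
    (ha : S.Real (hleOf fun y => toColex (pre (S.algD K T L) y)) s a) : S.algR K T L s a := by
  unfold algR
  rw [hle_eq]
  exact RR_complete _ s hT a hk ha

theorem algD_valid [Fintype V] (hU : S.NoCyc) {K T : ℕ} (hK : Fintype.card V ≤ 2 ^ K)
    (hT : 1 + K * (K + 3) ≤ T) (L : ℕ) : L ≤ 2 ^ K →
    S.Valid (fun s t => toColex (pre (S.algD K T L) s) < toColex (pre (S.algD K T L) t)) L := by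
  induction L using Nat.strong_induction_on with
  | _ L ih =>
    intro hL
    by_cases h : L ≤ 1
    · intro s t n hc hn
      obtain ⟨p, _, _, _, i, h1, h2, _⟩ := hc
      omega
    · have hv := ih ((L + 1) / 2) (by omega) (by omega)
      have hR : ∀ s a, a.k ≤ (L + 1) / 2 → (S.algR K T ((L + 1) / 2) s a ↔
          S.Real (hleOf fun y => toColex (pre (S.algD K T ((L + 1) / 2)) y)) s a) :=
        fun s a hk => ⟨algR_sound hU hv s a hk, algR_complete hT s a (by omega)⟩
      have h2 := doubling _ hU hR K hK
      intro s t n hc hn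
      rw [algD_gt _ _ _ (by omega)]
      exact h2 s t n hc (by omega)

/-- **Correctness of the algorithm.** -/
theorem accept_iff [Fintype V] {K T n : ℕ} (hK : n ≤ 2 ^ K) (hn : Fintype.card V ≤ n)
    (hT : 1 + K * (K + 3) ≤ T) : S.Accept K T n ↔ S.NoCyc := by
  constructor
  · rintro hA ⟨p, k, hk, hp, hc⟩
    obtain ⟨h1, h2⟩ := hA (p 0) (p 1) (p k) (hp.1 0 (by omega)) hc
    have hk2 : 2 ≤ k := by
      by_contra h
      have : k = 1 := by omega
      subst this
      exact h1 rfl
    apply h2
    have hcard : k + 1 ≤ Fintype.card V := by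
      have hinj : Function.Injective (fun i : Fin (k + 1) => p i) := by
        intro i j hij
        by_contra hne
        have hne' : (i : ℕ) ≠ j := fun e => hne (Fin.ext e)
        exact (hp.ne_of hne' (by omega) (by omega)).1 hij.symm
      have := Fintype.card_le_of_injective _ hinj
      simpa using this
    set h : V → Colex (Finset V) := fun y => toColex (pre (S.algD K T n) y) with hh
    obtain ⟨c, hc⟩ : ∃ c, ∀ i, 0 < i → i < k - 1 → h c ≤ h (p (1 + i)) := by
      by_cases h3 : k - 1 = 1
      · exact ⟨p 0, fun i _ _ => by omega⟩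
      · obtain ⟨a₀, _, hmin⟩ := Finset.exists_min_image (Finset.Ioo 0 (k - 1))
          (fun i => h (p (1 + i))) ⟨1, by simp; omega⟩
        exact ⟨p (1 + a₀), fun i g1 g2 => hmin i (Finset.mem_Ioo.2 ⟨g1, g2⟩)⟩
    refine ⟨c, algR_complete hT _ _ hK ⟨fun i => p (1 + i), k - 1, by omega, ?_, ?_, rfl, ?_, hc,
      ?_, by simp⟩⟩
    · change k - 1 ≤ n; omega
    · exact hp.sub 1 (k - 1) (by omega)
    · change p (1 + (k - 1)) = p k
      congr 1; omega
    · intro i hi u hu
      obtain rfl : p 0 = u := by simpa using hu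
      exact hp.2 0 (1 + i) (by omega) (by omega)
  · intro hU y a b hya hby
    refine ⟨?_, ?_⟩
    · rintro rfl
      apply hU
      refine ⟨fun i => if i = 0 then y else a, 1, le_rfl, ⟨?_, ?_⟩, by simpa using hby⟩
      · intro i hi
        have : i = 0 := by omega
        subst this
        simpa using hya
      · intro i j hij hj
        have e1 : i = 0 := by omega
        have e2 : j = 1 := by omega
        subst e1; subst e2
        simpa using ⟨S.ne _ _ hya, S.ne' _ _ hya⟩
    · rintro ⟨c, hR⟩
      obtain ⟨p, m, p1, p2, p3, p4, p5, _, p7, _⟩ := algR_sound hU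
        (algD_valid hU (hn.trans hK) hT n hK) _ _ le_rfl hR
      apply hU
      refine ⟨fun i => if i = 0 then y else p (i - 1), m + 1, by omega, ⟨?_, ?_⟩, ?_⟩
      · intro i hi
        by_cases h0 : i = 0
        · subst h0
          simp only [if_true, Nat.zero_add, one_ne_zero, if_false, Nat.sub_self]
          rw [p4]; exact hya
        · have e : i + 1 - 1 = (i - 1) + 1 := by omega
          simp only [h0, if_false, Nat.succ_ne_zero]
          rw [e]
          exact p3.1 (i - 1) (by omega)
      · intro i j hij hj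
        have hj0 : j ≠ 0 := by omega
        by_cases h0 : i = 0
        · subst h0
          simp only [if_true, hj0, if_false]
          exact p7 (j - 1) (by omega) y rfl
        · simp only [h0, hj0, if_false]
          exact p3.2 (i - 1) (j - 1) (by omega) (by omega)
      · simp only [Nat.succ_ne_zero, if_false, if_true, Nat.add_sub_cancel]
        rw [p5]; exact hby

end Skew

end Pool.Agent.UPM
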