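import Mathlib
import Pool.Agent.NC.FO

/-!
# The system of formulas
-/

set_option autoImplicit false

namespace Pool.Agent.UPM

open Pool.Agent.NC

/-! ### Parameters -/

/-- Number of nodes. -/
def nn (N : ℕ) : ℕ := Nat.sqrt N

/-- Number of levels. -/
def kk (N : ℕ) : ℕ := Nat.log 2 N + 1

/-- Number of rounds. -/
def tt (N : ℕ) : ℕ := 1 + kk N * (kk N + 3)

/-! ### Formulas -/

section

variable (N : ℕ) (w : List Bool) (F : Itp)

/-- Adjacency. -/
def adjW (u v : ℕ) : Prop := w.getD (u * nn N + v) false = true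

/-- Entries of the matrix `del A u v`. -/
def delF (u v x y : ℕ) : Prop :=
  ((x = u ∨ x = v ∨ y = u ∨ y = v) ∧ x = y) ∨
    (¬ (x = u ∨ x = v ∨ y = u ∨ y = v) ∧ adjW N w x y)

/-- Powers. -/
def powF (u v i k x y : ℕ) : Prop :=
  (k = 0 ∧ x = y) ∨ (k = 1 ∧ delF N w u v x y) ∨
    (2 ≤ k ∧ Par i fun z => F 1 (vec [u, v, i, k / 2, x, z]) ∧ F 1 (vec [u, v, i, k - k / 2, z, y]))

/-- Products. -/
def prodF (u v len lo k : ℕ) : Prop :=
  (len = 0 ∧ k = 0) ∨ (len = 1 ∧ F 1 (vec [u, v, lo + 1, k, lo, lo])) ∨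
    (2 ≤ len ∧ Par (k + 1) fun j => F 2 (vec [u, v, len / 2, lo, j]) ∧
      F 2 (vec [u, v, len - len / 2, lo + len / 2, k - j]))

/-- Inverses. -/
def invF (u v q k : ℕ) : Prop :=
  ((q = 0 ∨ k < q) ∧ k = 0) ∨
    (¬ (q = 0 ∨ k < q) ∧ Par (k + 1) fun j => j % q = 0 ∧ F 2 (vec [u, v, nn N, 0, j / q]) ∧
      F 3 (vec [u, v, 2 * q, k - j]))

/-- The perfect matching. -/
def mateF (u v : ℕ) : Prop := adjW N w u v ∧ F 3 (vec [u, v, 1, nn N])

/-- Arcs. -/
def arcF (a b : ℕ) : Prop := ¬ b = a ∧ ∃ c, c < nn N ∧ mateF N w F b c ∧ adjW N w a c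

/-- `v` is not on the edge of `s`. -/
def avoidF (s v : ℕ) : Prop := s < nn N → ¬ v = s ∧ ¬ mateF N w F s v

end

/-- Items with numbers. -/
structure It where
  x : ℕ
  z : ℕ
  k : ℕ
  c : ℕ
  t : ℕ

section

variable (N : ℕ) (w : List Bool) (F : Itp)

/-- Axioms. -/
def axF (s : ℕ) (a : It) : Prop :=
  arcF N w F a.x a.z ∧ 1 ≤ a.k ∧ avoidF N w F s a.x ∧ avoidF N w F s a.z ∧ a.t = nn N

/-- The relation at length `L`. -/
def dF (L a b : ℕ) : Prop := 1 < L ∧ F 6 (vec [L, kk N, a, b])

/-- Comparison. -/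
def ltF (L y c : ℕ) : Prop :=
  ∃ a, a < nn N ∧ dF N F L a c ∧ ¬ dF N F L a y ∧ ∀ b, b < nn N → dF N F L b y → ¬ dF N F L b c → b < a

/-- Rules. -/
def ruleF (L : ℕ) (a b c : It) : Prop :=
  ¬ a.z = a.x ∧ ¬ mateF N w F a.x a.z ∧ b.x = a.x ∧ c.z = a.z ∧ b.z = c.x ∧ b.c = c.x ∧ c.c = c.x ∧
    1 ≤ b.k ∧ 1 ≤ c.k ∧ b.k + c.k = a.k ∧ ¬ ltF N F L c.x a.c ∧
    ((a.t = nn N ∧ b.t = nn N ∧ c.t = nn N) ∨
      (¬ a.t = nn N ∧ ((a.t = c.x ∧ b.t = nn N ∧ c.t = nn N) ∨ (b.t = a.t ∧ c.t = nn N) ∨
        (b.t = nn N ∧ c.t = a.t))))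

/-- Bounded quantifier over items. -/
def exIt (n k : ℕ) (P : It → Prop) : Prop :=
  ∃ x, x < n ∧ ∃ z, z < n ∧ ∃ l, l < k + 1 ∧ ∃ c, c < n ∧ ∃ t, t < n + 1 ∧ P ⟨x, z, l, c, t⟩

/-- Atom of the closure. -/
def rA (L τ s : ℕ) (a : It) : Prop := F 4 (vec [L, τ, s, a.x, a.z, a.k, a.c, a.t])

/-- Atom of the implications. -/
def pA (L τ s : ℕ) (a b : It) : Prop :=
  F 5 (vec [L, τ, s, a.x, a.z, a.k, a.c, a.t, b.x, b.z, b.k, b.c, b.t])

/-- The closure. -/
def rF (L τ s : ℕ) (a : It) : Prop :=
  1 ≤ τ ∧ (rA F L (τ - 1) s a ∨ axF N w F s a ∨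
    (exIt (nn N) a.k fun b => exIt (nn N) a.k fun c =>
      ruleF N w F L a b c ∧ rA F L (τ - 1) s b ∧ rA F L (τ - 1) s c) ∨
    exIt (nn N) a.k fun b => pA F L (τ - 1) s a b ∧ rA F L (τ - 1) s b)

/-- The implications. -/
def pF (L τ s : ℕ) (a b : It) : Prop :=
  1 ≤ τ ∧ (pA F L (τ - 1) s a b ∨
    (exIt (nn N) a.k fun c => (ruleF N w F L a b c ∨ ruleF N w F L a c b) ∧ rA F L (τ - 1) s c) ∨
    exIt (nn N) a.k fun d => pA F L (τ - 1) s a d ∧ pA F L (τ - 1) s d b)

/-- Reachability. -/
def rchF (l s x z : ℕ) : Prop := ∃ c, c < nn N ∧ rA F l (tt N) s ⟨x, z, l, c, nn N⟩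

/-- Reachability through `t`. -/
def thrF (l x t z : ℕ) : Prop := ∃ c, c < nn N ∧ rA F l (tt N) (nn N) ⟨x, z, l, c, t⟩

/-- The bottleneck test. -/
def qqF (l x m : ℕ) : Prop :=
  ¬ m = x ∧ ¬ mateF N w F x m ∧ rchF N F l (nn N) x m ∧
    (∃ m', m' < nn N ∧ mateF N w F m m' ∧ rchF N F l (nn N) x m') ∧
    ∀ s, s < nn N → ¬ s = x → ¬ mateF N w F x s → ¬ s = m → ¬ mateF N w F m s →
      (rchF N F l s x m ∨ ∃ m', m' < nn N ∧ mateF N w F m m' ∧ rchF N F l s x m')

/-- Detection of hulls. -/
def eeF (l x t : ℕ) : Prop :=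
  ∃ m, m < nn N ∧ qqF N w F l x m ∧
    (t = m ∨ thrF N F l x t m ∨ ∃ t', t' < nn N ∧ mateF N w F t t' ∧ thrF N F l x t' m)

/-- The relation on edges. -/
def eEF (l x t : ℕ) : Prop :=
  eeF N w F l x t ∨ ∃ x', x' < nn N ∧ mateF N w F x x' ∧ eeF N w F l x' t

/-- Transitive closure. -/
def tclF (L i x y : ℕ) : Prop :=
  (i = 0 ∧ eEF N w F ((L + 1) / 2) x y) ∨
    (1 ≤ i ∧ (F 6 (vec [L, i - 1, x, y]) ∨
      ∃ z, z < nn N ∧ F 6 (vec [L, i - 1, x, z]) ∧ F 6 (vec [L, i - 1, z, y])))

/-- The output. -/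
def outF : Prop :=
  nn N * nn N = N ∧
    (∀ u, u < nn N → ∀ v, v < nn N → adjW N w u v → adjW N w v u) ∧
    (∀ u, u < nn N → ¬ adjW N w u u) ∧
    (∀ u, u < nn N → ∃ v, v < nn N ∧ mateF N w F u v ∧ mateF N w F v u ∧
      ∀ v', v' < nn N → mateF N w F u v' → v' = v) ∧
    ∀ y, y < nn N → ∀ a, a < nn N → ∀ b, b < nn N → arcF N w F y a → arcF N w F b y →
      ¬ a = b ∧ ¬ rchF N F (nn N) y a b

end

/-- The system. -/
def sys (i : ℕ) (w : List Bool) (F : Itp) (e : ℕ → ℕ) : Prop :=
  match i with
  | 0 => outF w.length w F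
  | 1 => powF w.length w F (e 0) (e 1) (e 2) (e 3) (e 4) (e 5)
  | 2 => prodF F (e 0) (e 1) (e 2) (e 3) (e 4)
  | 3 => invF w.length F (e 0) (e 1) (e 2) (e 3)
  | 4 => rF w.length w F (e 0) (e 1) (e 2) ⟨e 3, e 4, e 5, e 6, e 7⟩
  | 5 => pF w.length w F (e 0) (e 1) (e 2) ⟨e 3, e 4, e 5, e 6, e 7⟩ ⟨e 8, e 9, e 10, e 11, e 12⟩
  | 6 => tclF w.length w F (e 0) (e 1) (e 2) (e 3)
  | _ => False

/-! ### Definability -/

theorem NF.nn {f : ℕ → (ℕ → ℕ) → ℕ} (hf : NF f) : NF fun N e => UPM.nn (f N e) := NF.sqrt hf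

theorem NF.kk {f : ℕ → (ℕ → ℕ) → ℕ} (hf : NF f) : NF fun N e => UPM.kk (f N e) :=
  (NF.log hf).add (NF.const 1)

theorem NF.tt {f : ℕ → (ℕ → ℕ) → ℕ} (hf : NF f) : NF fun N e => UPM.tt (f N e) :=
  (NF.const 1).add ((NF.kk hf).mul ((NF.kk hf).add (NF.const 3)))

theorem FO.exIt {n k : ℕ → (ℕ → ℕ) → ℕ} {Φ : ℕ → List Bool → Itp → (ℕ → ℕ) → It → Prop}
    (hn : NF n) (hk : NF k)
    (h : FO fun N w F e => Φ N w F (fun i => e (i + 5)) ⟨e 4, e 3, e 2, e 1, e 0⟩) :
    FO fun N w F e => UPM.exIt (n N e) (k N e) fun a => Φ N w F e a := by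
  unfold UPM.exIt
  refine FO.ex hn (FO.ex (NF.ren (fun i => i + 1) hn) (FO.ex
    (NF.add (NF.ren (fun i => i + 2) hk) (NF.const 1)) (FO.ex (NF.ren (fun i => i + 3) hn)
    (FO.ex (NF.add (NF.ren (fun i => i + 4) hn) (NF.const 1)) h))))

section

variable {a b c d f g h k l m n r s t u v : ℕ → (ℕ → ℕ) → ℕ}

theorem fo_adj (ha : NF a) (hb : NF b) : FO fun N w _ e => adjW N w (a N e) (b N e) := by
  have h : FO fun N w _ e => adjW N w (e 0) (e 1) := by
    unfold adjW
    repeat' with_reducible first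
      | assumption | exact NF.var _ | exact NF.const _ | exact NF.len | apply NF.nn | apply NF.kk
      | apply NF.tt | apply NF.add | apply NF.sub | apply NF.mul | apply NF.div | apply NF.mod
      | apply NL.cons | exact NL.nil | apply FO.and | apply FO.or | apply FO.not | apply FO.imp
      | apply FO.ex | apply FO.all | apply FO.par | apply FO.exIt | apply FO.rel | apply FO.inp
      | apply FO.le | apply FO.lt | apply FO.eq | dsimp only
  exact h.app (NL.cons ha (NL.cons hb NL.nil))

theorem fo_del (ha : NF a) (hb : NF b) (hc : NF c) (hd : NF d) :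
    FO fun N w _ e => delF N w (a N e) (b N e) (c N e) (d N e) := by
  have h : FO fun N w _ e => delF N w (e 0) (e 1) (e 2) (e 3) := by
    unfold delF
    repeat' with_reducible first
      | apply fo_adj
      | assumption | exact NF.var _ | exact NF.const _ | exact NF.len | apply NF.nn | apply NF.kk
      | apply NF.tt | apply NF.add | apply NF.sub | apply NF.mul | apply NF.div | apply NF.mod
      | apply NL.cons | exact NL.nil | apply FO.and | apply FO.or | apply FO.not | apply FO.imp
      | apply FO.ex | apply FO.all | apply FO.par | apply FO.exIt | apply FO.rel | apply FO.inp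
      | apply FO.le | apply FO.lt | apply FO.eq | dsimp only
  exact h.app (NL.cons ha (NL.cons hb (NL.cons hc (NL.cons hd NL.nil))))

theorem fo_mate (ha : NF a) (hb : NF b) : FO fun N w F e => mateF N w F (a N e) (b N e) := by
  have h : FO fun N w F e => mateF N w F (e 0) (e 1) := by
    unfold mateF
    repeat' with_reducible first
      | apply fo_adj
      | assumption | exact NF.var _ | exact NF.const _ | exact NF.len | apply NF.nn | apply NF.kk
      | apply NF.tt | apply NF.add | apply NF.sub | apply NF.mul | apply NF.div | apply NF.mod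
      | apply NL.cons | exact NL.nil | apply FO.and | apply FO.or | apply FO.not | apply FO.imp
      | apply FO.ex | apply FO.all | apply FO.par | apply FO.exIt | apply FO.rel | apply FO.inp
      | apply FO.le | apply FO.lt | apply FO.eq | dsimp only
  exact h.app (NL.cons ha (NL.cons hb NL.nil))

theorem fo_arc (ha : NF a) (hb : NF b) : FO fun N w F e => arcF N w F (a N e) (b N e) := by
  have h : FO fun N w F e => arcF N w F (e 0) (e 1) := by
    unfold arcF
    repeat' with_reducible first
      | apply fo_adj | apply fo_mate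
      | assumption | exact NF.var _ | exact NF.const _ | exact NF.len | apply NF.nn | apply NF.kk
      | apply NF.tt | apply NF.add | apply NF.sub | apply NF.mul | apply NF.div | apply NF.mod
      | apply NL.cons | exact NL.nil | apply FO.and | apply FO.or | apply FO.not | apply FO.imp
      | apply FO.ex | apply FO.all | apply FO.par | apply FO.exIt | apply FO.rel | apply FO.inp
      | apply FO.le | apply FO.lt | apply FO.eq | dsimp only
  exact h.app (NL.cons ha (NL.cons hb NL.nil))

theorem fo_avoid (ha : NF a) (hb : NF b) : FO fun N w F e => avoidF N w F (a N e) (b N e) := by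
  have h : FO fun N w F e => avoidF N w F (e 0) (e 1) := by
    unfold avoidF
    repeat' with_reducible first
      | apply fo_adj | apply fo_mate
      | assumption | exact NF.var _ | exact NF.const _ | exact NF.len | apply NF.nn | apply NF.kk
      | apply NF.tt | apply NF.add | apply NF.sub | apply NF.mul | apply NF.div | apply NF.mod
      | apply NL.cons | exact NL.nil | apply FO.and | apply FO.or | apply FO.not | apply FO.imp
      | apply FO.ex | apply FO.all | apply FO.par | apply FO.exIt | apply FO.rel | apply FO.inp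
      | apply FO.le | apply FO.lt | apply FO.eq | dsimp only
  exact h.app (NL.cons ha (NL.cons hb NL.nil))

theorem fo_ax (hs : NF s) (ha : NF a) (hb : NF b) (hk : NF k) (hc : NF c) (ht : NF t) :
    FO fun N w F e => axF N w F (s N e) ⟨a N e, b N e, k N e, c N e, t N e⟩ := by
  have h : FO fun N w F e => axF N w F (e 0) ⟨e 1, e 2, e 3, e 4, e 5⟩ := by
    unfold axF
    repeat' with_reducible first
      | apply fo_arc | apply fo_avoid
      | assumption | exact NF.var _ | exact NF.const _ | exact NF.len | apply NF.nn | apply NF.kk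
      | apply NF.tt | apply NF.add | apply NF.sub | apply NF.mul | apply NF.div | apply NF.mod
      | apply NL.cons | exact NL.nil | apply FO.and | apply FO.or | apply FO.not | apply FO.imp
      | apply FO.ex | apply FO.all | apply FO.par | apply FO.exIt | apply FO.rel | apply FO.inp
      | apply FO.le | apply FO.lt | apply FO.eq | dsimp only
  exact h.app (NL.cons hs (NL.cons ha (NL.cons hb (NL.cons hk (NL.cons hc (NL.cons ht NL.nil))))))

theorem fo_d (hl : NF l) (ha : NF a) (hb : NF b) :
    FO fun N _ F e => dF N F (l N e) (a N e) (b N e) := by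
  have h : FO fun N _ F e => dF N F (e 0) (e 1) (e 2) := by
    unfold dF
    repeat' with_reducible first
      | assumption | exact NF.var _ | exact NF.const _ | exact NF.len | apply NF.nn | apply NF.kk
      | apply NF.tt | apply NF.add | apply NF.sub | apply NF.mul | apply NF.div | apply NF.mod
      | apply NL.cons | exact NL.nil | apply FO.and | apply FO.or | apply FO.not | apply FO.imp
      | apply FO.ex | apply FO.all | apply FO.par | apply FO.exIt | apply FO.rel | apply FO.inp
      | apply FO.le | apply FO.lt | apply FO.eq | dsimp only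
  exact h.app (NL.cons hl (NL.cons ha (NL.cons hb NL.nil)))

theorem fo_lt (hl : NF l) (ha : NF a) (hb : NF b) :
    FO fun N _ F e => ltF N F (l N e) (a N e) (b N e) := by
  have h : FO fun N _ F e => ltF N F (e 0) (e 1) (e 2) := by
    unfold ltF
    repeat' with_reducible first
      | apply fo_d
      | assumption | exact NF.var _ | exact NF.const _ | exact NF.len | apply NF.nn | apply NF.kk
      | apply NF.tt | apply NF.add | apply NF.sub | apply NF.mul | apply NF.div | apply NF.mod
      | apply NL.cons | exact NL.nil | apply FO.and | apply FO.or | apply FO.not | apply FO.imp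
      | apply FO.ex | apply FO.all | apply FO.par | apply FO.exIt | apply FO.rel | apply FO.inp
      | apply FO.le | apply FO.lt | apply FO.eq | dsimp only
  exact h.app (NL.cons hl (NL.cons ha (NL.cons hb NL.nil)))

theorem fo_rule (hl : NF l) {a₁ a₂ a₃ a₄ a₅ b₁ b₂ b₃ b₄ b₅ c₁ c₂ c₃ c₄ c₅ : ℕ → (ℕ → ℕ) → ℕ}
    (ha₁ : NF a₁) (ha₂ : NF a₂) (ha₃ : NF a₃) (ha₄ : NF a₄) (ha₅ : NF a₅)
    (hb₁ : NF b₁) (hb₂ : NF b₂) (hb₃ : NF b₃) (hb₄ : NF b₄) (hb₅ : NF b₅)
    (hc₁ : NF c₁) (hc₂ : NF c₂) (hc₃ : NF c₃) (hc₄ : NF c₄) (hc₅ : NF c₅) :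
    FO fun N w F e => ruleF N w F (l N e) ⟨a₁ N e, a₂ N e, a₃ N e, a₄ N e, a₅ N e⟩
      ⟨b₁ N e, b₂ N e, b₃ N e, b₄ N e, b₅ N e⟩ ⟨c₁ N e, c₂ N e, c₃ N e, c₄ N e, c₅ N e⟩ := by
  have h : FO fun N w F e => ruleF N w F (e 0) ⟨e 1, e 2, e 3, e 4, e 5⟩
      ⟨e 6, e 7, e 8, e 9, e 10⟩ ⟨e 11, e 12, e 13, e 14, e 15⟩ := by
    unfold ruleF
    repeat' with_reducible first
      | apply fo_mate | apply fo_lt
      | assumption | exact NF.var _ | exact NF.const _ | exact NF.len | apply NF.nn | apply NF.kk
      | apply NF.tt | apply NF.add | apply NF.sub | apply NF.mul | apply NF.div | apply NF.mod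
      | apply NL.cons | exact NL.nil | apply FO.and | apply FO.or | apply FO.not | apply FO.imp
      | apply FO.ex | apply FO.all | apply FO.par | apply FO.exIt | apply FO.rel | apply FO.inp
      | apply FO.le | apply FO.lt | apply FO.eq | dsimp only
  exact h.app (NL.cons hl (NL.cons ha₁ (NL.cons ha₂ (NL.cons ha₃ (NL.cons ha₄ (NL.cons ha₅
    (NL.cons hb₁ (NL.cons hb₂ (NL.cons hb₃ (NL.cons hb₄ (NL.cons hb₅
    (NL.cons hc₁ (NL.cons hc₂ (NL.cons hc₃ (NL.cons hc₄ (NL.cons hc₅ NL.nil))))))))))))))))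

theorem fo_rA (hl : NF l) (hm : NF m) (hs : NF s)
    (ha : NF a) (hb : NF b) (hk : NF k) (hc : NF c) (ht : NF t) :
    FO fun N _ F e => rA F (l N e) (m N e) (s N e) ⟨a N e, b N e, k N e, c N e, t N e⟩ := by
  have h : FO fun N _ F e => rA F (e 0) (e 1) (e 2) ⟨e 3, e 4, e 5, e 6, e 7⟩ := by
    unfold rA
    repeat' with_reducible first
      | assumption | exact NF.var _ | exact NF.const _ | exact NF.len | apply NF.nn | apply NF.kk
      | apply NF.tt | apply NF.add | apply NF.sub | apply NF.mul | apply NF.div | apply NF.mod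
      | apply NL.cons | exact NL.nil | apply FO.and | apply FO.or | apply FO.not | apply FO.imp
      | apply FO.ex | apply FO.all | apply FO.par | apply FO.exIt | apply FO.rel | apply FO.inp
      | apply FO.le | apply FO.lt | apply FO.eq | dsimp only
  exact h.app (NL.cons hl (NL.cons hm (NL.cons hs (NL.cons ha (NL.cons hb (NL.cons hk (NL.cons hc
    (NL.cons ht NL.nil))))))))

theorem fo_pA (hl : NF l) (hm : NF m) (hs : NF s) {a₁ a₂ a₃ a₄ a₅ b₁ b₂ b₃ b₄ b₅ : ℕ → (ℕ → ℕ) → ℕ}
    (ha₁ : NF a₁) (ha₂ : NF a₂) (ha₃ : NF a₃) (ha₄ : NF a₄) (ha₅ : NF a₅)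
    (hb₁ : NF b₁) (hb₂ : NF b₂) (hb₃ : NF b₃) (hb₄ : NF b₄) (hb₅ : NF b₅) :
    FO fun N _ F e => pA F (l N e) (m N e) (s N e) ⟨a₁ N e, a₂ N e, a₃ N e, a₄ N e, a₅ N e⟩
      ⟨b₁ N e, b₂ N e, b₃ N e, b₄ N e, b₅ N e⟩ := by
  have h : FO fun N _ F e => pA F (e 0) (e 1) (e 2) ⟨e 3, e 4, e 5, e 6, e 7⟩
      ⟨e 8, e 9, e 10, e 11, e 12⟩ := by
    unfold pA
    repeat' with_reducible first
      | assumption | exact NF.var _ | exact NF.const _ | exact NF.len | apply NF.nn | apply NF.kk
      | apply NF.tt | apply NF.add | apply NF.sub | apply NF.mul | apply NF.div | apply NF.mod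
      | apply NL.cons | exact NL.nil | apply FO.and | apply FO.or | apply FO.not | apply FO.imp
      | apply FO.ex | apply FO.all | apply FO.par | apply FO.exIt | apply FO.rel | apply FO.inp
      | apply FO.le | apply FO.lt | apply FO.eq | dsimp only
  exact h.app (NL.cons hl (NL.cons hm (NL.cons hs (NL.cons ha₁ (NL.cons ha₂ (NL.cons ha₃
    (NL.cons ha₄ (NL.cons ha₅ (NL.cons hb₁ (NL.cons hb₂ (NL.cons hb₃ (NL.cons hb₄ (NL.cons hb₅
    NL.nil)))))))))))))

theorem fo_rch (hl : NF l) (hs : NF s) (ha : NF a) (hb : NF b) :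
    FO fun N _ F e => rchF N F (l N e) (s N e) (a N e) (b N e) := by
  have h : FO fun N _ F e => rchF N F (e 0) (e 1) (e 2) (e 3) := by
    unfold rchF
    repeat' with_reducible first
      | apply fo_rA
      | assumption | exact NF.var _ | exact NF.const _ | exact NF.len | apply NF.nn | apply NF.kk
      | apply NF.tt | apply NF.add | apply NF.sub | apply NF.mul | apply NF.div | apply NF.mod
      | apply NL.cons | exact NL.nil | apply FO.and | apply FO.or | apply FO.not | apply FO.imp
      | apply FO.ex | apply FO.all | apply FO.par | apply FO.exIt | apply FO.rel | apply FO.inp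
      | apply FO.le | apply FO.lt | apply FO.eq | dsimp only
  exact h.app (NL.cons hl (NL.cons hs (NL.cons ha (NL.cons hb NL.nil))))

theorem fo_thr (hl : NF l) (hs : NF s) (ha : NF a) (hb : NF b) :
    FO fun N _ F e => thrF N F (l N e) (s N e) (a N e) (b N e) := by
  have h : FO fun N _ F e => thrF N F (e 0) (e 1) (e 2) (e 3) := by
    unfold thrF
    repeat' with_reducible first
      | apply fo_rA
      | assumption | exact NF.var _ | exact NF.const _ | exact NF.len | apply NF.nn | apply NF.kk
      | apply NF.tt | apply NF.add | apply NF.sub | apply NF.mul | apply NF.div | apply NF.mod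
      | apply NL.cons | exact NL.nil | apply FO.and | apply FO.or | apply FO.not | apply FO.imp
      | apply FO.ex | apply FO.all | apply FO.par | apply FO.exIt | apply FO.rel | apply FO.inp
      | apply FO.le | apply FO.lt | apply FO.eq | dsimp only
  exact h.app (NL.cons hl (NL.cons hs (NL.cons ha (NL.cons hb NL.nil))))

theorem fo_qq (hl : NF l) (ha : NF a) (hb : NF b) :
    FO fun N w F e => qqF N w F (l N e) (a N e) (b N e) := by
  have h : FO fun N w F e => qqF N w F (e 0) (e 1) (e 2) := by
    unfold qqF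
    repeat' with_reducible first
      | apply fo_rch | apply fo_mate
      | assumption | exact NF.var _ | exact NF.const _ | exact NF.len | apply NF.nn | apply NF.kk
      | apply NF.tt | apply NF.add | apply NF.sub | apply NF.mul | apply NF.div | apply NF.mod
      | apply NL.cons | exact NL.nil | apply FO.and | apply FO.or | apply FO.not | apply FO.imp
      | apply FO.ex | apply FO.all | apply FO.par | apply FO.exIt | apply FO.rel | apply FO.inp
      | apply FO.le | apply FO.lt | apply FO.eq | dsimp only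
  exact h.app (NL.cons hl (NL.cons ha (NL.cons hb NL.nil)))

theorem fo_ee (hl : NF l) (ha : NF a) (hb : NF b) :
    FO fun N w F e => eeF N w F (l N e) (a N e) (b N e) := by
  have h : FO fun N w F e => eeF N w F (e 0) (e 1) (e 2) := by
    unfold eeF
    repeat' with_reducible first
      | apply fo_qq | apply fo_thr | apply fo_mate
      | assumption | exact NF.var _ | exact NF.const _ | exact NF.len | apply NF.nn | apply NF.kk
      | apply NF.tt | apply NF.add | apply NF.sub | apply NF.mul | apply NF.div | apply NF.mod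
      | apply NL.cons | exact NL.nil | apply FO.and | apply FO.or | apply FO.not | apply FO.imp
      | apply FO.ex | apply FO.all | apply FO.par | apply FO.exIt | apply FO.rel | apply FO.inp
      | apply FO.le | apply FO.lt | apply FO.eq | dsimp only
  exact h.app (NL.cons hl (NL.cons ha (NL.cons hb NL.nil)))

theorem fo_eE (hl : NF l) (ha : NF a) (hb : NF b) :
    FO fun N w F e => eEF N w F (l N e) (a N e) (b N e) := by
  have h : FO fun N w F e => eEF N w F (e 0) (e 1) (e 2) := by
    unfold eEF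
    repeat' with_reducible first
      | apply fo_ee | apply fo_mate
      | assumption | exact NF.var _ | exact NF.const _ | exact NF.len | apply NF.nn | apply NF.kk
      | apply NF.tt | apply NF.add | apply NF.sub | apply NF.mul | apply NF.div | apply NF.mod
      | apply NL.cons | exact NL.nil | apply FO.and | apply FO.or | apply FO.not | apply FO.imp
      | apply FO.ex | apply FO.all | apply FO.par | apply FO.exIt | apply FO.rel | apply FO.inp
      | apply FO.le | apply FO.lt | apply FO.eq | dsimp only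
  exact h.app (NL.cons hl (NL.cons ha (NL.cons hb NL.nil)))

end

theorem fo_pow : FO fun N w F e => powF N w F (e 0) (e 1) (e 2) (e 3) (e 4) (e 5) := by
  unfold powF
  repeat' with_reducible first
    | apply fo_del
    | assumption | exact NF.var _ | exact NF.const _ | exact NF.len | apply NF.nn | apply NF.kk
    | apply NF.tt | apply NF.add | apply NF.sub | apply NF.mul | apply NF.div | apply NF.mod
    | apply NL.cons | exact NL.nil | apply FO.and | apply FO.or | apply FO.not | apply FO.imp
    | apply FO.ex | apply FO.all | apply FO.par | apply FO.exIt | apply FO.rel | apply FO.inp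
    | apply FO.le | apply FO.lt | apply FO.eq | dsimp only

theorem fo_prod : FO fun _ _ F e => prodF F (e 0) (e 1) (e 2) (e 3) (e 4) := by
  unfold prodF
  repeat' with_reducible first
    | assumption | exact NF.var _ | exact NF.const _ | exact NF.len | apply NF.nn | apply NF.kk
    | apply NF.tt | apply NF.add | apply NF.sub | apply NF.mul | apply NF.div | apply NF.mod
    | apply NL.cons | exact NL.nil | apply FO.and | apply FO.or | apply FO.not | apply FO.imp
    | apply FO.ex | apply FO.all | apply FO.par | apply FO.exIt | apply FO.rel | apply FO.inp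
    | apply FO.le | apply FO.lt | apply FO.eq | dsimp only

theorem fo_inv : FO fun N _ F e => invF N F (e 0) (e 1) (e 2) (e 3) := by
  unfold invF
  repeat' with_reducible first
    | assumption | exact NF.var _ | exact NF.const _ | exact NF.len | apply NF.nn | apply NF.kk
    | apply NF.tt | apply NF.add | apply NF.sub | apply NF.mul | apply NF.div | apply NF.mod
    | apply NL.cons | exact NL.nil | apply FO.and | apply FO.or | apply FO.not | apply FO.imp
    | apply FO.ex | apply FO.all | apply FO.par | apply FO.exIt | apply FO.rel | apply FO.inp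
    | apply FO.le | apply FO.lt | apply FO.eq | dsimp only

theorem fo_r : FO fun N w F e => rF N w F (e 0) (e 1) (e 2) ⟨e 3, e 4, e 5, e 6, e 7⟩ := by
  unfold rF
  repeat' with_reducible first
    | apply fo_rA | apply fo_pA | apply fo_rule | apply fo_ax
    | assumption | exact NF.var _ | exact NF.const _ | exact NF.len | apply NF.nn | apply NF.kk
    | apply NF.tt | apply NF.add | apply NF.sub | apply NF.mul | apply NF.div | apply NF.mod
    | apply NL.cons | exact NL.nil | apply FO.and | apply FO.or | apply FO.not | apply FO.imp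
    | apply FO.ex | apply FO.all | apply FO.par | apply FO.exIt | apply FO.rel | apply FO.inp
    | apply FO.le | apply FO.lt | apply FO.eq | dsimp only

theorem fo_p : FO fun N w F e => pF N w F (e 0) (e 1) (e 2) ⟨e 3, e 4, e 5, e 6, e 7⟩
    ⟨e 8, e 9, e 10, e 11, e 12⟩ := by
  unfold pF
  repeat' with_reducible first
    | apply fo_rA | apply fo_pA | apply fo_rule
    | assumption | exact NF.var _ | exact NF.const _ | exact NF.len | apply NF.nn | apply NF.kk
    | apply NF.tt | apply NF.add | apply NF.sub | apply NF.mul | apply NF.div | apply NF.mod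
    | apply NL.cons | exact NL.nil | apply FO.and | apply FO.or | apply FO.not | apply FO.imp
    | apply FO.ex | apply FO.all | apply FO.par | apply FO.exIt | apply FO.rel | apply FO.inp
    | apply FO.le | apply FO.lt | apply FO.eq | dsimp only

theorem fo_tcl : FO fun N w F e => tclF N w F (e 0) (e 1) (e 2) (e 3) := by
  unfold tclF
  repeat' with_reducible first
    | apply fo_eE
    | assumption | exact NF.var _ | exact NF.const _ | exact NF.len | apply NF.nn | apply NF.kk
    | apply NF.tt | apply NF.add | apply NF.sub | apply NF.mul | apply NF.div | apply NF.mod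
    | apply NL.cons | exact NL.nil | apply FO.and | apply FO.or | apply FO.not | apply FO.imp
    | apply FO.ex | apply FO.all | apply FO.par | apply FO.exIt | apply FO.rel | apply FO.inp
    | apply FO.le | apply FO.lt | apply FO.eq | dsimp only

theorem fo_out : FO fun N w F _ => outF N w F := by
  unfold outF
  repeat' with_reducible first
    | apply fo_mate | apply fo_arc | apply fo_rch | apply fo_adj
    | assumption | exact NF.var _ | exact NF.const _ | exact NF.len | apply NF.nn | apply NF.kk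
    | apply NF.tt | apply NF.add | apply NF.sub | apply NF.mul | apply NF.div | apply NF.mod
    | apply NL.cons | exact NL.nil | apply FO.and | apply FO.or | apply FO.not | apply FO.imp
    | apply FO.ex | apply FO.all | apply FO.par | apply FO.exIt | apply FO.rel | apply FO.inp
    | apply FO.le | apply FO.lt | apply FO.eq | dsimp only

theorem sys_fod : ∀ i, i < 7 → FOD (sys i)
  | 0, _ => fo_out
  | 1, _ => fo_pow
  | 2, _ => fo_prod
  | 3, _ => fo_inv
  | 4, _ => fo_r
  | 5, _ => fo_p
  | 6, _ => fo_tcl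
  | i + 7, h => by omega

theorem sys_out (i : ℕ) (h : 7 ≤ i) (x : List Bool) (F : Itp) (e : ℕ → ℕ) : ¬ sys i x F e := by
  obtain ⟨j, rfl⟩ := Nat.exists_eq_add_of_le h
  rw [Nat.add_comm 7 j]
  exact id

end Pool.Agent.UPM
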