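import Mathlib
import Pool.Agent.UPM.Det
import Pool.Agent.UPM.Sys

/-!
# The system of formulas: values of the relations computing the determinant
-/

set_option autoImplicit false

namespace Pool.Agent.UPM

open Finset
open Pool.Agent.NC

/-- Stages of the system. -/
noncomputable abbrev St (B : ℕ) (w : List Bool) (t : ℕ) : Itp := stage sys 13 B w t

/-- Stages of the system, for truncated arguments. -/
noncomputable def Fc (B : ℕ) (w : List Bool) (t : ℕ) : Itp := fun j e => St B w t j (clamp 13 B e)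

theorem St_succ (B : ℕ) (w : List Bool) (t i : ℕ) (e : ℕ → ℕ) :
    St B w (t + 1) i e ↔ sys i w (Fc B w t) e := Iff.rfl

theorem Fc_vec {B : ℕ} {w : List Bool} {t i : ℕ} {l : List ℕ} (hl : l.length ≤ 13)
    (hB : ∀ a ∈ l, a ≤ B) : Fc B w t i (vec l) ↔ St B w t i (vec l) := by
  unfold Fc
  rw [clamp_vec hl hB]

/-- Parity quantifiers and sums modulo 2. -/
theorem par_iff {b : ℕ} {P : ℕ → Prop} {g : ℕ → ZMod 2} (h : ∀ v, v < b → (P v ↔ g v = 1)) :
    Par b P ↔ ∑ v ∈ range b, g v = 1 := by
  classical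
  have h1 : ∑ v ∈ range b, g v = ∑ v ∈ range b, if P v then 1 else 0 := by
    refine Finset.sum_congr rfl fun v hv => ?_
    have h2 := h v (mem_range.1 hv)
    by_cases hP : P v
    · rw [if_pos hP]; exact h2.1 hP
    · rw [if_neg hP]
      have h3 : g v ≠ 1 := fun e => hP (h2.2 e)
      generalize g v = z at h3
      revert z
      decide
  rw [h1, Finset.sum_boole, ZMod.natCast_eq_one_iff_odd]
  unfold Par
  refine iff_of_eq ?_
  congr

theorem mul_eq_one_iff (a b : ZMod 2) : a * b = 1 ↔ a = 1 ∧ b = 1 := by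
  revert a b
  decide

/-- The matrix of a word. -/
def mat (w : List Bool) (u v : ℕ) : ZMod 2 := if w.getD (u * nn w.length + v) false = true then 1 else 0

theorem mat_iff (w : List Bool) (u v : ℕ) : mat w u v = 1 ↔ adjW w.length w u v := by
  unfold mat adjW
  split_ifs with h
  · exact iff_of_true rfl h
  · exact iff_of_false (by decide) h

theorem del_iff (w : List Bool) (u v x y : ℕ) :
    del (mat w) u v x y = 1 ↔ delF w.length w u v x y := by
  unfold del delF
  split_ifs with h h2
  · exact iff_of_true rfl (Or.inl ⟨h, h2⟩)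
  · exact iff_of_false (by decide) (by tauto)
  · rw [mat_iff]
    tauto

section

variable {B : ℕ} {w : List Bool}

theorem pow_sem (j : ℕ) : ∀ t, j + 1 ≤ t → ∀ u v i k x y, k ≤ 2 ^ j → u ≤ B → v ≤ B → i ≤ B →
    k ≤ B → x ≤ B → y ≤ B →
    (St B w t 1 (vec [u, v, i, k, x, y]) ↔ powc (del (mat w) u v) i k x y = 1) := by
  induction j with
  | zero =>
    intro t ht u v i k x y hk _ _ _ _ _ _
    obtain ⟨t, rfl⟩ : ∃ t', t = t' + 1 := ⟨t - 1, by omega⟩
    rw [St_succ]
    change powF w.length w (Fc B w t) u v i k x y ↔ _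
    unfold powF
    simp only [pow_zero] at hk
    interval_cases k
    · rw [powc]
      simp
    · rw [powc, del_iff]
      simp
  | succ j ih =>
    intro t ht u v i k x y hk hu hv hi hkB hx hy
    obtain ⟨t, rfl⟩ : ∃ t', t = t' + 1 := ⟨t - 1, by omega⟩
    rw [St_succ]
    change powF w.length w (Fc B w t) u v i k x y ↔ _
    unfold powF
    match k, hk, hkB with
    | 0, _, _ =>
      rw [powc]
      simp
    | 1, _, _ =>
      rw [powc, del_iff]
      simp
    | k + 2, hk, hkB =>
      rw [powc]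
      have h2 : 2 ^ (j + 1) = 2 ^ j * 2 := pow_succ 2 j
      rw [← par_iff (P := fun z => Fc B w t 1 (vec [u, v, i, (k + 2) / 2, x, z]) ∧
        Fc B w t 1 (vec [u, v, i, k + 2 - (k + 2) / 2, z, y]))]
      · simp
      · intro z hz
        rw [mul_eq_one_iff, Fc_vec (by simp) (by simp; omega), Fc_vec (by simp) (by simp; omega),
          ih t (by omega) _ _ _ _ _ _ (by omega) hu hv hi (by omega) hx (by omega),
          ih t (by omega) _ _ _ _ _ _ (by omega) hu hv hi (by omega) (by omega) hy]

/-- The power series of the leading blocks. -/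
def gc (w : List Bool) (u v : ℕ) : ℕ → ℕ → ZMod 2 := fun i k => powc (del (mat w) u v) (i + 1) k i i

theorem prod_sem {κ : ℕ} (j : ℕ) : ∀ t, κ + j + 2 ≤ t → ∀ u v len lo k, len ≤ 2 ^ j → k ≤ 2 ^ κ →
    u ≤ B → v ≤ B → lo + len ≤ B → k ≤ B →
    (St B w t 2 (vec [u, v, len, lo, k]) ↔ prodc (gc w u v) len lo k = 1) := by
  induction j with
  | zero =>
    intro t ht u v len lo k hl hk hu hv hlo hkB
    obtain ⟨t, rfl⟩ : ∃ t', t = t' + 1 := ⟨t - 1, by omega⟩
    rw [St_succ]
    change prodF (Fc B w t) u v len lo k ↔ _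
    unfold prodF
    simp only [pow_zero] at hl
    interval_cases len
    · rw [prodc]
      simp
    · rw [prodc, Fc_vec (by simp) (by simp; omega),
        pow_sem κ t (by omega) _ _ _ _ _ _ hk hu hv (by omega) hkB (by omega) (by omega)]
      simp [gc]
  | succ j ih =>
    intro t ht u v len lo k hl hk hu hv hlo hkB
    obtain ⟨t, rfl⟩ : ∃ t', t = t' + 1 := ⟨t - 1, by omega⟩
    rw [St_succ]
    change prodF (Fc B w t) u v len lo k ↔ _
    unfold prodF
    match len, hl, hlo with
    | 0, _, _ =>
      rw [prodc]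
      simp
    | 1, _, _ =>
      rw [prodc, Fc_vec (by simp) (by simp; omega),
        pow_sem κ t (by omega) _ _ _ _ _ _ hk hu hv (by omega) hkB (by omega) (by omega)]
      simp [gc]
    | len + 2, hl, hlo =>
      rw [prodc]
      have h2 : 2 ^ (j + 1) = 2 ^ j * 2 := pow_succ 2 j
      rw [← par_iff (P := fun z => Fc B w t 2 (vec [u, v, (len + 2) / 2, lo, z]) ∧
        Fc B w t 2 (vec [u, v, len + 2 - (len + 2) / 2, lo + (len + 2) / 2, k - z]))]
      · simp
      · intro z hz
        rw [mul_eq_one_iff, Fc_vec (by simp) (by simp; omega), Fc_vec (by simp) (by simp; omega),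
          ih t (by omega) _ _ _ _ _ (by omega) (by omega) hu hv (by omega) (by omega),
          ih t (by omega) _ _ _ _ _ (by omega) (by omega) hu hv (by omega) (by omega)]

theorem inv_sem {κ : ℕ} (hn : nn w.length ≤ 2 ^ κ) (hnB : nn w.length ≤ B) (j : ℕ) :
    ∀ t, 2 * κ + j + 3 ≤ t → ∀ u v q k, k < q * 2 ^ j → k ≤ 2 ^ κ → u ≤ B → v ≤ B → q ≤ B →
    2 * k ≤ B → (St B w t 3 (vec [u, v, q, k]) ↔
      invc (fun k => prodc (gc w u v) (nn w.length) 0 k) q k = 1) := by
  induction j with
  | zero =>
    intro t ht u v q k hk _ _ _ _ _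
    obtain ⟨t, rfl⟩ : ∃ t', t = t' + 1 := ⟨t - 1, by omega⟩
    rw [St_succ]
    change invF w.length (Fc B w t) u v q k ↔ _
    unfold invF
    rw [pow_zero, mul_one] at hk
    rw [invc, dif_pos (Or.inr hk)]
    simp only [hk, or_true, true_and, not_true_eq_false, false_and, or_false]
    split_ifs with h <;> simp [h]
  | succ j ih =>
    intro t ht u v q k hk hkk hu hv hq hkB
    obtain ⟨t, rfl⟩ : ∃ t', t = t' + 1 := ⟨t - 1, by omega⟩
    rw [St_succ]
    change invF w.length (Fc B w t) u v q k ↔ _
    unfold invF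
    by_cases h : q = 0 ∨ k < q
    · rw [invc, dif_pos h]
      simp only [h, true_and, not_true_eq_false, false_and, or_false]
      split_ifs with h <;> simp [h]
    · rw [invc, dif_neg h]
      simp only [h, false_and, not_false_eq_true, true_and, false_or]
      rw [Finset.sum_attach (range (k + 1)) (fun k₁ => if q ∣ k₁ then
        prodc (gc w u v) (nn w.length) 0 (k₁ / q) *
          invc (fun k => prodc (gc w u v) (nn w.length) 0 k) (2 * q) (k - k₁) else 0)]
      refine par_iff fun z hz => ?_
      push Not at h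
      have h2 : q * 2 ^ (j + 1) = 2 * q * 2 ^ j := by ring
      have h3 : z / q ≤ k := (Nat.div_le_self _ _).trans (by omega)
      rw [Fc_vec (by simp) (by simp; omega), Fc_vec (by simp) (by simp; omega)]
      rw [prod_sem (κ := κ) κ t (by omega) _ _ _ _ _ hn (by omega) hu hv (by omega) (by omega),
        ih t (by omega) _ _ _ _ (by omega) (by omega) hu hv (by omega) (by omega)]
      by_cases hd : q ∣ z
      · rw [if_pos hd, mul_eq_one_iff]
        simp [Nat.mod_eq_zero_of_dvd hd]
      · rw [if_neg hd]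
        have : z % q ≠ 0 := fun e => hd (Nat.dvd_of_mod_eq_zero e)
        simp [this]

/-- Value of the formula for the matching. -/
theorem mate_sem {κ : ℕ} (hn : nn w.length < 2 ^ κ) (hnB : 2 * nn w.length ≤ B) (h1 : 1 ≤ B) {t : ℕ}
    (ht : 3 * κ + 3 ≤ t) {u v : ℕ} (hu : u ≤ B) (hv : v ≤ B) :
    mateF w.length w (Fc B w t) u v ↔
      adjW w.length w u v ∧ detc (nn w.length) (del (mat w) u v) = 1 := by
  unfold mateF
  rw [Fc_vec (by simp) (by simp; omega), inv_sem (κ := κ) hn.le (by omega) κ t (by omega) _ _ _ _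
    (by omega) hn.le hu hv h1 (by omega)]
  rfl

end

end Pool.Agent.UPM
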