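import Mathlib
import Pool.Agent.UPM.Alg
import Pool.Agent.UPM.SysDet

/-!
# The system of formulas: values of the relations of the algorithm
-/

set_option autoImplicit false

namespace Pool.Agent.UPM

open Pool.Agent.NC

/-- Nodes. -/
abbrev VV (w : List Bool) : Type := Fin (nn w.length)

/-- Adjacency of nodes. -/
def adjV (w : List Bool) (a b : VV w) : Prop := adjW w.length w a b

/-- Numbers for optional nodes. -/
def enc {n : ℕ} : Option (Fin n) → ℕ
  | none => n
  | some v => v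

theorem enc_le {n : ℕ} (s : Option (Fin n)) : enc s ≤ n := by
  cases s with
  | none => exact le_rfl
  | some v => exact v.2.le

theorem enc_eq {n : ℕ} (s : Option (Fin n)) : enc s = n ↔ s = none := by
  cases s with
  | none => simp [enc]
  | some v => simp [enc, v.2.ne]

theorem enc_inj {n : ℕ} (s t : Option (Fin n)) : enc s = enc t ↔ s = t := by
  cases s with
  | none => exact ⟨fun h => ((enc_eq t).1 h.symm).symm, fun h => by rw [h]⟩
  | some v =>
    cases t with
    | none => simp [enc, v.2.ne]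
    | some u => simp [enc, Fin.ext_iff]

/-- Numbers for items. -/
def toIt {n : ℕ} (a : Item (Fin n)) : It := ⟨a.x, a.z, a.k, a.c, enc a.t⟩

theorem exV {n : ℕ} {P : ℕ → Prop} : (∃ v, v < n ∧ P v) ↔ ∃ v : Fin n, P v :=
  ⟨fun ⟨v, h, hP⟩ => ⟨⟨v, h⟩, hP⟩, fun ⟨v, hP⟩ => ⟨v, v.2, hP⟩⟩

theorem allV {n : ℕ} {P : ℕ → Prop} : (∀ v, v < n → P v) ↔ ∀ v : Fin n, P v :=
  ⟨fun h v => h v v.2, fun h v hv => h ⟨v, hv⟩⟩

theorem exO {n : ℕ} {P : ℕ → Prop} : (∃ v, v < n + 1 ∧ P v) ↔ ∃ s : Option (Fin n), P (enc s) := by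
  constructor
  · rintro ⟨v, h, hP⟩
    rcases Nat.lt_succ_iff_lt_or_eq.1 h with h | rfl
    · exact ⟨some ⟨v, h⟩, hP⟩
    · exact ⟨none, hP⟩
  · rintro ⟨s, hP⟩
    exact ⟨enc s, Nat.lt_succ_of_le (enc_le s), hP⟩

theorem exIt_iff {n k : ℕ} {P : It → Prop} :
    exIt n k P ↔ ∃ a : Item (Fin n), a.k ≤ k ∧ P (toIt a) := by
  constructor
  · rintro ⟨x, hx, z, hz, l, hl, c, hc, ht⟩
    obtain ⟨t, h⟩ := exO.1 ht
    exact ⟨⟨⟨x, hx⟩, ⟨z, hz⟩, l, ⟨c, hc⟩, t⟩, Nat.le_of_lt_succ hl, h⟩
  · rintro ⟨a, ha, h⟩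
    exact ⟨a.x, a.x.2, a.z, a.z.2, a.k, Nat.lt_succ_of_le ha, a.c, a.c.2, exO.2 ⟨a.t, h⟩⟩

section

variable {w : List Bool} {S : Skew (VV w)} {F : Itp}

theorem arc_sem (hA : ∀ a b, S.arc a b ↔ adjV w a (S.m b) ∧ b ≠ a)
    (hF : ∀ u v : VV w, mateF w.length w F u v ↔ S.m u = v) (a b : VV w) :
    arcF w.length w F a b ↔ S.arc a b := by
  unfold arcF
  rw [hA, and_comm, exV]
  refine and_congr ?_ ?_
  · simp only [hF]
    constructor
    · rintro ⟨c, rfl, h⟩
      exact h
    · intro h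
      exact ⟨_, rfl, h⟩
  · rw [Ne, Fin.ext_iff]

theorem avoid_sem (hF : ∀ u v : VV w, mateF w.length w F u v ↔ S.m u = v) (s : Option (VV w))
    (v : VV w) : avoidF w.length w F (enc s) v ↔ S.Avoid s v := by
  unfold avoidF Skew.Avoid
  cases s with
  | none => simp [enc]
  | some u =>
    simp only [enc, u.2, Option.some.injEq, forall_eq', forall_const]
    refine and_congr Fin.ext_iff.symm.not ?_
    exact (hF _ _).not.trans ⟨fun h e => h e.symm, fun h e => h e.symm⟩

theorem ax_sem (hA : ∀ a b, S.arc a b ↔ adjV w a (S.m b) ∧ b ≠ a)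
    (hF : ∀ u v : VV w, mateF w.length w F u v ↔ S.m u = v) (s : Option (VV w))
    (a : Item (VV w)) : axF w.length w F (enc s) (toIt a) ↔ S.axI s a := by
  unfold axF Skew.axI
  refine and_congr (arc_sem hA hF _ _) (and_congr Iff.rfl (and_congr (avoid_sem hF _ _)
    (and_congr (avoid_sem hF _ _) (enc_eq _))))

theorem lt_sem {D : VV w → VV w → Prop} {L : ℕ}
    (hD : ∀ a b : VV w, dF w.length F L a b ↔ D a b) (y c : VV w) :
    ltF w.length F L y c ↔ Skew.hlt D y c := by
  unfold ltF Skew.hlt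
  rw [exV]
  refine exists_congr fun a => and_congr (hD _ _) (and_congr (hD _ _).not ?_)
  rw [allV]
  exact forall_congr' fun b => imp_congr (hD _ _) (imp_congr (hD _ _).not Iff.rfl)

theorem rule_sem {D : VV w → VV w → Prop} {L : ℕ}
    (hF : ∀ u v : VV w, mateF w.length w F u v ↔ S.m u = v)
    (hD : ∀ a b : VV w, dF w.length F L a b ↔ D a b) (a b c : Item (VV w)) :
    ruleF w.length w F L (toIt a) (toIt b) (toIt c) ↔ S.ruleI (Skew.hle D) a b c := by
  unfold ruleF Skew.ruleI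
  have e1 : ∀ u v : VV w, (u : ℕ) = v ↔ u = v := fun u v => Fin.ext_iff.symm
  refine and_congr (e1 _ _).not (and_congr ?_ (and_congr (e1 _ _) (and_congr (e1 _ _)
    (and_congr (e1 _ _) (and_congr (e1 _ _) (and_congr (e1 _ _) (and_congr Iff.rfl
    (and_congr Iff.rfl (and_congr Iff.rfl (and_congr (lt_sem hD _ _).not ?_))))))))))
  · exact (hF _ _).not.trans ⟨fun h e => h e.symm, fun h e => h e.symm⟩
  · change ((enc a.t = _ ∧ enc b.t = _ ∧ enc c.t = _) ∨ (¬ enc a.t = _ ∧
      ((enc a.t = enc (some c.x) ∧ enc b.t = _ ∧ enc c.t = _) ∨ (enc b.t = enc a.t ∧ enc c.t = _) ∨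
        (enc b.t = _ ∧ enc c.t = enc a.t)))) ↔ _
    simp only [enc_eq, enc_inj]
    refine or_congr Iff.rfl ?_
    cases h : a.t with
    | none => simp
    | some t =>
      simp only [Option.some.injEq, exists_eq_left', reduceCtorEq, not_false_eq_true, true_and]

/-- Values of the derived relations. -/
theorem rch_sem {R : Option (VV w) → Item (VV w) → Prop} {l : ℕ}
    (hR : ∀ s a, a.k ≤ l → (rA F l (tt w.length) (enc s) (toIt a) ↔ R s a)) (s : Option (VV w))
    (x z : VV w) : rchF w.length F l (enc s) x z ↔ Skew.rch R l s x z := by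
  unfold rchF Skew.rch
  rw [exV]
  exact exists_congr fun c => hR s ⟨x, z, l, c, none⟩ le_rfl

theorem thr_sem {R : Option (VV w) → Item (VV w) → Prop} {l : ℕ}
    (hR : ∀ s a, a.k ≤ l → (rA F l (tt w.length) (enc s) (toIt a) ↔ R s a))
    (x t z : VV w) : thrF w.length F l x t z ↔ Skew.thr R l x t z := by
  unfold thrF Skew.thr
  rw [exV]
  exact exists_congr fun c => hR none ⟨x, z, l, c, some t⟩ le_rfl

theorem exMate (hF : ∀ u v : VV w, mateF w.length w F u v ↔ S.m u = v) {P : ℕ → Prop} (u : VV w) :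
    (∃ c, c < nn w.length ∧ mateF w.length w F u c ∧ P c) ↔ P (S.m u) := by
  rw [exV]
  simp only [hF]
  exact ⟨fun ⟨_, h, hP⟩ => h ▸ hP, fun h => ⟨_, rfl, h⟩⟩

theorem qq_sem {R : Option (VV w) → Item (VV w) → Prop} {l : ℕ}
    (hF : ∀ u v : VV w, mateF w.length w F u v ↔ S.m u = v)
    (hR : ∀ s a, a.k ≤ l → (rA F l (tt w.length) (enc s) (toIt a) ↔ R s a))
    (x m : VV w) : qqF w.length w F l x m ↔ S.qq R l x m := by
  unfold qqF Skew.qq
  have e1 : ∀ u v : VV w, ¬ (u : ℕ) = v ↔ u ≠ v := fun u v => Fin.ext_iff.symm.not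
  have e2 : ∀ u v : VV w, ¬ mateF w.length w F u v ↔ v ≠ S.m u := fun u v =>
    (hF _ _).not.trans ⟨fun h e => h e.symm, fun h e => h e.symm⟩
  refine and_congr (e1 _ _) (and_congr (e2 _ _) (and_congr (rch_sem hR none _ _)
    (and_congr ?_ ?_)))
  · rw [exMate hF]
    exact rch_sem hR none _ _
  · rw [allV]
    refine forall_congr' fun s => imp_congr (e1 _ _) (imp_congr (e2 _ _) (imp_congr (e1 _ _)
      (imp_congr (e2 _ _) (or_congr (rch_sem hR (some s) _ _) ?_))))
    rw [exMate hF]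
    exact rch_sem hR (some s) _ _

theorem ee_sem {R : Option (VV w) → Item (VV w) → Prop} {l : ℕ}
    (hF : ∀ u v : VV w, mateF w.length w F u v ↔ S.m u = v)
    (hR : ∀ s a, a.k ≤ l → (rA F l (tt w.length) (enc s) (toIt a) ↔ R s a))
    (x t : VV w) : eeF w.length w F l x t ↔ S.ee R l x t := by
  unfold eeF Skew.ee
  rw [exV]
  refine exists_congr fun m => and_congr (qq_sem hF hR _ _) (or_congr Fin.ext_iff.symm
    (or_congr (thr_sem hR _ _ _) ?_))
  rw [exMate hF]
  exact thr_sem hR _ _ _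

theorem eE_sem {R : Option (VV w) → Item (VV w) → Prop} {l : ℕ}
    (hF : ∀ u v : VV w, mateF w.length w F u v ↔ S.m u = v)
    (hR : ∀ s a, a.k ≤ l → (rA F l (tt w.length) (enc s) (toIt a) ↔ R s a))
    (x t : VV w) : eEF w.length w F l x t ↔ S.eE R l x t := by
  unfold eEF Skew.eE
  rw [exMate hF]
  exact or_congr (ee_sem hF hR _ _) (ee_sem hF hR _ _)

end

/-! ### Bounds for the items occurring in the closure -/

theorem peb_k {V : Type*} (S : Skew V) (le : V → V → Prop) (s : Option V) (t : ℕ) :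
    ∀ a b, (peb (S.axI s) (S.ruleI le) t).2 a b → b.k ≤ a.k := by
  induction t with
  | zero => exact fun _ _ h => h.elim
  | succ t ih =>
    rintro a b (h | ⟨c, h | h, _⟩ | ⟨d, h1, h2⟩)
    · exact ih a b h
    · have := h.2.2.2.2.2.2.2
      omega
    · have := h.2.2.2.2.2.2.2
      omega
    · exact (ih d b h2).trans (ih a d h1)

/-! ### Values of the stages -/

section

variable {B : ℕ} {w : List Bool} {S : Skew (VV w)}

theorem Fc_rA {t L τ : ℕ} (hn : nn w.length ≤ B) (hL : L ≤ B) (hτ : τ ≤ B) (s : Option (VV w))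
    (a : Item (VV w)) (ha : a.k ≤ nn w.length) :
    rA (Fc B w t) L τ (enc s) (toIt a) ↔ rA (St B w t) L τ (enc s) (toIt a) := by
  have h1 := enc_le s
  have h2 := enc_le a.t
  have h3 := a.x.2
  have h4 := a.z.2
  have h5 := a.c.2
  exact Fc_vec (by simp) (by simp [toIt]; omega)

theorem Fc_pA {t L τ : ℕ} (hn : nn w.length ≤ B) (hL : L ≤ B) (hτ : τ ≤ B) (s : Option (VV w))
    (a b : Item (VV w)) (ha : a.k ≤ nn w.length) (hb : b.k ≤ nn w.length) :
    pA (Fc B w t) L τ (enc s) (toIt a) (toIt b) ↔ pA (St B w t) L τ (enc s) (toIt a) (toIt b) := by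
  have h1 := enc_le s
  have h2 := enc_le a.t
  have h3 := a.x.2
  have h4 := a.z.2
  have h5 := a.c.2
  have g2 := enc_le b.t
  have g3 := b.x.2
  have g4 := b.z.2
  have g5 := b.c.2
  exact Fc_vec (by simp) (by simp [toIt]; omega)

theorem rp_sem (hn : nn w.length ≤ B) (hT : tt w.length ≤ B)
    (hA : ∀ a b, S.arc a b ↔ adjV w a (S.m b) ∧ b ≠ a) {M L : ℕ} (hL : L ≤ B)
    {D : VV w → VV w → Prop}
    (hF : ∀ t, M ≤ t → ∀ u v : VV w, mateF w.length w (Fc B w t) u v ↔ S.m u = v)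
    (hD : ∀ t, M ≤ t → ∀ a b : VV w, dF w.length (Fc B w t) L a b ↔ D a b) (s : Option (VV w))
    (τ : ℕ) : τ ≤ tt w.length → ∀ t, M + τ + 1 ≤ t →
    (∀ a : Item (VV w), a.k ≤ nn w.length → (rA (St B w t) L τ (enc s) (toIt a) ↔
      (peb (S.axI s) (S.ruleI (Skew.hle D)) τ).1 a)) ∧
    ∀ a b : Item (VV w), a.k ≤ nn w.length → b.k ≤ nn w.length →
      (pA (St B w t) L τ (enc s) (toIt a) (toIt b) ↔
      (peb (S.axI s) (S.ruleI (Skew.hle D)) τ).2 a b) := by
  induction τ with
  | zero =>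
    intro _ t ht
    obtain ⟨t, rfl⟩ : ∃ t', t = t' + 1 := ⟨t - 1, by omega⟩
    constructor
    · intro a _
      exact iff_of_false (fun h => absurd (show 1 ≤ 0 from h.1) (by norm_num)) id
    · intro a b _ _
      exact iff_of_false (fun h => absurd (show 1 ≤ 0 from h.1) (by norm_num)) id
  | succ τ ih =>
    intro hτ t ht
    obtain ⟨t, rfl⟩ : ∃ t', t = t' + 1 := ⟨t - 1, by omega⟩
    have ih' := ih (by omega) t (by omega)
    have eR : ∀ a : Item (VV w), a.k ≤ nn w.length → (rA (Fc B w t) L τ (enc s) (toIt a) ↔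
        (peb (S.axI s) (S.ruleI (Skew.hle D)) τ).1 a) := fun a ha =>
      (Fc_rA hn hL (by omega) s a ha).trans (ih'.1 a ha)
    have eP : ∀ a b : Item (VV w), a.k ≤ nn w.length → b.k ≤ nn w.length →
        (pA (Fc B w t) L τ (enc s) (toIt a) (toIt b) ↔
        (peb (S.axI s) (S.ruleI (Skew.hle D)) τ).2 a b) := fun a b ha hb =>
      (Fc_pA hn hL (by omega) s a b ha hb).trans (ih'.2 a b ha hb)
    have hF' := hF t (by omega)
    have hD' := hD t (by omega)
    constructor
    · intro a ha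
      change rF w.length w (Fc B w t) L (τ + 1) (enc s) (toIt a) ↔ _
      unfold rF
      rw [Nat.add_sub_cancel]
      constructor
      · rintro ⟨_, h | h | h | h⟩
        · exact Or.inl ((eR a ha).1 h)
        · exact Or.inr (Or.inl ((ax_sem hA hF' s a).1 h))
        · obtain ⟨b, hb, h⟩ := exIt_iff.1 h
          obtain ⟨c, hc, h1, h2, h3⟩ := exIt_iff.1 h
          exact Or.inr (Or.inr (Or.inl ⟨b, c, (rule_sem hF' hD' a b c).1 h1,
            (eR b (hb.trans ha)).1 h2, (eR c (hc.trans ha)).1 h3⟩))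
        · obtain ⟨b, hb, h1, h2⟩ := exIt_iff.1 h
          exact Or.inr (Or.inr (Or.inr ⟨b, (eP a b ha (hb.trans ha)).1 h1,
            (eR b (hb.trans ha)).1 h2⟩))
      · rintro (h | h | ⟨b, c, h1, h2, h3⟩ | ⟨b, h1, h2⟩)
        · exact ⟨by omega, Or.inl ((eR a ha).2 h)⟩
        · exact ⟨by omega, Or.inr (Or.inl ((ax_sem hA hF' s a).2 h))⟩
        · have hk := h1.2.2.2.2.2.2.2
          refine ⟨by omega, Or.inr (Or.inr (Or.inl (exIt_iff.2 ⟨b, ?_, exIt_iff.2 ⟨c, ?_,
            (rule_sem hF' hD' a b c).2 h1, (eR b (by omega)).2 h2, (eR c (by omega)).2 h3⟩⟩)))⟩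
          · change b.k ≤ a.k
            omega
          · change c.k ≤ a.k
            omega
        · have hk := peb_k _ _ _ _ _ _ h1
          exact ⟨by omega, Or.inr (Or.inr (Or.inr (exIt_iff.2 ⟨b, hk,
            (eP a b ha (hk.trans ha)).2 h1, (eR b (hk.trans ha)).2 h2⟩)))⟩
    · intro a b ha hb
      change pF w.length w (Fc B w t) L (τ + 1) (enc s) (toIt a) (toIt b) ↔ _
      unfold pF
      rw [Nat.add_sub_cancel]
      constructor
      · rintro ⟨_, h | h | h⟩
        · exact Or.inl ((eP a b ha hb).1 h)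
        · obtain ⟨c, hc, h1, h2⟩ := exIt_iff.1 h
          exact Or.inr (Or.inl ⟨c, h1.imp (rule_sem hF' hD' a b c).1 (rule_sem hF' hD' a c b).1,
            (eR c (hc.trans ha)).1 h2⟩)
        · obtain ⟨d, hd, h1, h2⟩ := exIt_iff.1 h
          exact Or.inr (Or.inr ⟨d, (eP a d ha (hd.trans ha)).1 h1,
            (eP d b (hd.trans ha) hb).1 h2⟩)
      · rintro (h | ⟨c, h1, h2⟩ | ⟨d, h1, h2⟩)
        · exact ⟨by omega, Or.inl ((eP a b ha hb).2 h)⟩
        · have hk : c.k ≤ a.k := by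
            rcases h1 with h1 | h1
            · have := h1.2.2.2.2.2.2.2
              omega
            · have := h1.2.2.2.2.2.2.2
              omega
          exact ⟨by omega, Or.inr (Or.inl (exIt_iff.2 ⟨c, hk,
            h1.imp (rule_sem hF' hD' a b c).2 (rule_sem hF' hD' a c b).2,
            (eR c (hk.trans ha)).2 h2⟩))⟩
        · have hk := peb_k _ _ _ _ _ _ h1
          exact ⟨by omega, Or.inr (Or.inr (exIt_iff.2 ⟨d, hk, (eP a d ha (hk.trans ha)).2 h1,
            (eP d b (hk.trans ha) hb).2 h2⟩))⟩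

theorem tcl_sem (hn : nn w.length ≤ B) (hK : kk w.length ≤ B) {M L : ℕ} (hL : L ≤ B)
    {R : Option (VV w) → Item (VV w) → Prop}
    (hF : ∀ t, M ≤ t → ∀ u v : VV w, mateF w.length w (Fc B w t) u v ↔ S.m u = v)
    (hR : ∀ t, M ≤ t → ∀ s a, a.k ≤ (L + 1) / 2 →
      (rA (Fc B w t) ((L + 1) / 2) (tt w.length) (enc s) (toIt a) ↔ R s a)) (i : ℕ) :
    i ≤ kk w.length → ∀ t, M + i + 1 ≤ t → ∀ x y : VV w,
    (St B w t 6 (vec [L, i, x, y]) ↔ Skew.tcl (S.eE R ((L + 1) / 2)) i x y) := by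
  induction i with
  | zero =>
    intro _ t ht x y
    obtain ⟨t, rfl⟩ : ∃ t', t = t' + 1 := ⟨t - 1, by omega⟩
    change tclF w.length w (Fc B w t) L 0 x y ↔ _
    unfold tclF
    simp only [true_and, nonpos_iff_eq_zero, one_ne_zero, false_and, or_false]
    exact eE_sem (hF t (by omega)) (hR t (by omega)) x y
  | succ i ih =>
    intro hi t ht x y
    obtain ⟨t, rfl⟩ : ∃ t', t = t' + 1 := ⟨t - 1, by omega⟩
    change tclF w.length w (Fc B w t) L (i + 1) x y ↔ _
    unfold tclF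
    have e : ∀ x y : VV w, Fc B w t 6 (vec [L, i, x, y]) ↔
        Skew.tcl (S.eE R ((L + 1) / 2)) i x y := fun x y =>
      (Fc_vec (by simp) (by simp; omega)).trans (ih (by omega) t (by omega) x y)
    simp only [Nat.succ_ne_zero, false_and, Nat.le_add_left, true_and, false_or,
      Nat.add_sub_cancel]
    rw [exV]
    exact or_congr (e x y) (exists_congr fun z => and_congr (e x z) (e z y))

/-- Fuel for level `j`. -/
def fuel (M N j : ℕ) : ℕ := M + j * (tt N + kk N + 3)

theorem level_sem (hn : nn w.length ≤ B) (hT : tt w.length ≤ B) (hK : kk w.length ≤ B)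
    (hA : ∀ a b, S.arc a b ↔ adjV w a (S.m b) ∧ b ≠ a) {M : ℕ}
    (hF : ∀ t, M ≤ t → ∀ u v : VV w, mateF w.length w (Fc B w t) u v ↔ S.m u = v) (j : ℕ) :
    (∀ L, L ≤ nn w.length → L ≤ 2 ^ j → ∀ t, fuel M w.length j ≤ t → ∀ x y : VV w,
      (dF w.length (Fc B w t) L x y ↔ S.algD (kk w.length) (tt w.length) L x y)) ∧
    ∀ L, L ≤ nn w.length → L ≤ 2 ^ j → ∀ t, fuel M w.length j + tt w.length + 1 ≤ t → ∀ s a,
      a.k ≤ nn w.length → (rA (Fc B w t) L (tt w.length) (enc s) (toIt a) ↔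
        S.algR (kk w.length) (tt w.length) L s a) := by
  have key : ∀ j, (∀ L, L ≤ nn w.length → L ≤ 2 ^ j → ∀ t, fuel M w.length j ≤ t → ∀ x y : VV w,
      (dF w.length (Fc B w t) L x y ↔ S.algD (kk w.length) (tt w.length) L x y)) →
      ∀ L, L ≤ nn w.length → L ≤ 2 ^ j → ∀ t, fuel M w.length j + tt w.length + 1 ≤ t → ∀ s a,
      a.k ≤ nn w.length → (rA (Fc B w t) L (tt w.length) (enc s) (toIt a) ↔
        S.algR (kk w.length) (tt w.length) L s a) := by
    intro j h L hL hj t ht s a ha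
    rw [Fc_rA hn (by omega) hT s a ha]
    have hM : M ≤ fuel M w.length j := Nat.le_add_right _ _
    exact (rp_sem hn hT hA (by omega) (fun t ht => hF t (hM.trans ht)) (h L hL hj) s _ le_rfl t
      ht).1 a ha
  refine ⟨?_, key j ?_⟩ <;>
  · induction j with
    | zero =>
      intro L hL hj t ht x y
      rw [Skew.algD_le _ _ _ (by simpa using hj)]
      refine iff_of_false (fun h => ?_) id
      have := h.1
      simp only [pow_zero] at hj
      omega
    | succ j ih =>
      intro L hL hj t ht x y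
      by_cases h1 : L ≤ 1
      · rw [Skew.algD_le _ _ _ h1]
        refine iff_of_false (fun h => ?_) id
        have := h.1
        omega
      · unfold dF
        rw [Skew.algD_gt _ _ _ (by omega)]
        have h2 : 2 ^ (j + 1) = 2 ^ j * 2 := pow_succ 2 j
        have hR := key j ih ((L + 1) / 2) (by omega) (by omega)
        have hM : M ≤ fuel M w.length j := Nat.le_add_right _ _
        have hf : fuel M w.length (j + 1) = fuel M w.length j + (tt w.length + kk w.length + 3) := by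
          unfold fuel
          ring
        have h3 := tcl_sem (M := fuel M w.length j + tt w.length + 1) (L := L) hn hK (by omega)
          (fun t ht => hF t (by omega)) (fun t ht s a ha => hR t ht s a (by omega))
          (kk w.length) le_rfl t (by omega) x y
        rw [← h3]
        rw [Fc_vec (by simp) (by simp; omega)]
        exact ⟨fun h => h.2, fun h => ⟨by omega, h⟩⟩

theorem accept_sem (hn : nn w.length ≤ B) (hT : tt w.length ≤ B) (hK : kk w.length ≤ B)
    (hA : ∀ a b, S.arc a b ↔ adjV w a (S.m b) ∧ b ≠ a) {M : ℕ}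
    (hF : ∀ t, M ≤ t → ∀ u v : VV w, mateF w.length w (Fc B w t) u v ↔ S.m u = v) {j : ℕ}
    (hj : nn w.length ≤ 2 ^ j) {t : ℕ} (ht : fuel M w.length j + tt w.length + 1 ≤ t) :
    (∀ y, y < nn w.length → ∀ a, a < nn w.length → ∀ b, b < nn w.length →
      arcF w.length w (Fc B w t) y a → arcF w.length w (Fc B w t) b y →
      ¬ a = b ∧ ¬ rchF w.length (Fc B w t) (nn w.length) y a b) ↔
    S.Accept (kk w.length) (tt w.length) (nn w.length) := by
  have hM : M ≤ fuel M w.length j := Nat.le_add_right _ _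
  have hF' := hF t (by omega)
  have hR := (level_sem hn hT hK hA hF j).2 (nn w.length) le_rfl hj t ht
  unfold Skew.Accept
  rw [allV]
  refine forall_congr' fun y => ?_
  rw [allV]
  refine forall_congr' fun a => ?_
  rw [allV]
  refine forall_congr' fun b => imp_congr (arc_sem hA hF' _ _) (imp_congr (arc_sem hA hF' _ _)
    (and_congr Fin.ext_iff.symm.not (not_congr ?_)))
  exact rch_sem (fun s a ha => hR s a ha) (some y) a b

end

end Pool.Agent.UPM
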