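import Mathlib
import Pool.Agent.UPM.Det

/-!
# The determinant modulo 2 by the recursions `detc` (Chistov)
-/

set_option autoImplicit false

namespace Pool.Agent.UPM

open Finset Matrix

/-- The leading `i × i` block. -/
def blk (a : ℕ → ℕ → ZMod 2) (i : ℕ) : Matrix (Fin i) (Fin i) (ZMod 2) :=
  Matrix.of fun x y => a x y

theorem powc_eq (a : ℕ → ℕ → ZMod 2) (i : ℕ) (k : ℕ) :
    ∀ x y : Fin i, powc a i k x y = (blk a i ^ k) x y := by
  induction k using Nat.strong_induction_on with
  | _ k ih =>
    intro x y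
    match k, ih with
    | 0, _ => simp [powc, Matrix.one_apply, Fin.ext_iff]
    | 1, _ => simp [powc, blk]
    | k + 2, ih =>
      rw [powc, Finset.sum_range]
      have e : blk a i ^ (k + 2) = blk a i ^ ((k + 2) / 2) * blk a i ^ (k + 2 - (k + 2) / 2) := by
        rw [← pow_add]; congr 1; omega
      rw [e, Matrix.mul_apply]
      refine Finset.sum_congr rfl fun w _ => ?_
      rw [ih _ (by omega), ih _ (by omega)]

/-- The series `det (1 - z A)`. -/
noncomputable def ds (a : ℕ → ℕ → ZMod 2) (i : ℕ) : PowerSeries (ZMod 2) :=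
  (1 - (PowerSeries.X : PowerSeries (ZMod 2)) • (blk a i).map (PowerSeries.C (R := ZMod 2))).det

theorem ds_eq (a : ℕ → ℕ → ZMod 2) (i : ℕ) :
    ds a i = ((blk a i).charpolyRev : PowerSeries (ZMod 2)) := by
  rw [Matrix.charpolyRev]
  have h := RingHom.map_det (Polynomial.coeToPowerSeries.ringHom (R := ZMod 2))
    (1 - (Polynomial.X : Polynomial (ZMod 2)) • (blk a i).map Polynomial.C)
  rw [Polynomial.coeToPowerSeries.ringHom_apply] at h
  rw [h, ds]
  congr 1
  ext1 x y
  rw [RingHom.mapMatrix_apply, Matrix.map_apply, Polynomial.coeToPowerSeries.ringHom_apply]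
  simp only [Matrix.sub_apply, Matrix.smul_apply, Matrix.map_apply, smul_eq_mul,
    Polynomial.coe_sub, Polynomial.coe_mul, Polynomial.coe_X, Polynomial.coe_C]
  congr 1
  by_cases e : x = y <;> simp [Matrix.one_apply, e]

theorem coeff_ds (a : ℕ → ℕ → ZMod 2) (n : ℕ) :
    PowerSeries.coeff n (ds a n) = (blk a n).det := by
  rw [ds_eq, Polynomial.coeff_coe, ← Matrix.reverse_charpoly, Polynomial.coeff_reverse,
    Matrix.charpoly_natDegree_eq_dim, Fintype.card_fin, Polynomial.revAt_le le_rfl, Nat.sub_self,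
    Matrix.det_eq_sign_charpoly_coeff, Fintype.card_fin]
  have : (-1 : ZMod 2) = 1 := by decide
  rw [this, one_pow, one_mul]

/-- The geometric series of the matrix `z A`. -/
noncomputable def gs (a : ℕ → ℕ → ZMod 2) (i : ℕ) :
    Matrix (Fin i) (Fin i) (PowerSeries (ZMod 2)) :=
  Matrix.of fun x y => PowerSeries.mk fun k => (blk a i ^ k) x y

theorem gs_mul (a : ℕ → ℕ → ZMod 2) (i : ℕ) :
    (1 - (PowerSeries.X : PowerSeries (ZMod 2)) • (blk a i).map (PowerSeries.C (R := ZMod 2))) *
      gs a i = 1 := by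
  rw [sub_mul, one_mul]
  ext x y k
  rw [Matrix.sub_apply, Matrix.smul_mul, Matrix.smul_apply, Matrix.mul_apply, map_sub, smul_eq_mul]
  have h1 : ∀ z w : Fin i, gs a i z w = PowerSeries.mk fun k => (blk a i ^ k) z w := fun _ _ => rfl
  cases k with
  | zero =>
    rw [PowerSeries.coeff_zero_X_mul, h1, PowerSeries.coeff_mk, sub_zero, pow_zero]
    by_cases e : x = y <;> simp [Matrix.one_apply, e]
  | succ k =>
    rw [PowerSeries.coeff_succ_X_mul, h1, PowerSeries.coeff_mk, pow_succ', Matrix.mul_apply, map_sum]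
    have : PowerSeries.coeff (k + 1) ((1 : Matrix (Fin i) (Fin i) (PowerSeries (ZMod 2))) x y) = 0 := by
      by_cases e : x = y <;> simp [Matrix.one_apply, e, PowerSeries.coeff_one]
    rw [this, sub_eq_zero]
    refine Finset.sum_congr rfl fun w _ => ?_
    rw [Matrix.map_apply, h1, PowerSeries.coeff_C_mul, PowerSeries.coeff_mk]

theorem gs_last (a : ℕ → ℕ → ZMod 2) (i : ℕ) :
    ds a (i + 1) * gs a (i + 1) (Fin.last i) (Fin.last i) = ds a i := by
  set B : Matrix (Fin (i + 1)) (Fin (i + 1)) (PowerSeries (ZMod 2)) :=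
    1 - (PowerSeries.X : PowerSeries (ZMod 2)) • (blk a (i + 1)).map (PowerSeries.C (R := ZMod 2))
    with hB
  have h1 : B * gs a (i + 1) = 1 := gs_mul a (i + 1)
  have h2 : B.det • gs a (i + 1) = B.adjugate := by
    calc B.det • gs a (i + 1) = (B.adjugate * B) * gs a (i + 1) := by
          rw [Matrix.adjugate_mul, Matrix.smul_mul, one_mul]
      _ = B.adjugate := by rw [Matrix.mul_assoc, h1, mul_one]
  have h3 := congrFun (congrFun h2 (Fin.last i)) (Fin.last i)
  rw [Matrix.smul_apply, smul_eq_mul, Matrix.adjugate_fin_succ_eq_det_submatrix] at h3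
  have h4 : ds a (i + 1) = B.det := rfl
  rw [h4, h3, ← two_mul, pow_mul, neg_one_sq, one_pow, one_mul, ds]
  congr 1
  ext1 x y
  simp only [Matrix.submatrix_apply, Fin.succAbove_last, hB, Matrix.sub_apply, Matrix.smul_apply,
    Matrix.map_apply, Matrix.one_apply, blk, Matrix.of_apply, Fin.val_castSucc,
    Fin.castSucc_inj]

theorem prodc_eq (f : ℕ → ℕ → ZMod 2) (len : ℕ) : ∀ lo k : ℕ,
    prodc f len lo k = PowerSeries.coeff k (∏ j ∈ range len, PowerSeries.mk (f (lo + j))) := by
  induction len using Nat.strong_induction_on with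
  | _ len ih =>
    intro lo k
    match len, ih with
    | 0, _ => simp [prodc, PowerSeries.coeff_one]
    | 1, _ => simp [prodc]
    | len + 2, ih =>
      rw [prodc]
      have e : len + 2 = (len + 2) / 2 + (len + 2 - (len + 2) / 2) := by omega
      have e2 : ∏ j ∈ range (len + 2), PowerSeries.mk (f (lo + j)) =
          (∏ j ∈ range ((len + 2) / 2), PowerSeries.mk (f (lo + j))) *
          ∏ j ∈ range (len + 2 - (len + 2) / 2), PowerSeries.mk (f (lo + (len + 2) / 2 + j)) := by
        conv_lhs => rw [e]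
        rw [Finset.prod_range_add]
        simp only [add_assoc]
      rw [e2, PowerSeries.coeff_mul, Finset.Nat.sum_antidiagonal_eq_sum_range_succ_mk]
      refine Finset.sum_congr rfl fun w _ => ?_
      rw [ih _ (by omega), ih _ (by omega)]

/-- The series `g (z^q)`. -/
noncomputable def ex (g : ℕ → ZMod 2) (q : ℕ) : PowerSeries (ZMod 2) :=
  PowerSeries.mk fun k => if q ∣ k then g (k / q) else 0

theorem invc_eq (g : ℕ → ZMod 2) (hg : g 0 = 1) (M : ℕ) : ∀ q k : ℕ, 0 < q → k < q * 2 ^ M →
    invc g q k = PowerSeries.coeff k (∏ j ∈ range M, ex g (q * 2 ^ j)) := by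
  induction M with
  | zero =>
    intro q k hq hk
    rw [invc, dif_pos (Or.inr (by simpa using hk))]
    simp [PowerSeries.coeff_one]
  | succ M ih =>
    intro q k hq hk
    have e2 : ∏ j ∈ range (M + 1), ex g (q * 2 ^ j) =
        ex g q * ∏ j ∈ range M, ex g (2 * q * 2 ^ j) := by
      rw [Finset.prod_range_succ', mul_comm]
      congr 1
      · simp
      · refine Finset.prod_congr rfl fun j _ => ?_
        congr 1
        ring
    have hk2 : ∀ k₁, k - k₁ < 2 * q * 2 ^ M := fun k₁ => by
      have : 2 * q * 2 ^ M = q * 2 ^ (M + 1) := by ring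
      omega
    have e3 : PowerSeries.coeff k (∏ j ∈ range (M + 1), ex g (q * 2 ^ j)) =
        ∑ k₁ ∈ range (k + 1), if q ∣ k₁ then g (k₁ / q) * invc g (2 * q) (k - k₁) else 0 := by
      rw [e2, PowerSeries.coeff_mul, Finset.Nat.sum_antidiagonal_eq_sum_range_succ_mk]
      refine Finset.sum_congr rfl fun w _ => ?_
      rw [← ih (2 * q) (k - w) (by omega) (hk2 w), ex, PowerSeries.coeff_mk]
      split_ifs <;> simp
    rw [e3, invc]
    split_ifs with h h2
    · subst h2
      rw [Finset.sum_range_one]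
      simp only [dvd_zero, if_true, Nat.zero_div, hg, one_mul, Nat.sub_self]
      rw [invc, dif_pos (Or.inr (by omega))]
      simp
    · rw [Finset.sum_eq_single 0]
      · simp only [dvd_zero, if_true, Nat.zero_div, hg, one_mul, Nat.sub_zero]
        rw [invc, dif_pos (Or.inr (by omega)), if_neg h2]
      · intro b hb hb0
        rw [if_neg]
        intro hd
        have := Nat.le_of_dvd (Nat.pos_of_ne_zero hb0) hd
        have := mem_range.1 hb
        omega
      · intro h0
        exact absurd (mem_range.2 (by omega)) h0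
    · rw [← Finset.sum_attach (range (k + 1))
        (fun k₁ => if q ∣ k₁ then g (k₁ / q) * invc g (2 * q) (k - k₁) else 0)]

theorem sq_coeff (k : ℕ) : ∀ f : PowerSeries (ZMod 2),
    PowerSeries.coeff k (f ^ 2) = if 2 ∣ k then PowerSeries.coeff (k / 2) f else 0 := by
  have hch : CharP (PowerSeries (ZMod 2)) 2 :=
    charP_of_injective_ringHom (f := PowerSeries.C (R := ZMod 2)) PowerSeries.C_injective 2
  induction k using Nat.strong_induction_on with
  | _ k ih =>
    intro f
    have hf : f = PowerSeries.C (PowerSeries.coeff 0 f) +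
        PowerSeries.X * PowerSeries.mk fun p => PowerSeries.coeff (p + 1) f := by
      ext m
      cases m with
      | zero => simp
      | succ m => simp [PowerSeries.coeff_succ_X_mul]
    have h2 : f ^ 2 = PowerSeries.C (PowerSeries.coeff 0 f) +
        PowerSeries.X ^ 2 * (PowerSeries.mk fun p => PowerSeries.coeff (p + 1) f) ^ 2 := by
      conv_lhs => rw [hf]
      rw [add_pow_char _ _ 2, mul_pow, ← map_pow]
      congr 2
      have : ∀ z : ZMod 2, z ^ 2 = z := by decide
      exact this _
    rw [h2]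
    match k, ih with
    | 0, _ => simp
    | 1, _ =>
      rw [map_add, PowerSeries.coeff_X_pow_mul']
      simp
    | k + 2, ih =>
      rw [map_add, PowerSeries.coeff_X_pow_mul, ih k (by omega), PowerSeries.coeff_C,
        if_neg (by omega), zero_add, PowerSeries.coeff_mk]
      have e1 : (k + 2) / 2 = k / 2 + 1 := by omega
      have e2 : 2 ∣ k + 2 ↔ 2 ∣ k := by omega
      rw [e1]
      simp only [e2]

theorem ex_two_mul (g : ℕ → ZMod 2) (q : ℕ) : ex g (q * 2) = ex g q ^ 2 := by
  ext k
  rw [sq_coeff, ex, ex, PowerSeries.coeff_mk, PowerSeries.coeff_mk]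
  by_cases h2 : 2 ∣ k
  · obtain ⟨m, rfl⟩ := h2
    rw [if_pos (Dvd.intro m rfl), Nat.mul_div_cancel_left m (by norm_num)]
    have e1 : q * 2 ∣ 2 * m ↔ q ∣ m := by
      rw [mul_comm q 2]
      exact Nat.mul_dvd_mul_iff_left (by norm_num)
    have e2 : 2 * m / (q * 2) = m / q := by
      rw [mul_comm q 2]
      exact Nat.mul_div_mul_left m q (by norm_num)
    simp only [e1, e2]
  · rw [if_neg h2, if_neg]
    intro h
    exact h2 (dvd_trans (Dvd.intro_left q rfl) h)

theorem ex_pow (g : ℕ → ZMod 2) (j : ℕ) : ex g (2 ^ j) = ex g 1 ^ (2 ^ j) := by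
  induction j with
  | zero => simp
  | succ j ih => rw [pow_succ, ex_two_mul g _, ih, ← pow_mul]

theorem ex_one (g : ℕ → ZMod 2) : ex g 1 = PowerSeries.mk g := by
  ext k
  simp [ex]

theorem invc_inv (g : ℕ → ZMod 2) (hg : g 0 = 1) (D : PowerSeries (ZMod 2))
    (h : D * PowerSeries.mk g = 1) (n : ℕ) : invc g 1 n = PowerSeries.coeff n D := by
  have hn : n < 2 ^ n := Nat.lt_two_pow_self
  rw [invc_eq g hg n 1 n one_pos (by simpa using hn)]
  have e1 : ∏ j ∈ range n, ex g (1 * 2 ^ j) = ex g 1 ^ (2 ^ n - 1) := by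
    have e0 : ∑ j ∈ range n, 2 ^ j = 2 ^ n - 1 := by
      rw [Nat.geomSum_eq (le_refl 2) n]
      norm_num
    simp only [one_mul, ex_pow]
    rw [Finset.prod_pow_eq_pow_sum, e0]
  have e2 : ex g 1 ^ (2 ^ n - 1) = D * ex g (2 ^ n) := by
    have : 2 ^ n = (2 ^ n - 1) + 1 := by have := Nat.one_le_two_pow (n := n); omega
    rw [ex_pow]
    conv_rhs => rw [this, pow_succ, ex_one, mul_comm, mul_assoc, mul_comm _ D, h, mul_one]
    rw [ex_one]
  rw [e1, e2, PowerSeries.coeff_mul, Finset.sum_eq_single (n, 0)]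
  · rw [ex, PowerSeries.coeff_mk, if_pos (dvd_zero _), Nat.zero_div, hg, mul_one]
  · rintro ⟨b, c⟩ hb hne
    have hb : b + c = n := by simpa using hb
    change PowerSeries.coeff b D * PowerSeries.coeff c (ex g (2 ^ n)) = 0
    rw [ex, PowerSeries.coeff_mk, if_neg, mul_zero]
    intro hd
    rcases Nat.eq_zero_or_pos c with h0 | h0
    · subst h0
      exact hne (by rw [← hb]; simp)
    · have := Nat.le_of_dvd h0 hd
      omega
  · intro h0
    exact absurd (by simp) h0

theorem ds_zero (a : ℕ → ℕ → ZMod 2) : ds a 0 = 1 := by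
  rw [ds, Matrix.det_fin_zero]

/-- UD2: the determinant modulo 2 by the recursions. -/
theorem det_rec (n : ℕ) (a : ℕ → ℕ → ZMod 2) :
    (Matrix.of fun x y : Fin n => a x y).det = detc n a := by
  have hprod : ∀ n : ℕ, ds a n * ∏ j ∈ range n, PowerSeries.mk (fun k => powc a (j + 1) k j j) = 1 := by
    intro n
    induction n with
    | zero => simp [ds_zero]
    | succ n ih =>
      have h1 : PowerSeries.mk (fun k => powc a (n + 1) k n n) =
          gs a (n + 1) (Fin.last n) (Fin.last n) := by
        rw [gs, Matrix.of_apply]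
        congr 1
        funext k
        have := powc_eq a (n + 1) k (Fin.last n) (Fin.last n)
        rwa [Fin.val_last] at this
      rw [Finset.prod_range_succ, h1, mul_comm (∏ j ∈ range n, _), ← mul_assoc, gs_last, ih]
  have hg : PowerSeries.mk (fun k => prodc (fun i k => powc a (i + 1) k i i) n 0 k) =
      ∏ j ∈ range n, PowerSeries.mk (fun k => powc a (j + 1) k j j) := by
    ext k
    rw [PowerSeries.coeff_mk, prodc_eq]
    simp only [Nat.zero_add]
  have hg0 : prodc (fun i k => powc a (i + 1) k i i) n 0 0 = 1 := by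
    rw [prodc_eq, PowerSeries.coeff_zero_eq_constantCoeff_apply, map_prod]
    refine Finset.prod_eq_one fun j _ => ?_
    rw [← PowerSeries.coeff_zero_eq_constantCoeff_apply, PowerSeries.coeff_mk, powc, if_pos rfl]
  rw [detc, invc_inv _ hg0 (ds a n) (by rw [hg]; exact hprod n) n, coeff_ds]
  rfl

end Pool.Agent.UPM
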