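import Pool.Agent.UPM.Det

/-!
# Determinants modulo 2 of adjacency matrices and perfect matchings
-/

set_option autoImplicit false

namespace Pool.Agent.UPM

open Finset Equiv

theorem zmod2_cases (x : ZMod 2) : x = 0 ∨ x = 1 := by revert x; decide

theorem zmod2_add_self (x : ZMod 2) : x + x = 0 := by revert x; decide

theorem zmod2_neg (x : ZMod 2) : -x = x := by revert x; decide

/-- For symmetric matrices modulo 2 the determinant is the sum over the involutions. -/
theorem det_zmod2 {n : ℕ} (M : Matrix (Fin n) (Fin n) (ZMod 2)) (hM : ∀ x y, M x y = M y x) :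
    M.det = ∑ σ ∈ (univ : Finset (Perm (Fin n))).filter (fun σ => σ⁻¹ = σ), ∏ i, M (σ i) i := by
  rw [Matrix.det_apply]
  have h1 : ∀ σ : Perm (Fin n), (Equiv.Perm.sign σ • ∏ i, M (σ i) i) = ∏ i, M (σ i) i := by
    intro σ
    rcases Int.units_eq_one_or (Perm.sign σ) with h | h
    · rw [h, one_smul]
    · rw [h, Units.neg_smul, one_smul, zmod2_neg]
  simp_rw [h1]
  rw [← Finset.sum_filter_add_sum_filter_not univ (fun σ : Perm (Fin n) => σ⁻¹ = σ)]
  have h2 : ∀ σ : Perm (Fin n), ∏ i, M (σ⁻¹ i) i = ∏ i, M (σ i) i := by
    intro σ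
    rw [← Equiv.prod_comp σ (fun i => M (σ⁻¹ i) i)]
    refine Finset.prod_congr rfl fun i _ => ?_
    have h' : σ⁻¹ (σ i) = i := σ.symm_apply_apply i
    rw [h']
    exact hM _ _
  have h3 : ∑ σ ∈ (univ : Finset (Perm (Fin n))).filter (fun σ => ¬ σ⁻¹ = σ), ∏ i, M (σ i) i = 0 := by
    refine Finset.sum_involution (fun σ _ => σ⁻¹) ?_ ?_ ?_ ?_
    · intro σ _
      rw [h2]
      exact zmod2_add_self _
    · intro σ hσ _
      exact (mem_filter.1 hσ).2
    · intro σ hσ
      have := (mem_filter.1 hσ).2
      refine mem_filter.2 ⟨mem_univ _, ?_⟩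
      rw [inv_inv]
      exact fun h => this h.symm
    · intro σ _
      exact inv_inv σ
  rw [h3, add_zero]

theorem det_pm {n : ℕ} (adj : Fin n → Fin n → Prop) [DecidableRel adj] (hs : ∀ a b, adj a b → adj b a)
    (hi : ∀ a, ¬ adj a a) (f : Fin n → Fin n) (hf : IsPM adj f) (hu : ∀ g, IsPM adj g → g = f)
    (u v : Fin n) (huv : adj u v) (a : ℕ → ℕ → ZMod 2)
    (ha : ∀ x y : Fin n, a x y = if adj x y then 1 else 0) :
    (Matrix.of fun x y : Fin n => del a u v x y).det = 1 ↔ f u = v := by
  have huv' : u ≠ v := fun h => hi v (by rw [h] at huv; exact huv)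
  have hM : ∀ x y : Fin n, (Matrix.of fun x y : Fin n => del a u v x y) x y =
      if x = u ∨ x = v ∨ y = u ∨ y = v then (if x = y then 1 else 0) else if adj x y then 1 else 0 := by
    intro x y
    simp only [Matrix.of_apply, del, ha, Fin.val_inj]
  have hsym : ∀ x y : Fin n, (Matrix.of fun x y : Fin n => del a u v x y) x y =
      (Matrix.of fun x y : Fin n => del a u v x y) y x := by
    intro x y
    rw [hM, hM]
    have e1 : (x = u ∨ x = v ∨ y = u ∨ y = v) ↔ (y = u ∨ y = v ∨ x = u ∨ x = v) := by tauto
    have e2 : adj x y ↔ adj y x := ⟨hs _ _, hs _ _⟩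
    have e3 : x = y ↔ y = x := eq_comm
    simp only [e1, e2, e3]
  rw [det_zmod2 _ hsym]
  -- the contributing involutions
  have key : ∀ σ : Perm (Fin n), σ⁻¹ = σ →
      (∏ i, (Matrix.of fun x y : Fin n => del a u v x y) (σ i) i ≠ 0) →
      (f u = v ∧ ∀ i, σ i = if i = u ∨ i = v then i else f i) := by
    intro σ hσ hP
    have hne : ∀ i, (Matrix.of fun x y : Fin n => del a u v x y) (σ i) i ≠ 0 := by
      intro i h
      exact hP (Finset.prod_eq_zero (mem_univ i) h)
    have hσσ : ∀ i, σ (σ i) = i := by
      intro i
      have h := congrArg (fun τ : Perm (Fin n) => τ (σ i)) hσ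
      have h' : σ⁻¹ (σ i) = i := σ.symm_apply_apply i
      simp only [h'] at h
      exact h.symm
    have hu1 : σ u = u := by
      by_contra h
      have := hne u
      rw [hM, if_pos (Or.inr (Or.inr (Or.inl rfl))), if_neg h] at this
      exact this rfl
    have hv1 : σ v = v := by
      by_contra h
      have := hne v
      rw [hM, if_pos (Or.inr (Or.inr (Or.inr rfl))), if_neg h] at this
      exact this rfl
    have hadj : ∀ i, i ≠ u → i ≠ v → σ i ≠ u ∧ σ i ≠ v ∧ adj (σ i) i := by
      intro i hiu hiv
      have h1 : σ i ≠ u := fun h => hiu (by rw [← hσσ i, h, hu1])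
      have h2 : σ i ≠ v := fun h => hiv (by rw [← hσσ i, h, hv1])
      refine ⟨h1, h2, ?_⟩
      have := hne i
      rw [hM, if_neg (by tauto)] at this
      by_contra h
      rw [if_neg h] at this
      exact this rfl
    have hg : IsPM adj (fun i => if i = u then v else if i = v then u else σ i) := by
      constructor
      · intro i
        by_cases h1 : i = u
        · subst h1
          simp [huv'.symm]
        · by_cases h2 : i = v
          · subst h2
            simp [h1]
          · obtain ⟨h3, h4, -⟩ := hadj i h1 h2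
            simp [h1, h2, h3, h4, hσσ]
      · intro i
        by_cases h1 : i = u
        · subst h1
          simpa using huv
        · by_cases h2 : i = v
          · subst h2
            simpa [h1] using hs _ _ huv
          · obtain ⟨-, -, h5⟩ := hadj i h1 h2
            simpa [h1, h2] using hs _ _ h5
    have hgf := hu _ hg
    refine ⟨?_, ?_⟩
    · rw [← hgf]
      simp
    · intro i
      rw [← hgf]
      by_cases h1 : i = u
      · subst h1
        simp [hu1]
      · by_cases h2 : i = v
        · subst h2
          simp [hv1]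
        · simp [h1, h2]
  constructor
  · intro h
    by_contra hne
    rw [Finset.sum_eq_zero] at h
    · exact absurd h (by decide)
    · intro σ hσ
      by_contra hP
      exact hne (key σ (mem_filter.1 hσ).2 hP).1
  · intro hfu
    have hfv : f v = u := by rw [← hfu]; exact hf.1 u
    have hinv : Function.Involutive (fun i => if i = u ∨ i = v then i else f i) := by
      intro i
      by_cases h1 : i = u ∨ i = v
      · simp [h1]
      · have h2 : ¬ (f i = u ∨ f i = v) := by
          rintro (h | h)
          · exact h1 (Or.inr (by rw [← hf.1 i, h, hfu]))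
          · exact h1 (Or.inl (by rw [← hf.1 i, h, hfv]))
        simp [h1, h2, hf.1 i]
    have hs0 : ∀ i, (Function.Involutive.toPerm _ hinv) i = if i = u ∨ i = v then i else f i := fun i => rfl
    rw [Finset.sum_eq_single (Function.Involutive.toPerm _ hinv)]
    · refine Finset.prod_eq_one fun i _ => ?_
      rw [hM, hs0]
      by_cases h1 : i = u ∨ i = v
      · have h2 : ((if i = u ∨ i = v then i else f i) = u ∨ (if i = u ∨ i = v then i else f i) = v ∨
            i = u ∨ i = v) := by tauto
        rw [if_pos h2, if_pos h1, if_pos rfl]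
      · have h2 : ¬ (f i = u ∨ f i = v) := by
          rintro (h | h)
          · exact h1 (Or.inr (by rw [← hf.1 i, h, hfu]))
          · exact h1 (Or.inl (by rw [← hf.1 i, h, hfv]))
        rw [if_neg h1, if_neg (by tauto), if_pos (hs _ _ (hf.2 i))]
    · intro σ hσ hne
      by_contra hP
      apply hne
      have h3 := (key σ (mem_filter.1 hσ).2 hP).2
      ext i
      rw [h3 i, hs0]
    · intro h
      exfalso
      apply h
      refine mem_filter.2 ⟨mem_univ _, ?_⟩
      ext i
      rfl

end Pool.Agent.UPM
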