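import Mathlib
import Pool.Agent.UPM.SysAlg
import Pool.Agent.UPM.DetRec
import Pool.Agent.UPM.DetPM
import Pool.Agent.UPM.Unique

/-!
# The system of formulas decides whether there is a unique perfect matching
-/

set_option autoImplicit false

namespace Pool.Agent.UPM

open Pool.Agent.NC

open Classical in
/-- Adjacency matrices of graphs with a unique perfect matching. -/
def upmLang : Set (List Bool) :=
  {w | ∃ (n : ℕ) (G : SimpleGraph (Fin n)),
    (w = List.ofFn fun i : Fin (n * n) => decide (G.Adj i.divNat i.modNat)) ∧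
    ∃! M : G.Subgraph, M.IsPerfectMatching}

theorem nn_mul_self (n : ℕ) : nn (n * n) = n := Nat.sqrt_eq n

theorem idx_lt {n : ℕ} (a b : Fin n) : (a : ℕ) * n + b < n * n := by
  have h1 : (a : ℕ) * n + n ≤ n * n := by
    rw [← Nat.succ_mul]
    exact Nat.mul_le_mul_right n a.2
  have := b.2
  omega

open Classical in
theorem getD_ofFn {n : ℕ} (G : SimpleGraph (Fin n)) {w : List Bool}
    (hw : w = List.ofFn fun i : Fin (n * n) => decide (G.Adj i.divNat i.modNat)) (a b : Fin n) :
    w.getD (a * n + b) false = true ↔ G.Adj a b := by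
  subst hw
  rw [List.getD_eq_getElem _ _ (by simpa using idx_lt a b), List.getElem_ofFn, decide_eq_true_iff]
  have e1 : (⟨(a : ℕ) * n + b, idx_lt a b⟩ : Fin (n * n)).divNat = a := by
    apply Fin.ext
    simp only [Fin.coe_divNat]
    rw [mul_comm, Nat.mul_add_div (by have := a.2; omega), Nat.div_eq_of_lt b.2, add_zero]
  have e2 : (⟨(a : ℕ) * n + b, idx_lt a b⟩ : Fin (n * n)).modNat = b := by
    apply Fin.ext
    simp only [Fin.coe_modNat]
    rw [mul_comm, Nat.mul_add_mod, Nat.mod_eq_of_lt b.2]
  rw [e1, e2]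

theorem mem_upmLang (w : List Bool) : w ∈ upmLang ↔ nn w.length * nn w.length = w.length ∧
    (∀ a b : VV w, adjV w a b → adjV w b a) ∧ (∀ a : VV w, ¬ adjV w a a) ∧
    ∃! f : VV w → VV w, IsPM (adjV w) f := by
  classical
  constructor
  · rintro ⟨n, G, hw, hM⟩
    have hl : w.length = n * n := by rw [hw, List.length_ofFn]
    have hn : n = nn w.length := by rw [hl, nn_mul_self]
    subst hn
    have hA : adjV w = G.Adj := by
      funext a b
      exact propext (getD_ofFn G hw a b)
    refine ⟨hl.symm, ?_, ?_, ?_⟩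
    · intro a b h
      rw [hA] at h ⊢
      exact h.symm
    · intro a h
      rw [hA] at h
      exact G.irrefl h
    · rw [hA]
      exact (existsUnique_iff G).1 hM
  · rintro ⟨hl, hs, hi, hf⟩
    let G : SimpleGraph (VV w) := ⟨adjV w, ⟨fun a b h => hs a b h⟩, ⟨fun a h => hi a h⟩⟩
    refine ⟨nn w.length, G, ?_, (existsUnique_iff G).2 hf⟩
    refine List.ext_getElem (by rw [List.length_ofFn, hl]) fun i h1 h2 => ?_
    rw [List.getElem_ofFn]
    have hG : ∀ a b, G.Adj a b ↔ adjW w.length w a b := fun a b => Iff.rfl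
    have e : ∀ b : Bool, b = decide (b = true) := by decide
    rw [e w[i]]
    refine decide_eq_decide.2 ?_
    rw [hG]
    unfold adjW
    simp only [Fin.coe_divNat, Fin.coe_modNat]
    rw [Nat.div_add_mod', List.getD_eq_getElem _ _ h1]

/-- The total fuel. -/
def total (N : ℕ) : ℕ := fuel (3 * kk N + 3) N (kk N) + tt N + 1

/-- The bound for the registers. -/
def bound (N : ℕ) : ℕ := 2 * N + tt N + kk N + 1

theorem nn_lt (N : ℕ) : nn N < 2 ^ kk N :=
  (Nat.sqrt_le_self N).trans_lt (Nat.lt_pow_succ_log_self (by norm_num) N)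

theorem out_iff (w : List Bool) {t : ℕ} (ht : total w.length ≤ t) :
    outF w.length w (Fc (bound w.length) w t) ↔ nn w.length * nn w.length = w.length ∧
    (∀ a b : VV w, adjV w a b → adjV w b a) ∧ (∀ a : VV w, ¬ adjV w a a) ∧
    ∃! f : VV w → VV w, IsPM (adjV w) f := by
  classical
  set B := bound w.length with hB
  have hnN : nn w.length ≤ w.length := Nat.sqrt_le_self _
  have hn2 := nn_lt w.length
  have hB1 : 2 * nn w.length ≤ B := by rw [hB]; unfold bound; omega
  have hB2 : tt w.length ≤ B := by rw [hB]; unfold bound; omega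
  have hB3 : kk w.length ≤ B := by rw [hB]; unfold bound; omega
  have hB4 : 1 ≤ B := by rw [hB]; unfold bound; omega
  have hms : ∀ t, 3 * kk w.length + 3 ≤ t → ∀ u v : VV w, mateF w.length w (Fc B w t) u v ↔
      adjV w u v ∧ detc (nn w.length) (del (mat w) u v) = 1 := fun t ht u v =>
    mate_sem hn2 hB1 hB4 ht (by have := u.2; omega) (by have := v.2; omega)
  have hft : 3 * kk w.length + 3 ≤ fuel (3 * kk w.length + 3) w.length (kk w.length) :=
    Nat.le_add_right _ _
  unfold total at ht
  have main : ∀ (hs : ∀ a b : VV w, adjV w a b → adjV w b a) (hi : ∀ a : VV w, ¬ adjV w a a)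
      (f : VV w → VV w) (hf : IsPM (adjV w) f)
      (_ : ∀ u v : VV w, (adjV w u v ∧ detc (nn w.length) (del (mat w) u v) = 1) ↔ f u = v),
      (∀ y, y < nn w.length → ∀ a, a < nn w.length → ∀ b, b < nn w.length →
      arcF w.length w (Fc B w t) y a → arcF w.length w (Fc B w t) b y →
      ¬ a = b ∧ ¬ rchF w.length (Fc B w t) (nn w.length) y a b) ↔
      ∀ g, IsPM (adjV w) g → g = f := by
    intro hs hi f hf hd
    rw [unique_iff_noCyc (adjV w) hs hi f hf, ← Skew.accept_iff (S := skewOf (adjV w) hs hi f hf)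
      (K := kk w.length) (T := tt w.length) hn2.le (by simp) le_rfl]
    exact accept_sem (S := skewOf (adjV w) hs hi f hf) (by omega) hB2 hB3
      (fun a b => Iff.rfl) (fun t ht u v => (hms t ht u v).trans (hd u v)) hn2.le ht
  unfold outF
  refine and_congr Iff.rfl ?_
  constructor
  · rintro ⟨h1, h2, h3, h4⟩
    have hs : ∀ a b : VV w, adjV w a b → adjV w b a := fun a b h => h1 a a.2 b b.2 h
    have hi : ∀ a : VV w, ¬ adjV w a a := fun a h => h2 a a.2 h
    have h3' : ∀ u : VV w, ∃ v : VV w, mateF w.length w (Fc B w t) u v ∧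
        mateF w.length w (Fc B w t) v u ∧ ∀ v' : VV w, mateF w.length w (Fc B w t) u v' → v' = v := by
      intro u
      obtain ⟨v, hv, g1, g2, g3⟩ := h3 u u.2
      exact ⟨⟨v, hv⟩, g1, g2, fun v' h => Fin.ext (g3 v' v'.2 h)⟩
    choose f f1 f2 f3 using h3'
    have hms' := hms t (by omega)
    have hf : IsPM (adjV w) f :=
      ⟨fun v => (f3 (f v) v (f2 v)).symm, fun v => ((hms' _ _).1 (f1 v)).1⟩
    have hd : ∀ u v : VV w, (adjV w u v ∧ detc (nn w.length) (del (mat w) u v) = 1) ↔ f u = v := by
      intro u v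
      rw [← hms']
      exact ⟨fun h => (f3 u v h).symm, fun h => h ▸ f1 u⟩
    exact ⟨hs, hi, f, hf, (main hs hi f hf hd).1 h4⟩
  · rintro ⟨hs, hi, f, hf, hu⟩
    have hd : ∀ u v : VV w, (adjV w u v ∧ detc (nn w.length) (del (mat w) u v) = 1) ↔ f u = v := by
      intro u v
      have key : adjV w u v → (detc (nn w.length) (del (mat w) u v) = 1 ↔ f u = v) := by
        intro huv
        rw [← det_rec]
        exact det_pm (adjV w) hs hi f hf hu u v huv (mat w) (fun x y => by
          unfold mat adjV adjW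
          congr)
      constructor
      · rintro ⟨h1, h2⟩
        exact (key h1).1 h2
      · rintro rfl
        exact ⟨hf.2 u, (key (hf.2 u)).2 rfl⟩
    have hms' : ∀ u v : VV w, mateF w.length w (Fc B w t) u v ↔ f u = v := fun u v =>
      (hms t (by omega) u v).trans (hd u v)
    refine ⟨fun a ha b hb h => hs ⟨a, ha⟩ ⟨b, hb⟩ h, fun a ha h => hi ⟨a, ha⟩ h, ?_,
      (main hs hi f hf hd).2 hu⟩
    intro u hu
    refine ⟨f ⟨u, hu⟩, (f ⟨u, hu⟩).2, (hms' ⟨u, hu⟩ _).2 rfl, (hms' _ ⟨u, hu⟩).2 (hf.1 _), ?_⟩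
    intro v' hv' h
    rw [(hms' ⟨u, hu⟩ ⟨v', hv'⟩).1 h]

theorem stage_iff (w : List Bool) (e : ℕ → ℕ) :
    stage sys 13 (bound w.length) w (total w.length + 1) 0 e ↔ w ∈ upmLang := by
  rw [mem_upmLang]
  exact out_iff w le_rfl

theorem nf_bound : NF fun N _ => bound N := by
  unfold bound
  repeat' with_reducible first
    | assumption | exact NF.var _ | exact NF.const _ | exact NF.len | apply NF.nn | apply NF.kk
    | apply NF.tt | apply NF.add | apply NF.sub | apply NF.mul | apply NF.div | apply NF.mod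
    | apply NL.cons | exact NL.nil | apply FO.and | apply FO.or | apply FO.not | apply FO.imp
    | apply FO.ex | apply FO.all | apply FO.par | apply FO.exIt | apply FO.rel | apply FO.inp
    | apply FO.le | apply FO.lt | apply FO.eq | dsimp only

theorem nf_total : NF fun N _ => total N + 1 := by
  unfold total fuel
  repeat' with_reducible first
    | assumption | exact NF.var _ | exact NF.const _ | exact NF.len | apply NF.nn | apply NF.kk
    | apply NF.tt | apply NF.add | apply NF.sub | apply NF.mul | apply NF.div | apply NF.mod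
    | apply NL.cons | exact NL.nil | apply FO.and | apply FO.or | apply FO.not | apply FO.imp
    | apply FO.ex | apply FO.all | apply FO.par | apply FO.exIt | apply FO.rel | apply FO.inp
    | apply FO.le | apply FO.lt | apply FO.eq | dsimp only

theorem polyLog_total : PolyLog fun N => total N + 1 := by
  refine ⟨22, fun N => ?_⟩
  change total N + 1 ≤ kk N ^ 22 + 22
  have h1 : 1 ≤ kk N := Nat.le_add_left _ _
  unfold total fuel tt
  generalize kk N = K at h1
  rcases Nat.lt_or_ge K 2 with h2 | h2
  · obtain rfl : K = 1 := by omega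
    norm_num
  · have h3 : 2 ^ 19 ≤ K ^ 19 := Nat.pow_le_pow_left h2 19
    have h4 : K ^ 22 = K ^ 19 * K ^ 3 := by ring
    have h5 : 22 * K ^ 3 ≤ K ^ 22 := by
      rw [h4]
      exact Nat.mul_le_mul_right _ (by omega)
    have h6 : K ≤ K ^ 3 := Nat.le_self_pow (by norm_num) K
    have h7 : K ^ 2 ≤ K ^ 3 := Nat.pow_le_pow_right (by omega) (by norm_num)
    nlinarith

end Pool.Agent.UPM
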